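import Pool.Agent.Work.MP_9a767b_pr.H.Step

/-!
# Along

Induction on the walk: `nil`: `pt_self`; `cons`: `pt_triangle`, `step` and the induction hypothesis.
-/

open MeasureTheory ProbabilityTheory Filter Topology

namespace Pool.Agent.Work.MP_9a767b_pr.H

theorem along {d : ℕ} (k : ℤ) {c₁ c₂ : ℝ} (h₁ : 0 ≤ c₁) (h₂ : 0 ≤ c₂) {ω : Sym2 (V d) → ℝ}
    (hω : ∀ e, 0 ≤ ω e) {x y : V d} (w : (lattice d).Walk x y) :
    pt (gl k c₁ c₂ ω) (ct k x) (ct k y) ≤ (w.edges.map (co k c₁ c₂ ω)).sum := by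
  have hg : ∀ e, 0 ≤ gl k c₁ c₂ ω e := by
    intro e
    unfold gl
    split_ifs
    · exact le_min (mul_nonneg h₁ (hω _)) (mul_nonneg h₂ (hω _))
    · exact hω _
    · exact hω _
  induction w with
  | nil =>
    rw [pt_self hg]
    simp
  | @cons u v z h p ih =>
    rw [SimpleGraph.Walk.edges_cons, List.map_cons, List.sum_cons]
    exact (pt_triangle hg (ct k u) (ct k v) (ct k z)).trans (add_le_add (step k h₁ h₂ hω h) ih)

end Pool.Agent.Work.MP_9a767b_pr.H
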