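import Pool.Agent.Work.MP_9a767b_pr.H.Defs

/-!
# Blocks

The probability that in each of the `N` disjoint blocks `B j` of `M` coordinates some coordinate is larger
than `s` is `(1 - p ^ M) ^ N`, `p = ν (Iic s)`.

Let `f : Fin N × Fin M → ι`, `f (j, i) = ((B j).equivFinOfCardEq (hc j)).symm i`; it is injective
(disjoint blocks). By `Measure.map_infinitePi_infinitePi_of_inj` the law of `ω ∘ f` is the product
measure on `Fin N × Fin M → ℝ`, by `Measure.infinitePi_map_curry` its curried version has the law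
`infinitePi (fun _ : Fin N => infinitePi (fun _ : Fin M => ν))`. The event is the preimage of
`Set.pi univ (fun _ => D)` with `D = {y : Fin M → ℝ | ∃ i, s < y i}`, the complement of
`Set.pi univ (fun _ => Iic s)`: `Measure.infinitePi_pi` twice (with `Finset.univ`), `prob_compl_eq_one_sub`.
Take `.real` (`measureReal_def`, `ENNReal.toReal_prod`, `ENNReal.toReal_pow`).
-/

open MeasureTheory ProbabilityTheory Filter Topology

namespace Pool.Agent.Work.MP_9a767b_pr.H

theorem blocks {ι : Type} (ν : Measure ℝ) [IsProbabilityMeasure ν] {N M : ℕ} (B : Fin N → Finset ι)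
    (hB : Pairwise (fun i j => Disjoint (B i) (B j))) (hc : ∀ j, (B j).card = M) (s : ℝ) :
    (Measure.infinitePi (fun _ : ι => ν)).real {ω | ∀ j, ∃ e ∈ B j, s < ω e} =
      (1 - (ν.real (Set.Iic s)) ^ M) ^ N := by
  classical
  obtain ⟨f, hf⟩ : ∃ f : Fin N × Fin M → ι,
      f = fun p => (((B p.1).equivFinOfCardEq (hc p.1)).symm p.2 : ι) := ⟨_, rfl⟩
  have hfm : ∀ p, f p ∈ B p.1 := by
    intro p
    rw [hf]
    exact (((B p.1).equivFinOfCardEq (hc p.1)).symm p.2).2
  have hinj : Function.Injective f := by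
    rintro ⟨j, i⟩ ⟨j', i'⟩ h
    have hj : j = j' := by
      by_contra hne
      have h1 := hfm (j, i)
      have h2 := hfm (j', i')
      rw [← h] at h2
      exact Finset.disjoint_left.1 (hB hne) h1 h2
    subst hj
    rw [hf] at h
    have h3 : i = i' := ((B j).equivFinOfCardEq (hc j)).symm.injective (Subtype.ext h)
    rw [h3]
  have hsurj : ∀ j, ∀ e ∈ B j, ∃ i, f (j, i) = e := by
    intro j e he
    refine ⟨(B j).equivFinOfCardEq (hc j) ⟨e, he⟩, ?_⟩
    rw [hf]
    show (((B j).equivFinOfCardEq (hc j)).symm ((B j).equivFinOfCardEq (hc j) ⟨e, he⟩) : ι) = e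
    rw [Equiv.symm_apply_apply]
  obtain ⟨D, hD⟩ : ∃ D : Set (Fin M → ℝ), D = {y | ∃ i, s < y i} := ⟨_, rfl⟩
  have hDc : D = (Set.pi Set.univ fun _ : Fin M => Set.Iic s)ᶜ := by
    rw [hD]
    ext y
    simp only [Set.mem_setOf_eq, Set.mem_compl_iff, Set.mem_pi, Set.mem_univ, Set.mem_Iic,
      forall_true_left, not_forall, not_le]
  have hmP : MeasurableSet (Set.pi Set.univ fun _ : Fin M => Set.Iic s) :=
    MeasurableSet.univ_pi fun _ => measurableSet_Iic
  have hDm : MeasurableSet D := by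
    rw [hDc]
    exact hmP.compl
  have hDν : (Measure.infinitePi fun _ : Fin M => ν) D = 1 - (ν (Set.Iic s)) ^ M := by
    rw [hDc, prob_compl_eq_one_sub hmP]
    congr 1
    rw [Measure.infinitePi_pi_univ]
    · simp
    · exact fun _ => measurableSet_Iic
  have hlaw1 : (Measure.infinitePi (fun _ : ι => ν)).map (fun (ω : ι → ℝ) p => ω (f p)) =
      Measure.infinitePi (fun _ : Fin N × Fin M => ν) :=
    Measure.map_infinitePi_infinitePi_of_inj hinj
  have hlaw2 : (Measure.infinitePi (fun _ : Fin N × Fin M => ν)).map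
      (MeasurableEquiv.curry (Fin N) (Fin M) ℝ) =
      Measure.infinitePi fun _ : Fin N => Measure.infinitePi fun _ : Fin M => ν :=
    Measure.infinitePi_map_curry (fun _ _ => ν)
  have hfmeas : Measurable (fun (ω : ι → ℝ) (p : Fin N × Fin M) => ω (f p)) := by fun_prop
  have hDN : MeasurableSet (Set.pi Set.univ fun _ : Fin N => D) :=
    MeasurableSet.univ_pi fun _ => hDm
  have hev : {ω : ι → ℝ | ∀ j, ∃ e ∈ B j, s < ω e} =
      (fun (ω : ι → ℝ) (p : Fin N × Fin M) => ω (f p)) ⁻¹'
        ((MeasurableEquiv.curry (Fin N) (Fin M) ℝ) ⁻¹' (Set.pi Set.univ fun _ : Fin N => D)) := by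
    ext ω
    constructor
    · intro h j _
      obtain ⟨e, he, hs⟩ := h j
      obtain ⟨i, hi⟩ := hsurj j e he
      rw [hD]
      refine ⟨i, ?_⟩
      show s < ω (f (j, i))
      rw [hi]
      exact hs
    · intro h j
      have h1 : (fun i => ω (f (j, i))) ∈ D := h j (Set.mem_univ j)
      rw [hD] at h1
      obtain ⟨i, hi⟩ := h1
      exact ⟨f (j, i), hfm (j, i), hi⟩
  have hval : (Measure.infinitePi (fun _ : ι => ν)) {ω | ∀ j, ∃ e ∈ B j, s < ω e} =
      (1 - (ν (Set.Iic s)) ^ M) ^ N := by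
    rw [hev, ← Measure.map_apply hfmeas ((MeasurableEquiv.measurable _) hDN), hlaw1,
      ← Measure.map_apply (MeasurableEquiv.measurable _) hDN, hlaw2,
      Measure.infinitePi_pi_univ _ (fun _ => hDm)]
    simp only [hDν]
    simp
  rw [measureReal_def, hval, ENNReal.toReal_pow, ENNReal.toReal_sub_of_le, ENNReal.toReal_one,
    ENNReal.toReal_pow, ← measureReal_def]
  · exact pow_le_one' prob_le_one M
  · exact ENNReal.one_ne_top

end Pool.Agent.Work.MP_9a767b_pr.H
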