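import Pool.Agent.Work.MP_9a767b_pr.H.Metric

/-!
# ChiWalk

Every walk from `0` to `(n + 1) e_1` uses a horizontal edge of the column `k ≤ n`.

Put `s x = 1` if `k + 1 ≤ x 0` and `s x = 0` otherwise. For adjacent `x`, `y`:
`s y - s x ≤ chi k s(x, y)`: if `s y = 1` and `s x = 0` then `x 0 ≤ k` and `y 0 ≥ k + 1`, so by `adj_cases`
`y = x + ax d 1`, `x 0 = k`, and `chi k s(x, y) = 1`; in the other cases the left side is `≤ 0 ≤ chi`.
By induction on the walk `s (end) - s (start) ≤ (w.edges.map (chi k)).sum`. Here `s (start) = 0`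
(`0 < k + 1`), `s (end) = 1` (`(ax d (n + 1)) 0 = n + 1 ≥ k + 1`).
-/

open MeasureTheory ProbabilityTheory Filter Topology

namespace Pool.Agent.Work.MP_9a767b_pr.H

/-- the indicator of the half space to the right of the column -/
private def hs {d : ℕ} (k : ℤ) (x : V d) : ℝ := if k + 1 ≤ x 0 then 1 else 0

private theorem hs_step {d : ℕ} (k : ℤ) {x y : V d} (h : (lattice d).Adj x y) :
    hs k y - hs k x ≤ chi k s(x, y) := by
  have hchi : (0 : ℝ) ≤ chi k s(x, y) := by
    unfold chi
    split_ifs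
    · exact zero_le_one
    · exact le_refl _
  by_cases h1 : k + 1 ≤ y 0 ∧ ¬ k + 1 ≤ x 0
  · obtain ⟨h2, h3⟩ := h1
    have h4 : y 0 = x 0 + 1 := by
      rcases adj_cases h with h5 | h5 | h5
      · rw [h5]
        show x 0 + (Pi.single 0 1 : V d) 0 = x 0 + 1
        rw [Pi.single_eq_same]
      · exfalso
        have h6 : x 0 = y 0 + 1 := by
          rw [h5]
          show y 0 + (Pi.single 0 1 : V d) 0 = y 0 + 1
          rw [Pi.single_eq_same]
        omega
      · exfalso
        omega
    have h5 : chi k s(x, y) = 1 := by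
      unfold chi
      rw [if_pos]
      refine ⟨?_, ?_⟩
      · show x 0 ≠ y 0
        omega
      · show min (x 0) (y 0) = k
        rw [min_eq_left (by omega)]
        omega
    rw [h5]
    unfold hs
    rw [if_pos h2, if_neg h3, sub_zero]
  · have h6 : hs k y ≤ hs k x := by
      unfold hs
      split_ifs with h7 h8 h8
      · exact le_refl _
      · exact absurd ⟨h7, h8⟩ h1
      · exact zero_le_one
      · exact le_refl _
    linarith

private theorem hs_walk {d : ℕ} (k : ℤ) {x y : V d} (w : (lattice d).Walk x y) :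
    hs k y - hs k x ≤ (w.edges.map (chi k)).sum := by
  induction w with
  | nil => simp
  | @cons u v z h p ih =>
    rw [SimpleGraph.Walk.edges_cons, List.map_cons, List.sum_cons]
    have h1 := hs_step k h
    linarith

theorem chi_walk {d : ℕ} (n k : ℕ) (hk : k ≤ n)
    (w : (lattice d).Walk 0 (ax d ((n + 1 : ℕ) : ℤ))) :
    1 ≤ (w.edges.map (chi (k : ℤ))).sum := by
  have h1 := hs_walk (k : ℤ) w
  have h2 : hs (k : ℤ) (0 : V d) = 0 := by
    unfold hs
    rw [if_neg]
    rw [Pi.zero_apply]
    omega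
  have h3 : hs (k : ℤ) (ax d ((n + 1 : ℕ) : ℤ)) = 1 := by
    unfold hs
    rw [if_pos]
    show (k : ℤ) + 1 ≤ (Pi.single 0 ((n + 1 : ℕ) : ℤ) : V d) 0
    rw [Pi.single_eq_same]
    push_cast
    omega
  rw [h2, h3, sub_zero] at h1
  exact h1

end Pool.Agent.Work.MP_9a767b_pr.H
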