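import Pool.Agent.Work.MP_9a767b_pr.H.Defs

/-!
# CoSum

The sum over the columns `k = 0, …, n` of the cost `co k e` of one pair `e`, for `ω e ≥ α ≥ 0`.
Put `j = mc e` and `s = ω e`.

* `e` vertical (not `hz e`): `co k e` is `c₁ s` for `k = j`, `c₂ s` for `k = j - 1`, and `s` otherwise, so
  `co k e = s + (c₁ - 1) s [k = j] + (c₂ - 1) s [k = j - 1]` and the sum is at most
  `(n + 1) s + (c₁ - 1) s + (c₂ - 1) s` (each indicator sum is `0` or `1`); `chi k e = 0`.
* `e` horizontal: `co k e = s - s [k = j]`, `chi k e = [k = j]`. If `j` is one of `0, …, n` the sum is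
  `n s`, and the claim is `n s ≤ (n + 1 + c₁ + c₂ - 2) s - (c₁ + c₂ - 1) α`, i.e.
  `(c₁ + c₂ - 1) α ≤ (c₁ + c₂ - 1) s`. Otherwise the sum is `(n + 1) s` and the sum of `chi` is `0`.

`Finset.sum_ite_eq`, cast of `k : ℕ` to `ℤ`: rewrite the indicator sums
`∑ k ∈ range (n + 1), if mc e = (k : ℤ) then 1 else 0` as `0` or `1`.
-/

open MeasureTheory ProbabilityTheory Filter Topology

namespace Pool.Agent.Work.MP_9a767b_pr.H

private theorem ind_sum (m : ℕ) (z : ℤ) :
    (∑ k ∈ Finset.range m, (if z = (k : ℤ) then (1 : ℝ) else 0)) = 0 ∨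
      (∑ k ∈ Finset.range m, (if z = (k : ℤ) then (1 : ℝ) else 0)) = 1 := by
  by_cases h : ∃ k ∈ Finset.range m, z = (k : ℤ)
  · obtain ⟨k, hk, rfl⟩ := h
    right
    rw [Finset.sum_eq_single k]
    · rw [if_pos rfl]
    · intro b _ hb
      rw [if_neg]
      intro h
      exact hb (by exact_mod_cast h.symm)
    · intro h
      exact absurd hk h
  · left
    refine Finset.sum_eq_zero fun k hk => ?_
    rw [if_neg]
    intro h1
    exact h ⟨k, hk, h1⟩

theorem co_sum {d : ℕ} (n : ℕ) {α c₁ c₂ : ℝ} (hα : 0 ≤ α) (h₁ : 1 ≤ c₁) (h₂ : 1 ≤ c₂)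
    {ω : Sym2 (V d) → ℝ} (e : Sym2 (V d)) (he : α ≤ ω e) :
    ∑ k ∈ Finset.range (n + 1), co (k : ℤ) c₁ c₂ ω e ≤
      ((n : ℝ) + 1 + (c₁ + c₂ - 2)) * ω e -
        (c₁ + c₂ - 1) * α * ∑ k ∈ Finset.range (n + 1), chi (k : ℤ) e := by
  classical
  set s := ω e with hs
  have hs0 : 0 ≤ s := hα.trans he
  have hI := ind_sum (n + 1) (mc e)
  have hJ := ind_sum (n + 1) (mc e - 1)
  set I := ∑ k ∈ Finset.range (n + 1), (if mc e = (k : ℤ) then (1 : ℝ) else 0) with hIdef
  set J := ∑ k ∈ Finset.range (n + 1), (if mc e - 1 = (k : ℤ) then (1 : ℝ) else 0) with hJdef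
  have hJ1 : J ≤ 1 := by rcases hJ with h | h <;> rw [h] <;> norm_num
  have hI1 : I ≤ 1 := by rcases hI with h | h <;> rw [h] <;> norm_num
  by_cases hz' : hz e
  · have e1 : ∀ k : ℕ, co (k : ℤ) c₁ c₂ ω e = s - s * (if mc e = (k : ℤ) then (1 : ℝ) else 0) := by
      intro k
      unfold co
      rw [if_pos hz']
      by_cases h : mc e = (k : ℤ)
      · rw [if_pos h, if_pos h]
        ring
      · rw [if_neg h, if_neg h]
        ring
    have e2 : ∀ k : ℕ, chi (k : ℤ) e = if mc e = (k : ℤ) then (1 : ℝ) else 0 := by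
      intro k
      unfold chi
      by_cases h : mc e = (k : ℤ)
      · rw [if_pos ⟨hz', h⟩, if_pos h]
      · rw [if_neg (fun h' => h h'.2), if_neg h]
    rw [Finset.sum_congr rfl fun k _ => e1 k, Finset.sum_congr rfl fun k _ => e2 k,
      Finset.sum_sub_distrib, ← Finset.mul_sum, ← hIdef, Finset.sum_const, Finset.card_range,
      nsmul_eq_mul]
    push_cast
    rcases hI with h | h
    · rw [h]
      have : 0 ≤ (c₁ + c₂ - 2) * s := mul_nonneg (by linarith) hs0
      linarith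
    · rw [h]
      have : (c₁ + c₂ - 1) * α ≤ (c₁ + c₂ - 1) * s :=
        mul_le_mul_of_nonneg_left he (by linarith)
      linarith
  · have e1 : ∀ k : ℕ, co (k : ℤ) c₁ c₂ ω e = s +
        (c₁ - 1) * s * (if mc e = (k : ℤ) then (1 : ℝ) else 0) +
        (c₂ - 1) * s * (if mc e - 1 = (k : ℤ) then (1 : ℝ) else 0) := by
      intro k
      unfold co
      rw [if_neg hz']
      by_cases h : mc e = (k : ℤ)
      · rw [if_pos h, if_pos h, if_neg (by omega)]
        ring
      · rw [if_neg h, if_neg h]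
        by_cases h' : mc e = (k : ℤ) + 1
        · rw [if_pos h', if_pos (by omega)]
          ring
        · rw [if_neg h', if_neg (by omega)]
          ring
    have e2 : ∀ k : ℕ, chi (k : ℤ) e = 0 := by
      intro k
      unfold chi
      rw [if_neg (fun h => hz' h.1)]
    rw [Finset.sum_congr rfl fun k _ => e1 k, Finset.sum_congr rfl fun k _ => e2 k,
      Finset.sum_add_distrib, Finset.sum_add_distrib, ← Finset.mul_sum, ← Finset.mul_sum,
      ← hIdef, ← hJdef, Finset.sum_const, Finset.card_range, nsmul_eq_mul, Finset.sum_const_zero,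
      mul_zero, sub_zero]
    push_cast
    have h3 : (c₁ - 1) * s * I ≤ (c₁ - 1) * s * 1 :=
      mul_le_mul_of_nonneg_left hI1 (mul_nonneg (by linarith) hs0)
    have h4 : (c₂ - 1) * s * J ≤ (c₂ - 1) * s * 1 :=
      mul_le_mul_of_nonneg_left hJ1 (mul_nonneg (by linarith) hs0)
    linarith

end Pool.Agent.Work.MP_9a767b_pr.H
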