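import Mathlib

/-!
# First passage percolation in all dimensions: cut and glue (definitions, FIXED)

`V d` are the vertices of the lattice of dimension `d + 2`, `ax d n` is the point `n e_1`, `pt c x y`
is the passage time between two vertices for the weights `c` (all pairs of vertices carry a weight,
only the edges of the lattice are used). `Q d ν` is the product measure, `g d ν n` the expected
passage time from `0` to `n e_1`.

For a pair `e` of vertices: `mc e` is the smaller one of the first coordinates (the column),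
`hz e` says that the first coordinates are different, `sh e` is the pair shifted by `e_1`.

`gl k c₁ c₂ ω` are the glued weights: the column of horizontal edges between the columns `k` and
`k + 1` is removed, the vertical edges of the columns `k` and `k + 1` are merged, with the weight
`min (c₁ * ω e) (c₂ * ω (sh e))`.
-/

open MeasureTheory ProbabilityTheory Filter Topology

namespace Pool.Agent.Work.MP_9a767b_pr.H

/-- The vertices of the lattice of dimension `d + 2`. -/
abbrev V (d : ℕ) : Type := Fin (d + 2) → ℤ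

/-- The lattice of dimension `d + 2`. -/
def lattice (d : ℕ) : SimpleGraph (V d) :=
  SimpleGraph.fromRel (fun x y => ∑ i, |x i - y i| = 1)

/-- The point `n e_1`. -/
def ax (d : ℕ) (n : ℤ) : V d := Pi.single 0 n

/-- The passage time between two vertices for the edge weights `c`. -/
noncomputable def pt {d : ℕ} (c : Sym2 (V d) → ℝ) (x y : V d) : ℝ :=
  ⨅ w : (lattice d).Walk x y, (w.edges.map c).sum

/-- `τ` are independent nonnegative edge weights with the law `ν` on the lattice of dimension `d + 2`,
and `a n` is the passage time from `0` to `n e_1`. -/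
structure FPP (d : ℕ) {Ω : Type} [MeasurableSpace Ω] (P : Measure Ω) (ν : Measure ℝ)
    (τ : Sym2 (Fin (d + 2) → ℤ) → Ω → ℝ) (a : ℕ → Ω → ℝ) : Prop where
  meas : ∀ e ∈ (lattice d).edgeSet, Measurable (τ e)
  indep : iIndepFun (fun e : (lattice d).edgeSet => τ e.1) P
  law : ∀ e ∈ (lattice d).edgeSet, P.map (τ e) = ν
  nonneg : ∀ e ω, 0 ≤ τ e ω
  eq : ∀ n ω, a n ω = ⨅ w : (lattice d).Walk 0 (Pi.single 0 (n : ℤ)),
    (w.edges.map (fun e => τ e ω)).sum

/-- The product measure. -/
noncomputable def Q (d : ℕ) (ν : Measure ℝ) : Measure (Sym2 (V d) → ℝ) :=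
  Measure.infinitePi (fun _ : Sym2 (V d) => ν)

/-- The expected passage time from `0` to `n e_1`. -/
noncomputable def g (d : ℕ) (ν : Measure ℝ) (n : ℕ) : ℝ := ∫ ω, pt ω 0 (ax d n) ∂(Q d ν)

/-- The column of a pair of vertices. -/
def mc {d : ℕ} (e : Sym2 (V d)) : ℤ :=
  Sym2.lift ⟨fun x y => min (x 0) (y 0), fun _ _ => min_comm _ _⟩ e

/-- The first coordinates of the two vertices are different. -/
def hz {d : ℕ} (e : Sym2 (V d)) : Prop :=
  Sym2.lift ⟨fun x y => x 0 ≠ y 0, fun _ _ => propext ⟨fun h => h.symm, fun h => h.symm⟩⟩ e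

/-- The shift of a pair of vertices by `e_1`. -/
def sh {d : ℕ} (e : Sym2 (V d)) : Sym2 (V d) := e.map (fun x => x + ax d 1)

/-- The merged vertical pairs. -/
def mg {d : ℕ} (k : ℤ) (e : Sym2 (V d)) : Prop := mc e = k ∧ ¬ hz e

open Classical in
/-- The glued weights. -/
noncomputable def gl {d : ℕ} (k : ℤ) (c₁ c₂ : ℝ) (ω : Sym2 (V d) → ℝ) : Sym2 (V d) → ℝ := fun e =>
  if mg k e then min (c₁ * ω e) (c₂ * ω (sh e)) else if mc e < k then ω e else ω (sh e)

/-- The contraction of the columns `k` and `k + 1`. -/
def ct {d : ℕ} (k : ℤ) (x : V d) : V d := if x 0 ≤ k then x else x - ax d 1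

open Classical in
/-- The cost of a step after the contraction. -/
noncomputable def co {d : ℕ} (k : ℤ) (c₁ c₂ : ℝ) (ω : Sym2 (V d) → ℝ) (e : Sym2 (V d)) : ℝ :=
  if hz e then (if mc e = k then 0 else ω e)
  else if mc e = k then c₁ * ω e else if mc e = k + 1 then c₂ * ω e else ω e

open Classical in
/-- The indicator of the horizontal pairs of the column `k`. -/
noncomputable def chi {d : ℕ} (k : ℤ) (e : Sym2 (V d)) : ℝ := if hz e ∧ mc e = k then 1 else 0

/-- The `i`-th horizontal edge to the right of `v`. -/
def ed {d : ℕ} (v : V d) (i : ℕ) : Sym2 (V d) := s(v + ax d i, v + ax d (i + 1))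

open Classical in
/-- The `l` edges of the segment from `0` to `l e_1`. -/
noncomputable def axs (d l : ℕ) : Finset (Sym2 (V d)) :=
  (Finset.range l).image (fun i => ed (0 : V d) i)

open Classical in
/-- The `l + 2` edges of the detour over the line through the unit vector number `j + 1`. -/
noncomputable def det (d l : ℕ) (j : Fin (d + 1)) : Finset (Sym2 (V d)) :=
  insert s(0, Pi.single j.succ 1) (insert s(ax d l, Pi.single j.succ 1 + ax d l)
    ((Finset.range l).image (fun i => ed (Pi.single j.succ 1 : V d) i)))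

/-- The law of the merged weights. -/
noncomputable def star (ν : Measure ℝ) (c₁ c₂ : ℝ) : Measure ℝ :=
  (ν.prod ν).map (fun p => min (c₁ * p.1) (c₂ * p.2))

open Classical in
/-- The marginal laws of the glued weights. -/
noncomputable def kap {d : ℕ} (ν : Measure ℝ) (k : ℤ) (c₁ c₂ : ℝ) (e : Sym2 (V d)) : Measure ℝ :=
  if mg k e then star ν c₁ c₂ else ν

/-- The assumptions on the law of the weights. -/
structure Adm (ν : Measure ℝ) (α c₁ c₂ : ℝ) : Prop where
  prob : IsProbabilityMeasure ν
  pos : 0 < α
  inf : ν (Set.Iio α) = 0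
  mean : Integrable (fun x : ℝ => x) ν
  one₁ : 1 ≤ c₁
  one₂ : 1 ≤ c₂
  tail : ∀ t : ℝ, ν (Set.Ioi t) ≤ ν (Set.Ioi (t / c₁)) * ν (Set.Ioi (t / c₂))

end Pool.Agent.Work.MP_9a767b_pr.H
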