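import Pool.Agent.Work.MP_9a767b_pr.H.Defs

/-!
# Dens

PURE REAL SEQUENCES. Write `u n = f (n + 1) - f n`, `lam ≥ 0`, `0 < η ≤ 1`, and assume
`μ ≤ α + η ^ 2 / (3 (lam + 1))`.

`H` divided by `n + 1`: `u n ≥ (1 + lam) α - lam * f (n + 1) / (n + 1)`, which tends to
`(1 + lam) α - lam μ ≥ μ - (1 + lam) (μ - α) ≥ μ - η ^ 2 / 3`. So there is `N₁` with
`u n ≥ μ - D`, `D = 2 η ^ 2 / 3`, for `n ≥ N₁`; as `D ≤ η` this is the first claim. There is `N₂` with
`f K ≤ (μ + η ^ 2 / 3) K` for `K ≥ N₂`. For `K, n ≥ N = max N₁ N₂`: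
`∑ j ∈ range K, u (n + j) = f (n + K) - f n ≤ f K ≤ (μ + η ^ 2 / 3) K` (`Finset.sum_range_sub`,
subadditivity), and if `b` is the number of `j < K` with `u (n + j) > μ + η`, the sum is at least
`b (μ + η) + (K - b) (μ - D) ≥ K μ + b η - K D`. So `b η ≤ K (η ^ 2 / 3 + D) = K η ^ 2`.
-/

open MeasureTheory ProbabilityTheory Filter Topology

namespace Pool.Agent.Work.MP_9a767b_pr.H

theorem dens {f : ℕ → ℝ} {α lam μ η : ℝ} (hl : 0 ≤ lam) (hη : 0 < η) (hη1 : η ≤ 1)
    (H : ∀ n : ℕ, ((n : ℝ) + 1) * f n ≤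
      ((n : ℝ) + 1 + lam) * f (n + 1) - (lam + 1) * α * ((n : ℝ) + 1))
    (hsub : ∀ m n : ℕ, f (m + n) ≤ f m + f n)
    (hμ : Tendsto (fun n : ℕ => f n / n) atTop (𝓝 μ)) (h : μ ≤ α + η ^ 2 / (3 * (lam + 1))) :
    (∀ᶠ n : ℕ in atTop, μ - η ≤ f (n + 1) - f n) ∧
      ∃ N : ℕ, ∀ K n : ℕ, N ≤ K → N ≤ n →
        (((Finset.range K).filter (fun j => μ + η < f (n + j + 1) - f (n + j))).card : ℝ) ≤
          η * K := by
  have hl1 : 0 < lam + 1 := by linarith
  have hη2 : 0 < η ^ 2 := by positivity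
  have hηη : η ^ 2 ≤ η := by nlinarith
  have hLlow : μ - η ^ 2 / 3 ≤ (lam + 1) * α - lam * μ := by
    have h1 : (lam + 1) * μ ≤ (lam + 1) * (α + η ^ 2 / (3 * (lam + 1))) :=
      mul_le_mul_of_nonneg_left h hl1.le
    have h2 : (lam + 1) * (η ^ 2 / (3 * (lam + 1))) = η ^ 2 / 3 := by
      field_simp
    rw [mul_add, h2] at h1
    linarith
  have hsh : Tendsto (fun n : ℕ => f (n + 1) / ((n : ℝ) + 1)) atTop (𝓝 μ) := by
    have h1 := (tendsto_add_atTop_iff_nat 1).2 hμ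
    refine h1.congr fun n => ?_
    push_cast
    rfl
  have hsh2 : ∀ᶠ n : ℕ in atTop, lam * (f (n + 1) / ((n : ℝ) + 1)) < lam * μ + η ^ 2 / 3 :=
    (hsh.const_mul lam).eventually_lt_const (by linarith)
  have hu : ∀ᶠ n : ℕ in atTop, μ - 2 * η ^ 2 / 3 ≤ f (n + 1) - f n := by
    filter_upwards [hsh2] with n hn
    have hn1 : (0 : ℝ) < (n : ℝ) + 1 := by positivity
    have h1 := H n
    have h2 : f n ≤ f (n + 1) + lam * (f (n + 1) / ((n : ℝ) + 1)) - (lam + 1) * α := by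
      have h3 : ((n : ℝ) + 1) * (f (n + 1) + lam * (f (n + 1) / ((n : ℝ) + 1)) - (lam + 1) * α) =
          ((n : ℝ) + 1 + lam) * f (n + 1) - (lam + 1) * α * ((n : ℝ) + 1) := by
        field_simp
      rw [← h3] at h1
      exact le_of_mul_le_mul_left h1 hn1
    linarith
  have hf2 : ∀ᶠ K : ℕ in atTop, f K / K < μ + η ^ 2 / 3 :=
    hμ.eventually_lt_const (by linarith)
  constructor
  · filter_upwards [hu] with n hn
    linarith
  · obtain ⟨N₁, hN₁⟩ := eventually_atTop.1 hu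
    obtain ⟨N₂, hN₂⟩ := eventually_atTop.1 hf2
    refine ⟨max N₁ N₂, fun K n hK hn => ?_⟩
    obtain ⟨b, hb⟩ : ∃ b : ℕ, b =
      ((Finset.range K).filter (fun j => μ + η < f (n + j + 1) - f (n + j))).card := ⟨_, rfl⟩
    rw [← hb]
    rcases Nat.eq_zero_or_pos K with hK0 | hK0
    · subst hK0
      have : b = 0 := by
        rw [hb]
        simp
      rw [this]
      simp
    have hKr : (0 : ℝ) < K := by exact_mod_cast hK0
    have hfK : f K ≤ (μ + η ^ 2 / 3) * K := by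
      have h1 := hN₂ K ((le_max_right _ _).trans hK)
      rw [div_lt_iff₀ hKr] at h1
      exact h1.le
    have hsum : ∑ j ∈ Finset.range K, (f (n + j + 1) - f (n + j)) = f (n + K) - f n := by
      have h1 := Finset.sum_range_sub (fun j => f (n + j)) K
      exact h1
    have hlow : ∑ j ∈ Finset.range K, ((μ - 2 * η ^ 2 / 3) +
        (if μ + η < f (n + j + 1) - f (n + j) then (η + 2 * η ^ 2 / 3) else 0)) ≤
        ∑ j ∈ Finset.range K, (f (n + j + 1) - f (n + j)) := by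
      refine Finset.sum_le_sum fun j _ => ?_
      split_ifs with hj
      · linarith
      · have h1 := hN₁ (n + j) (by
          have := le_max_left N₁ N₂
          omega)
        linarith
    rw [Finset.sum_add_distrib, Finset.sum_const, ← Finset.sum_filter, Finset.sum_const, ← hb,
      Finset.card_range, nsmul_eq_mul, nsmul_eq_mul, hsum] at hlow
    have h2 := hsub n K
    have h3 : (b : ℝ) * (η + 2 * η ^ 2 / 3) ≤ K * η ^ 2 := by nlinarith
    have h4 : (b : ℝ) * η ≤ K * η ^ 2 := by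
      have h5 : (0 : ℝ) ≤ (b : ℝ) * (2 * η ^ 2 / 3) := by positivity
      nlinarith
    have h6 : (b : ℝ) * η ≤ (η * K) * η := by nlinarith
    exact le_of_mul_le_mul_right h6 hη

end Pool.Agent.Work.MP_9a767b_pr.H
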