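import Pool.Agent.Work.MP_9a767b_pr.H.Metric

/-!
# DetG

The geometry of the detours. `axs d l` are the `l` edges `ed 0 i = s(ax d i, ax d (i + 1))`, `i < l`, and
`det d l j` the `l + 2` edges of the path `0 → u → u + e_1 → … → u + l e_1 → l e_1`,
`u = Pi.single j.succ 1`.

* `ed_inj`: the two end points of `ed v i` have first coordinates `v 0 + i` and `v 0 + i + 1`, so
  `mc (ed v i) = v 0 + i`, and `hz (ed v i)`.
* `card_axs`, `card_det`: `Finset.card_image_of_injective`, `Finset.card_insert_of_notMem`; the pair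
  `s(0, u)` is not horizontal (both first coordinates `0`), the pair `s(l e_1, u + l e_1)` has both first
  coordinates `l`; the two are different as `l ≥ 1` (look at `mc`).
* disjointness: a pair of `axs` has both end points on the axis (all the coordinates except number `0`
  vanish); each pair of `det d l j` has an end point whose coordinate `j.succ` is `1` and whose other
  coordinates except number `0` vanish. So for `i ≠ j` no pair is in both `det d l i` and
  `det d l j` (a pair of `det d l i` has no end point with a nonzero coordinate number `j.succ`).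
* `pt_axis`: induction on `l` with `pt_triangle`, `pt_adj`, `adj_ax`
  (`Finset.sum_image` with the injectivity), or `pt` along the walk.
* `pt_detour`: `pt_triangle` three times: `0 → u`, `u → u + l e_1` (as in `pt_axis`),
  `u + l e_1 → l e_1` (`pt_comm`, `Sym2.eq_swap`, `adj_single`); `Finset.sum_insert` twice.
-/

open MeasureTheory ProbabilityTheory Filter Topology

namespace Pool.Agent.Work.MP_9a767b_pr.H

private theorem detG_ax0 {d : ℕ} (n : ℤ) : ax d n 0 = n := by
  unfold ax
  rw [Pi.single_eq_same]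

private theorem detG_axs {d : ℕ} (n : ℤ) (j : Fin (d + 1)) : ax d n j.succ = 0 := by
  unfold ax
  rw [Pi.single_eq_of_ne (Fin.succ_ne_zero j)]

private theorem detG_u0 {d : ℕ} (j : Fin (d + 1)) :
    (Pi.single j.succ 1 : V d) 0 = 0 := by
  rw [Pi.single_eq_of_ne (Fin.succ_ne_zero j).symm]

private theorem detG_uj {d : ℕ} (j : Fin (d + 1)) :
    (Pi.single j.succ 1 : V d) j.succ = 1 := by
  rw [Pi.single_eq_same]

private theorem detG_ui {d : ℕ} {i j : Fin (d + 1)} (h : i ≠ j) :
    (Pi.single i.succ 1 : V d) j.succ = 0 := by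
  rw [Pi.single_eq_of_ne]
  intro h1
  exact h (Fin.succ_injective _ h1).symm

private theorem detG_mc {d : ℕ} (v : V d) (i : ℕ) : mc (ed v i) = v 0 + i := by
  show min ((v + ax d i) 0) ((v + ax d (i + 1)) 0) = v 0 + i
  rw [Pi.add_apply, Pi.add_apply, detG_ax0, detG_ax0, min_eq_left (by omega)]

private theorem detG_hz {d : ℕ} (v : V d) (i : ℕ) : hz (ed v i) := by
  show (v + ax d i) 0 ≠ (v + ax d (i + 1)) 0
  rw [Pi.add_apply, Pi.add_apply, detG_ax0, detG_ax0]
  omega

private theorem detG_inj {d : ℕ} (v : V d) : Function.Injective (fun i : ℕ => ed v i) := by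
  intro i j h
  have h1 : mc (ed v i) = mc (ed v j) := congrArg mc h
  rw [detG_mc, detG_mc] at h1
  omega

theorem card_axs (d l : ℕ) : (axs d l).card = l := by
  unfold axs
  rw [Finset.card_image_of_injective _ (detG_inj _), Finset.card_range]

private theorem detG_n1 {d : ℕ} (j : Fin (d + 1)) :
    ¬ hz (s(0, Pi.single j.succ 1) : Sym2 (V d)) := by
  show ¬ ((0 : V d) 0 ≠ (Pi.single j.succ 1 : V d) 0)
  rw [detG_u0]
  simp

private theorem detG_n2 {d : ℕ} (l : ℤ) (j : Fin (d + 1)) :
    ¬ hz (s(ax d l, Pi.single j.succ 1 + ax d l) : Sym2 (V d)) := by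
  show ¬ (ax d l 0 ≠ (Pi.single j.succ 1 + ax d l : V d) 0)
  rw [Pi.add_apply, detG_u0]
  simp

private theorem detG_m1 {d : ℕ} (l : ℕ) (j : Fin (d + 1)) :
    (s(ax d l, Pi.single j.succ 1 + ax d l) : Sym2 (V d)) ∉
      (Finset.range l).image (fun i => ed (Pi.single j.succ 1 : V d) i) := by
  classical
  intro h
  obtain ⟨i, -, hi⟩ := Finset.mem_image.1 h
  apply detG_n2 (l : ℤ) j
  rw [← hi]
  exact detG_hz _ i

private theorem detG_m2 {d : ℕ} (l : ℕ) (hl : 1 ≤ l) (j : Fin (d + 1)) :
    (s(0, Pi.single j.succ 1) : Sym2 (V d)) ∉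
      insert s(ax d l, Pi.single j.succ 1 + ax d l)
        ((Finset.range l).image (fun i => ed (Pi.single j.succ 1 : V d) i)) := by
  classical
  intro h
  rcases Finset.mem_insert.1 h with h | h
  · have h1 := congrArg mc h
    have h2 : mc (s(0, Pi.single j.succ 1) : Sym2 (V d)) = 0 := by
      show min ((0 : V d) 0) ((Pi.single j.succ 1 : V d) 0) = 0
      rw [detG_u0]
      simp
    have h3 : mc (s(ax d l, Pi.single j.succ 1 + ax d l) : Sym2 (V d)) = l := by
      show min (ax d l 0) ((Pi.single j.succ 1 + ax d l : V d) 0) = l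
      rw [Pi.add_apply, detG_u0, detG_ax0]
      simp
    rw [h2, h3] at h1
    omega
  · obtain ⟨i, -, hi⟩ := Finset.mem_image.1 h
    apply detG_n1 j
    rw [← hi]
    exact detG_hz _ i

theorem card_det (d l : ℕ) (hl : 1 ≤ l) (j : Fin (d + 1)) : (det d l j).card = l + 2 := by
  classical
  unfold det
  rw [Finset.card_insert_of_notMem (detG_m2 l hl j), Finset.card_insert_of_notMem (detG_m1 l j),
    Finset.card_image_of_injective _ (detG_inj _), Finset.card_range]

/-- every detour pair has an end point in the layer `1` -/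
private theorem detG_top {d l : ℕ} {j : Fin (d + 1)} {e : Sym2 (V d)} (he : e ∈ det d l j) :
    ∃ x ∈ e, x j.succ = 1 := by
  classical
  unfold det at he
  rcases Finset.mem_insert.1 he with rfl | he
  · exact ⟨_, Sym2.mem_mk_right _ _, detG_uj j⟩
  · rcases Finset.mem_insert.1 he with rfl | he
    · refine ⟨_, Sym2.mem_mk_right _ _, ?_⟩
      rw [Pi.add_apply, detG_uj, detG_axs, add_zero]
    · obtain ⟨i, -, rfl⟩ := Finset.mem_image.1 he
      refine ⟨_, Sym2.mem_mk_left _ _, ?_⟩
      rw [Pi.add_apply, detG_uj, detG_axs, add_zero]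

private theorem detG_low {d l : ℕ} {i j : Fin (d + 1)} (hij : i ≠ j) {e : Sym2 (V d)}
    (he : e ∈ det d l i) (x : V d) (hx : x ∈ e) : x j.succ = 0 := by
  classical
  unfold det at he
  rcases Finset.mem_insert.1 he with rfl | he
  · rcases Sym2.mem_iff.1 hx with rfl | rfl
    · rfl
    · exact detG_ui hij
  · rcases Finset.mem_insert.1 he with rfl | he
    · rcases Sym2.mem_iff.1 hx with rfl | rfl
      · exact detG_axs _ j
      · rw [Pi.add_apply, detG_ui hij, detG_axs, add_zero]
    · obtain ⟨m, -, rfl⟩ := Finset.mem_image.1 he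
      rcases Sym2.mem_iff.1 hx with rfl | rfl
      · rw [Pi.add_apply, detG_ui hij, detG_axs, add_zero]
      · rw [Pi.add_apply, detG_ui hij, detG_axs, add_zero]

theorem disj_axs (d l : ℕ) (j : Fin (d + 1)) : Disjoint (axs d l) (det d l j) := by
  classical
  rw [Finset.disjoint_left]
  intro e he he'
  obtain ⟨x, hx, hx1⟩ := detG_top he'
  unfold axs at he
  obtain ⟨i, -, rfl⟩ := Finset.mem_image.1 he
  have h0 : x j.succ = 0 := by
    rcases Sym2.mem_iff.1 hx with rfl | rfl
    · rw [Pi.add_apply, detG_axs, add_zero]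
      rfl
    · rw [Pi.add_apply, detG_axs, add_zero]
      rfl
  omega

theorem disj_det (d l : ℕ) : Pairwise (fun i j => Disjoint (det d l i) (det d l j)) := by
  intro i j hij
  rw [Finset.disjoint_left]
  intro e he he'
  obtain ⟨x, hx, hx1⟩ := detG_top he'
  have h0 := detG_low hij he x hx
  omega

private theorem detG_path {d : ℕ} (v : V d) {ω : Sym2 (V d) → ℝ} (hω : ∀ e, 0 ≤ ω e) (l : ℕ) :
    pt ω v (v + ax d l) ≤ ∑ i ∈ Finset.range l, ω (ed v i) := by
  induction l with
  | zero =>
    have h1 : v + ax d ((0 : ℕ) : ℤ) = v := by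
      unfold ax
      rw [Nat.cast_zero, Pi.single_zero, add_zero]
    rw [h1, pt_self hω, Finset.sum_range_zero]
  | succ l ih =>
    have h1 : v + ax d ((l + 1 : ℕ) : ℤ) = v + ax d l + ax d 1 := by
      rw [add_assoc]
      congr 1
      unfold ax
      rw [← Pi.single_add]
      push_cast
      rfl
    have h2 : ed v l = s(v + ax d l, v + ax d l + ax d 1) := by
      unfold ed
      rw [← h1]
      push_cast
      rfl
    have h3 := pt_triangle hω v (v + ax d l) (v + ax d l + ax d 1)
    have h4 := pt_adj hω (adj_ax (v + ax d l))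
    rw [Finset.sum_range_succ, h1, h2]
    linarith

theorem pt_axis {d : ℕ} (l : ℕ) {ω : Sym2 (V d) → ℝ} (hω : ∀ e, 0 ≤ ω e) :
    pt ω 0 (ax d l) ≤ ∑ e ∈ axs d l, ω e := by
  classical
  unfold axs
  rw [Finset.sum_image (fun i _ j _ h => detG_inj _ h)]
  have h1 := detG_path 0 hω l
  rw [zero_add] at h1
  exact h1

theorem pt_detour {d : ℕ} (l : ℕ) (hl : 1 ≤ l) {ω : Sym2 (V d) → ℝ} (hω : ∀ e, 0 ≤ ω e)
    (j : Fin (d + 1)) : pt ω 0 (ax d l) ≤ ∑ e ∈ det d l j, ω e := by
  classical
  unfold det
  rw [Finset.sum_insert (detG_m2 l hl j), Finset.sum_insert (detG_m1 l j),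
    Finset.sum_image (fun i _ j _ h => detG_inj _ h)]
  have h1 := detG_path (Pi.single j.succ 1 : V d) hω l
  have h2 := pt_triangle hω 0 (Pi.single j.succ 1 : V d) (ax d l)
  have h3 := pt_triangle hω (Pi.single j.succ 1 : V d) (Pi.single j.succ 1 + ax d l) (ax d l)
  have h4 : pt ω 0 (Pi.single j.succ 1 : V d) ≤ ω s(0, Pi.single j.succ 1) := by
    have h5 := adj_single (0 : V d) j.succ
    rw [zero_add] at h5
    exact pt_adj hω h5
  have h6 : pt ω (Pi.single j.succ 1 + ax d l : V d) (ax d l) ≤
      ω s(ax d l, Pi.single j.succ 1 + ax d l) := by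
    rw [pt_comm]
    have h5 := adj_single (ax d l) j.succ
    rw [add_comm] at h5
    exact pt_adj hω h5
  linarith

end Pool.Agent.Work.MP_9a767b_pr.H
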