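import Pool.Agent.Work.MP_9a767b_pr.H.Defs

/-!
# Quant

Two quantile functions. `U` is Lebesgue measure on `(0, 1)`. For a probability measure `ρ` on `ℝ` put
`q u = sInf {t | u ≤ (ρ (Iic t)).toReal}` for `0 < u < 1` and `q u = 0` otherwise. For `0 < u < 1` the set
is nonempty, bounded below and closed under limits from the right, so `q u ≤ t ↔ u ≤ (ρ (Iic t)).toReal`
(`cdf`: `ProbabilityTheory.cdf`, `tendsto_cdf_atTop`, `tendsto_cdf_atBot`, right continuity of the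
Stieltjes function). So `q` is measurable (`{u | q u ≤ t}` differs from an interval only outside
`(0, 1)`; `measurable_of_Iic`), and the law of `q` gives mass
`volume (Ioo 0 1 ∩ {u | u ≤ F t}) = F t` to `Iic t`, so it is `ρ` (`Measure.ext_of_Iic`).
If `ν (Ioi t) ≤ κ (Ioi t)` for all `t` then `κ (Iic t) ≤ ν (Iic t)`, so the set for `κ` is contained in
the set for `ν` and the infimum for `ν` is at most the infimum for `κ` (`csInf_le_csInf`).
-/

open MeasureTheory ProbabilityTheory Filter Topology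

namespace Pool.Agent.Work.MP_9a767b_pr.H

/-- The quantile function of a probability measure. -/
private noncomputable def qf (ρ : Measure ℝ) (u : ℝ) : ℝ :=
  open Classical in if u ∈ Set.Ioo (0 : ℝ) 1 then sInf {t : ℝ | u ≤ cdf ρ t} else 0

private theorem qf_le_iff (ρ : Measure ℝ) [IsProbabilityMeasure ρ] {u : ℝ}
    (hu : u ∈ Set.Ioo (0 : ℝ) 1) (t : ℝ) : qf ρ u ≤ t ↔ u ≤ cdf ρ t := by
  have hne : {t : ℝ | u ≤ cdf ρ t}.Nonempty := by
    have h1 := (tendsto_cdf_atTop ρ).eventually (lt_mem_nhds hu.2)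
    obtain ⟨t, ht⟩ := h1.exists
    exact ⟨t, ht.le⟩
  have hbd : BddBelow {t : ℝ | u ≤ cdf ρ t} := by
    have h1 := (tendsto_cdf_atBot ρ).eventually (gt_mem_nhds hu.1)
    obtain ⟨t0, ht0⟩ := h1.exists
    refine ⟨t0, fun t ht => ?_⟩
    by_contra hc
    push Not at hc
    have := monotone_cdf ρ hc.le
    have ht' : u ≤ cdf ρ t := ht
    linarith
  have hq : qf ρ u = sInf {t : ℝ | u ≤ cdf ρ t} := by
    unfold qf
    rw [if_pos hu]
  rw [hq]
  constructor
  · intro h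
    have hmem : u ≤ cdf ρ (sInf {t : ℝ | u ≤ cdf ρ t}) := by
      have hcont := (cdf ρ).right_continuous (sInf {t : ℝ | u ≤ cdf ρ t})
      have ht : Tendsto (cdf ρ) (𝓝[>] (sInf {t : ℝ | u ≤ cdf ρ t}))
          (𝓝 (cdf ρ (sInf {t : ℝ | u ≤ cdf ρ t}))) :=
        hcont.tendsto.mono_left (nhdsWithin_mono _ Set.Ioi_subset_Ici_self)
      refine ge_of_tendsto ht ?_
      filter_upwards [self_mem_nhdsWithin] with x hx
      obtain ⟨s, hs, hsx⟩ := exists_lt_of_csInf_lt hne hx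
      exact le_trans hs (monotone_cdf ρ hsx.le)
    exact hmem.trans (monotone_cdf ρ h)
  · intro h
    exact csInf_le hbd h

private theorem qf_meas (ρ : Measure ℝ) [IsProbabilityMeasure ρ] : Measurable (qf ρ) := by
  refine measurable_of_Iic fun t => ?_
  have hset : qf ρ ⁻¹' Set.Iic t = (Set.Ioo (0 : ℝ) 1 ∩ Set.Iic (cdf ρ t)) ∪
      ((Set.Ioo (0 : ℝ) 1)ᶜ ∩ {_u : ℝ | 0 ≤ t}) := by
    ext u
    simp only [Set.mem_preimage, Set.mem_Iic, Set.mem_union, Set.mem_inter_iff, Set.mem_compl_iff,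
      Set.mem_setOf_eq]
    by_cases hu : u ∈ Set.Ioo (0 : ℝ) 1
    · rw [qf_le_iff ρ hu]
      tauto
    · have hq : qf ρ u = 0 := by
        unfold qf
        rw [if_neg hu]
      rw [hq]
      tauto
  rw [hset]
  exact (measurableSet_Ioo.inter measurableSet_Iic).union
    (measurableSet_Ioo.compl.inter (MeasurableSet.const _))

private theorem qf_map (ρ : Measure ℝ) [IsProbabilityMeasure ρ] :
    (volume.restrict (Set.Ioo (0 : ℝ) 1)).map (qf ρ) = ρ := by
  have hfin : IsFiniteMeasure ((volume.restrict (Set.Ioo (0 : ℝ) 1)).map (qf ρ)) := by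
    infer_instance
  refine Measure.ext_of_Iic _ _ fun t => ?_
  rw [Measure.map_apply (qf_meas ρ) measurableSet_Iic,
    Measure.restrict_apply (qf_meas ρ measurableSet_Iic)]
  have hset : qf ρ ⁻¹' Set.Iic t ∩ Set.Ioo (0 : ℝ) 1 = Set.Ioo (0 : ℝ) 1 ∩ Set.Iic (cdf ρ t) := by
    ext u
    simp only [Set.mem_preimage, Set.mem_Iic, Set.mem_inter_iff]
    constructor
    · rintro ⟨h1, h2⟩
      exact ⟨h2, (qf_le_iff ρ h2 t).1 h1⟩
    · rintro ⟨h1, h2⟩
      exact ⟨(qf_le_iff ρ h1 t).2 h2, h1⟩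
  rw [hset, ← ofReal_cdf]
  have h0 := cdf_nonneg ρ t
  have h1 := cdf_le_one ρ t
  rcases lt_or_eq_of_le h1 with h | h
  · have : Set.Ioo (0 : ℝ) 1 ∩ Set.Iic (cdf ρ t) = Set.Ioc 0 (cdf ρ t) := by
      ext u
      simp only [Set.mem_inter_iff, Set.mem_Ioo, Set.mem_Iic, Set.mem_Ioc]
      constructor
      · rintro ⟨⟨a, _⟩, b⟩
        exact ⟨a, b⟩
      · rintro ⟨a, b⟩
        exact ⟨⟨a, by linarith⟩, b⟩
    rw [this, Real.volume_Ioc, sub_zero]
  · have : Set.Ioo (0 : ℝ) 1 ∩ Set.Iic (cdf ρ t) = Set.Ioo 0 1 := by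
      ext u
      simp only [Set.mem_inter_iff, Set.mem_Ioo, Set.mem_Iic]
      constructor
      · rintro ⟨a, _⟩
        exact a
      · rintro ⟨a, b⟩
        exact ⟨⟨a, b⟩, by linarith⟩
    rw [this, Real.volume_Ioo, sub_zero, h]

theorem quant_pair (ν κ : Measure ℝ) [IsProbabilityMeasure ν] [IsProbabilityMeasure κ]
    (h : ∀ t : ℝ, ν (Set.Ioi t) ≤ κ (Set.Ioi t)) :
    ∃ q q' : ℝ → ℝ, Measurable q ∧ Measurable q' ∧
      (volume.restrict (Set.Ioo (0 : ℝ) 1)).map q = ν ∧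
      (volume.restrict (Set.Ioo (0 : ℝ) 1)).map q' = κ ∧ ∀ u, q u ≤ q' u := by
  refine ⟨qf ν, qf κ, qf_meas ν, qf_meas κ, qf_map ν, qf_map κ, fun u => ?_⟩
  by_cases hu : u ∈ Set.Ioo (0 : ℝ) 1
  · rw [qf_le_iff ν hu]
    have h1 : u ≤ cdf κ (qf κ u) := (qf_le_iff κ hu _).1 le_rfl
    refine h1.trans ?_
    have h2 := h (qf κ u)
    rw [← Set.compl_Iic, prob_compl_eq_one_sub measurableSet_Iic,
      prob_compl_eq_one_sub measurableSet_Iic] at h2
    have h3 : κ (Set.Iic (qf κ u)) ≤ ν (Set.Iic (qf κ u)) := by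
      have ha : ν (Set.Iic (qf κ u)) ≤ 1 := prob_le_one
      have hb : κ (Set.Iic (qf κ u)) ≤ 1 := prob_le_one
      exact (ENNReal.sub_le_sub_iff_left hb ENNReal.one_ne_top).1 h2
    rw [← ofReal_cdf, ← ofReal_cdf] at h3
    exact (ENNReal.ofReal_le_ofReal_iff (cdf_nonneg ν _)).1 h3
  · have e1 : qf ν u = 0 := by
      unfold qf
      rw [if_neg hu]
    have e2 : qf κ u = 0 := by
      unfold qf
      rw [if_neg hu]
    rw [e1, e2]

end Pool.Agent.Work.MP_9a767b_pr.H
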