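import Pool.Agent.Work.MP_9a767b_pr.H.Int
import Pool.Agent.Work.MP_9a767b_pr.H.Quant

/-!
# Dom

Monotonicity of the expected passage time in the laws. Choose the quantile functions `q e`, `q' e` of
`quant_pair (κ e) (κ' e)` for every `e`. With `U = infinitePi (fun _ => volume.restrict (Ioo 0 1))` (a
probability measure), `infinitePi κ = U.map (fun u e => q e (u e))` and
`infinitePi κ' = U.map (fun u e => q' e (u e))` (`Measure.infinitePi_map_pi`). `integral_map`, and for
almost every `u` all the `q e (u e)` are nonnegative (`ae_ge` for `κ`, pulled back by the map: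
`ae_of_ae_map`), so `pt_mono` gives the pointwise inequality. Integrability: `integrable_pt` and
`Integrable.comp_measurable` (or `integrable_map_measure`). `integral_mono_ae`.
-/

open MeasureTheory ProbabilityTheory Filter Topology

namespace Pool.Agent.Work.MP_9a767b_pr.H

theorem dom {d : ℕ} (κ κ' : Sym2 (V d) → Measure ℝ) [∀ e, IsProbabilityMeasure (κ e)]
    [∀ e, IsProbabilityMeasure (κ' e)] (h0 : ∀ e, κ e (Set.Iio 0) = 0)
    (h0' : ∀ e, κ' e (Set.Iio 0) = 0) (hi : ∀ e, Integrable (fun x : ℝ => x) (κ e))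
    (hi' : ∀ e, Integrable (fun x : ℝ => x) (κ' e))
    (h : ∀ e, ∀ t : ℝ, κ e (Set.Ioi t) ≤ κ' e (Set.Ioi t)) (x y : V d) :
    ∫ ω, pt ω x y ∂(Measure.infinitePi κ) ≤ ∫ ω, pt ω x y ∂(Measure.infinitePi κ') := by
  choose q q' hq hq' hqm hqm' hqq using fun e => quant_pair (κ e) (κ' e) (h e)
  have hprob : IsProbabilityMeasure ((volume : Measure ℝ).restrict (Set.Ioo (0 : ℝ) 1)) :=
    ⟨by rw [Measure.restrict_apply_univ]; simp⟩
  have hm : Measurable (fun (u : Sym2 (V d) → ℝ) e => q e (u e)) :=
    measurable_pi_lambda _ fun e => (hq e).comp (measurable_pi_apply e)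
  have hm' : Measurable (fun (u : Sym2 (V d) → ℝ) e => q' e (u e)) :=
    measurable_pi_lambda _ fun e => (hq' e).comp (measurable_pi_apply e)
  have hκ : (Measure.infinitePi (fun _ : Sym2 (V d) =>
      (volume : Measure ℝ).restrict (Set.Ioo (0 : ℝ) 1))).map (fun u e => q e (u e)) =
      Measure.infinitePi κ := by
    rw [Measure.infinitePi_map_pi (fun _ => (volume : Measure ℝ).restrict (Set.Ioo (0 : ℝ) 1)) hq]
    exact congrArg Measure.infinitePi (funext hqm)
  have hκ' : (Measure.infinitePi (fun _ : Sym2 (V d) =>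
      (volume : Measure ℝ).restrict (Set.Ioo (0 : ℝ) 1))).map (fun u e => q' e (u e)) =
      Measure.infinitePi κ' := by
    rw [Measure.infinitePi_map_pi (fun _ => (volume : Measure ℝ).restrict (Set.Ioo (0 : ℝ) 1)) hq']
    exact congrArg Measure.infinitePi (funext hqm')
  have i1 := integrable_pt κ h0 hi x y
  have i2 := integrable_pt κ' h0' hi' x y
  have h1 := ae_ge κ h0
  rw [← hκ] at i1 h1
  rw [← hκ'] at i2
  rw [← hκ, ← hκ', integral_map hm.aemeasurable (measurable_pt x y).aestronglyMeasurable,
    integral_map hm'.aemeasurable (measurable_pt x y).aestronglyMeasurable]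
  refine integral_mono_ae (i1.comp_measurable hm) (i2.comp_measurable hm') ?_
  filter_upwards [ae_of_ae_map hm.aemeasurable h1] with u hu
  exact pt_mono hu (fun e => hqq e (u e)) x y

end Pool.Agent.Work.MP_9a767b_pr.H
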