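import Pool.Agent.Work.MP_9a767b_pr.H.Defs

/-!
# Examples

Two classes of laws.

* `adm_bounded` (support in `[α, β]`, `c₁ = β / α`, `c₂ = 1`): for `t < β` we have
  `t / (β / α) = t α / β < α`, so `ν (Ioi (t / c₁)) = 1` (the complement is contained in `Iio α`) and
  `t / 1 = t`; for `t ≥ β` the left side is `0`. The identity is integrable as `ν` lives on `[α, β]`
  (`Integrable.of_mem_Icc` or `Integrable.mono'` with the constant `β`).
* `adm_nbu` (`c₁ = c₂ = 2`): for `t ≥ 0`: `ν (Ioi t) = ν (Ioi (t / 2 + t / 2)) ≤ ν (Ioi (t / 2)) ^ 2`;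
  for `t < 0`: `ν (Ioi (t / 2)) = 1`, since `t / 2 < α`.
-/

open MeasureTheory ProbabilityTheory Filter Topology

namespace Pool.Agent.Work.MP_9a767b_pr.H

private theorem ioi_one (ν : Measure ℝ) [IsProbabilityMeasure ν] {α s : ℝ}
    (h : ν (Set.Iio α) = 0) (hs : s < α) : ν (Set.Ioi s) = 1 := by
  have h1 : ν (Set.Ioi s)ᶜ = 0 := by
    refine measure_mono_null (fun x hx => ?_) h
    rw [Set.mem_compl_iff, Set.mem_Ioi, not_lt] at hx
    exact lt_of_le_of_lt hx hs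
  exact (prob_compl_eq_zero_iff measurableSet_Ioi).1 h1

theorem adm_bounded (ν : Measure ℝ) [IsProbabilityMeasure ν] {α β : ℝ} (hα : 0 < α) (hαβ : α ≤ β)
    (h : ν (Set.Iio α) = 0) (h' : ν (Set.Ioi β) = 0) : Adm ν α (β / α) 1 := by
  have hβ : 0 < β := lt_of_lt_of_le hα hαβ
  refine ⟨inferInstance, hα, h, ?_, (one_le_div hα).2 hαβ, le_rfl, fun t => ?_⟩
  · have h1 : ∀ᵐ x ∂ν, x ∈ Set.Icc α β := by
      have e1 : ∀ᵐ x ∂ν, ¬ x ∈ Set.Iio α := measure_eq_zero_iff_ae_notMem.1 h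
      have e2 : ∀ᵐ x ∂ν, ¬ x ∈ Set.Ioi β := measure_eq_zero_iff_ae_notMem.1 h'
      filter_upwards [e1, e2] with x h1 h2
      exact ⟨not_lt.1 h1, not_lt.1 h2⟩
    exact Integrable.of_mem_Icc α β aemeasurable_id h1
  · rw [div_one]
    rcases lt_or_ge t β with ht | ht
    · have h2 : t / (β / α) < α := by
        rw [div_lt_iff₀ (div_pos hβ hα)]
        have : α * (β / α) = β := by field_simp
        rw [this]
        exact ht
      rw [ioi_one ν h h2, one_mul]
    · have h3 : ν (Set.Ioi t) = 0 := measure_mono_null (Set.Ioi_subset_Ioi ht) h'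
      rw [h3]
      exact bot_le

theorem adm_nbu (ν : Measure ℝ) [IsProbabilityMeasure ν] {α : ℝ} (hα : 0 < α)
    (h : ν (Set.Iio α) = 0) (hi : Integrable (fun x : ℝ => x) ν)
    (hn : ∀ s t : ℝ, 0 ≤ s → 0 ≤ t → ν (Set.Ioi (s + t)) ≤ ν (Set.Ioi s) * ν (Set.Ioi t)) :
    Adm ν α 2 2 := by
  refine ⟨inferInstance, hα, h, hi, one_le_two, one_le_two, fun t => ?_⟩
  rcases le_or_gt 0 t with ht | ht
  · have h1 := hn (t / 2) (t / 2) (by linarith) (by linarith)
    rwa [add_halves] at h1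
  · rw [ioi_one ν h (by linarith : t / 2 < α), one_mul]
    exact prob_le_one

end Pool.Agent.Work.MP_9a767b_pr.H
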