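import Pool.Agent.Work.MP_9a767b_pr.H.FDefs
import Pool.Agent.Work.MP_9a767b_pr.H.ChiWalk

/-!
# FChi

Every walk from `0` to `(n + K) e_1` uses a horizontal edge in each of the `K` slots `k, …, k + K - 1`,
`k ≤ n`: `chK k K e = ∑ i ∈ range K, chi (k + i) e` (exactly one or no `i` fits), and
`chi_walk (n + K - 1) (k + i)` for each `i < K` (with `n + K = (n + K - 1) + 1`, as `K ≥ 1`; generalize the
endpoint or `subst`). Exchange the sum over `i` with the list sum (induction on the list).
-/

open MeasureTheory ProbabilityTheory Filter Topology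

namespace Pool.Agent.Work.MP_9a767b_pr.H

private theorem fChi_sum {d : ℕ} (k : ℤ) (K : ℕ) (e : Sym2 (V d)) :
    chK k K e = ∑ i ∈ Finset.range K, chi (k + i) e := by
  classical
  induction K with
  | zero =>
    unfold chK
    rw [Finset.sum_range_zero, if_neg]
    rintro ⟨_, h1, h2⟩
    push_cast at h2
    omega
  | succ K ih =>
    rw [Finset.sum_range_succ, ← ih]
    unfold chK chi
    by_cases hz0 : hz e
    · simp only [hz0, true_and]
      split_ifs <;> first | (exfalso; push_cast at *; omega) | norm_num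
    · simp only [hz0, false_and, if_false, add_zero]

private theorem fChi_list {d : ℕ} (k : ℤ) (K : ℕ) (l : List (Sym2 (V d))) :
    (l.map (chK k K)).sum = ∑ i ∈ Finset.range K, (l.map (chi (k + (i : ℤ)))).sum := by
  induction l with
  | nil => simp
  | cons e l ih =>
    simp only [List.map_cons, List.sum_cons]
    rw [Finset.sum_add_distrib, ← ih, fChi_sum]

theorem fchi_walk {d : ℕ} (n K k : ℕ) (hK : 1 ≤ K) (hk : k ≤ n)
    (w : (lattice d).Walk 0 (ax d ((n + K : ℕ) : ℤ))) :
    (K : ℝ) ≤ (w.edges.map (chK (k : ℤ) K)).sum := by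
  obtain ⟨K', rfl⟩ : ∃ K', K = K' + 1 := ⟨K - 1, by omega⟩
  rw [fChi_list]
  have h1 : ∀ i ∈ Finset.range (K' + 1),
      (1 : ℝ) ≤ (w.edges.map (chi ((k : ℤ) + (i : ℤ)))).sum := by
    intro i hi
    have hi' := Finset.mem_range.1 hi
    have h2 := chi_walk (n + K') (k + i) (by omega) w
    push_cast at h2
    exact h2
  have h3 := Finset.card_nsmul_le_sum _ _ _ h1
  rw [Finset.card_range, nsmul_eq_mul, mul_one] at h3
  exact h3

end Pool.Agent.Work.MP_9a767b_pr.H
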