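import Pool.Agent.Work.MP_9a767b_pr.H.FDefs

/-!
# FCoSum

The sum over the positions `k = 0, …, n` of the expected cost of one pair `e` (compare `CoSum.lean`,
proved). Put `j = mc e`, `s = ω e ≥ α`, `lam = (K + 1) (m - α) / α`, `K ≥ 1`, `0 < α ≤ m`.

* `e` vertical: `coK = s + (m - s) [k ≤ j ≤ k + K]`, the number `c` of `k` in `range (n + 1)` with
  `j - K ≤ k ≤ j` is at most `K + 1` (they lie in `Finset.Icc (j - K) j`), and
  `c (m - s) ≤ c (m - α) ≤ (K + 1) (m - α) = lam α ≤ lam s`. `chK = 0`.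
* `e` horizontal: `coK = s - s [k ≤ j < k + K]`, the number `b` of such `k` is at most `K`, the sum of
  `chK` is `b`, and the claim is `(n + 1) s - b s ≤ (n + 1 + lam) s - (1 + lam / K) α b`, i.e.
  `(1 + lam / K) α b ≤ (lam + b) s`; as `s ≥ α` it is enough that `b + lam b / K ≤ lam + b`, i.e. `b ≤ K`.
-/

open MeasureTheory ProbabilityTheory Filter Topology

namespace Pool.Agent.Work.MP_9a767b_pr.H

private theorem fc_cnt (n L : ℕ) (lo hi : ℤ) (h : hi + 1 - lo ≤ L) :
    ∑ k ∈ Finset.range (n + 1), (if lo ≤ (k : ℤ) ∧ (k : ℤ) ≤ hi then (1 : ℝ) else 0) ≤ L := by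
  rw [Finset.sum_boole]
  have h1 : ((Finset.range (n + 1)).filter fun k : ℕ => lo ≤ (k : ℤ) ∧ (k : ℤ) ≤ hi).card ≤
      (Finset.Icc lo hi).card := by
    refine Finset.card_le_card_of_injOn (fun k : ℕ => (k : ℤ)) ?_ ?_
    · intro k hk
      have hk' := (Finset.mem_filter.1 (Finset.mem_coe.1 hk)).2
      exact Finset.mem_coe.2 (Finset.mem_Icc.2 hk')
    · intro a _ b _ hab
      have h2 : (a : ℤ) = (b : ℤ) := hab
      exact_mod_cast h2
  rw [Int.card_Icc] at h1
  have h2 : (hi + 1 - lo).toNat ≤ L := by omega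
  exact_mod_cast h1.trans h2

theorem fco_sum {d : ℕ} (n K : ℕ) (hK : 1 ≤ K) {α m : ℝ} (hα : 0 < α) (hm : α ≤ m)
    {ω : Sym2 (V d) → ℝ} (e : Sym2 (V d)) (he : α ≤ ω e) :
    ∑ k ∈ Finset.range (n + 1), coK (k : ℤ) K m ω e ≤
      ((n : ℝ) + 1 + ((K : ℝ) + 1) * (m - α) / α) * ω e -
        (1 + ((K : ℝ) + 1) * (m - α) / α / K) * α *
          ∑ k ∈ Finset.range (n + 1), chK (k : ℤ) K e := by
  classical
  set s := ω e with hs
  have hK0 : (0 : ℝ) < K := by exact_mod_cast hK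
  set lam := ((K : ℝ) + 1) * (m - α) / α with hlam
  have hlam0 : 0 ≤ lam := div_nonneg (mul_nonneg (by positivity) (by linarith)) hα.le
  have hlamα : lam * α = ((K : ℝ) + 1) * (m - α) := div_mul_cancel₀ _ hα.ne'
  by_cases hz' : hz e
  · set b := ∑ k ∈ Finset.range (n + 1),
      (if mc e - K + 1 ≤ (k : ℤ) ∧ (k : ℤ) ≤ mc e then (1 : ℝ) else 0) with hb
    have hbK : b ≤ K := fc_cnt n K _ _ (by omega)
    have hb0 : 0 ≤ b := Finset.sum_nonneg fun k _ => by split_ifs <;> norm_num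
    have e1 : ∀ k : ℕ, coK (k : ℤ) K m ω e =
        s - s * (if mc e - K + 1 ≤ (k : ℤ) ∧ (k : ℤ) ≤ mc e then (1 : ℝ) else 0) := by
      intro k
      unfold coK
      rw [if_pos hz']
      by_cases h : (k : ℤ) ≤ mc e ∧ mc e < (k : ℤ) + K
      · rw [if_pos h, if_pos (by omega)]
        ring
      · rw [if_neg h, if_neg (by omega)]
        ring
    have e2 : ∀ k : ℕ, chK (k : ℤ) K e =
        if mc e - K + 1 ≤ (k : ℤ) ∧ (k : ℤ) ≤ mc e then (1 : ℝ) else 0 := by
      intro k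
      unfold chK
      by_cases h : (k : ℤ) ≤ mc e ∧ mc e < (k : ℤ) + K
      · rw [if_pos ⟨hz', h⟩, if_pos (by omega)]
      · rw [if_neg (fun h' => h h'.2), if_neg (by omega)]
    rw [Finset.sum_congr rfl fun k _ => e1 k, Finset.sum_congr rfl fun k _ => e2 k,
      Finset.sum_sub_distrib, ← Finset.mul_sum, ← hb, Finset.sum_const, Finset.card_range,
      nsmul_eq_mul]
    push_cast
    have h1 : lam / K * b ≤ lam := by
      calc lam / K * b ≤ lam / K * K := mul_le_mul_of_nonneg_left hbK (div_nonneg hlam0 hK0.le)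
        _ = lam := div_mul_cancel₀ _ hK0.ne'
    have h2 : (lam + b) * α ≤ (lam + b) * s := mul_le_mul_of_nonneg_left he (by linarith)
    have h3 : lam / K * b * α ≤ lam * α := mul_le_mul_of_nonneg_right h1 hα.le
    nlinarith
  · set c := ∑ k ∈ Finset.range (n + 1),
      (if mc e - K ≤ (k : ℤ) ∧ (k : ℤ) ≤ mc e then (1 : ℝ) else 0) with hc
    have hcK : c ≤ ((K + 1 : ℕ) : ℝ) := fc_cnt n (K + 1) _ _ (by push_cast; omega)
    have hc0 : 0 ≤ c := Finset.sum_nonneg fun k _ => by split_ifs <;> norm_num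
    have e1 : ∀ k : ℕ, coK (k : ℤ) K m ω e =
        s + (m - s) * (if mc e - K ≤ (k : ℤ) ∧ (k : ℤ) ≤ mc e then (1 : ℝ) else 0) := by
      intro k
      unfold coK
      rw [if_neg hz']
      by_cases h : (k : ℤ) ≤ mc e ∧ mc e ≤ (k : ℤ) + K
      · rw [if_pos h, if_pos (by omega)]
        ring
      · rw [if_neg h, if_neg (by omega)]
        ring
    have e2 : ∀ k : ℕ, chK (k : ℤ) K e = 0 := by
      intro k
      unfold chK
      rw [if_neg (fun h => hz' h.1)]
    rw [Finset.sum_congr rfl fun k _ => e1 k, Finset.sum_congr rfl fun k _ => e2 k,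
      Finset.sum_add_distrib, ← Finset.mul_sum, ← hc, Finset.sum_const, Finset.card_range,
      nsmul_eq_mul, Finset.sum_const_zero, mul_zero, sub_zero]
    push_cast at hcK ⊢
    have h1 : (m - s) * c ≤ (m - α) * c := mul_le_mul_of_nonneg_right (by linarith) hc0
    have h2 : (m - α) * c ≤ (m - α) * ((K : ℝ) + 1) := mul_le_mul_of_nonneg_left hcK (by linarith)
    have h3 : lam * α ≤ lam * s := mul_le_mul_of_nonneg_left he hlam0
    linarith

end Pool.Agent.Work.MP_9a767b_pr.H
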