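import Pool.Agent.Work.MP_9a767b_pr.H.Defs

/-!
# FDefs

Cut and glue with fresh weights (definitions, FIXED). The columns `k, …, k + K` are merged into one
column, whose vertical edges get the fresh weights `η`; the horizontal edges between these columns are
removed.

`fg k K ω η` are the new weights, `cK k K` is the contraction, `pj k` the projection onto the column `k`,
`coE` the cost of a step after the contraction, `coK` the same with the mean `m` in place of the fresh
weights, `chK` counts the removed horizontal edges.
-/

open MeasureTheory ProbabilityTheory Filter Topology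

namespace Pool.Agent.Work.MP_9a767b_pr.H

/-- The point with the first coordinate changed to `k`. -/
def pj {d : ℕ} (k : ℤ) (x : V d) : V d := x - ax d (x 0 - k)

/-- The shift of a pair by `K e_1`. -/
def shK {d : ℕ} (K : ℕ) (e : Sym2 (V d)) : Sym2 (V d) := e.map (fun x => x + ax d K)

open Classical in
/-- The glued weights with the fresh weights `η` in the merged column. -/
noncomputable def fg {d : ℕ} (k : ℤ) (K : ℕ) (ω η : Sym2 (V d) → ℝ) : Sym2 (V d) → ℝ := fun e =>
  if mg k e then η e else if mc e < k then ω e else ω (shK K e)

/-- The contraction of the columns `k, …, k + K`. -/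
def cK {d : ℕ} (k : ℤ) (K : ℕ) (x : V d) : V d :=
  if x 0 ≤ k then x else if x 0 ≤ k + K then pj k x else x - ax d K

open Classical in
/-- The cost of a step after the contraction. -/
noncomputable def coE {d : ℕ} (k : ℤ) (K : ℕ) (ω η : Sym2 (V d) → ℝ) (e : Sym2 (V d)) : ℝ :=
  if hz e then (if k ≤ mc e ∧ mc e < k + K then 0 else ω e)
  else if k ≤ mc e ∧ mc e ≤ k + K then η (e.map (pj k)) else ω e

open Classical in
/-- The expected cost of a step after the contraction. -/
noncomputable def coK {d : ℕ} (k : ℤ) (K : ℕ) (m : ℝ) (ω : Sym2 (V d) → ℝ) (e : Sym2 (V d)) : ℝ :=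
  if hz e then (if k ≤ mc e ∧ mc e < k + K then 0 else ω e)
  else if k ≤ mc e ∧ mc e ≤ k + K then m else ω e

open Classical in
/-- The indicator of the removed horizontal pairs. -/
noncomputable def chK {d : ℕ} (k : ℤ) (K : ℕ) (e : Sym2 (V d)) : ℝ :=
  if hz e ∧ k ≤ mc e ∧ mc e < k + K then 1 else 0

end Pool.Agent.Work.MP_9a767b_pr.H
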