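import Pool.Agent.Work.MP_9a767b_pr.H.Meas

/-!
# Int

Almost sure lower bound of the weights, integrability of the passage time, for a product of arbitrary
laws.

* `ae_ge`: `ae_all_iff` (countably many pairs); for one pair `e` the law of `ω e` is `κ e`
  (`measurePreserving_eval_infinitePi`), and `κ e (Iio α) = 0` says `α ≤ x` for almost every `x`.
* `integrable_pt`: fix a walk `w` from `x` to `y` (`nonempty_walk`). Almost surely all `ω e ≥ 0`, then
  `0 ≤ pt ω x y ≤ (w.edges.map ω).sum` (`pt_nonneg`, `pt_le`), and the finite sum is integrable (induction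
  on the list; each coordinate is integrable as `κ e` is integrable and the evaluation is measure
  preserving). `Integrable.mono'` with `measurable_pt`.
-/

open MeasureTheory ProbabilityTheory Filter Topology

namespace Pool.Agent.Work.MP_9a767b_pr.H

theorem ae_ge {d : ℕ} (κ : Sym2 (V d) → Measure ℝ) [∀ e, IsProbabilityMeasure (κ e)] {α : ℝ}
    (h : ∀ e, κ e (Set.Iio α) = 0) :
    ∀ᵐ ω ∂(Measure.infinitePi κ), ∀ e, α ≤ ω e := by
  rw [ae_all_iff]
  intro e
  have h1 : ∀ᵐ x ∂(κ e), α ≤ x := by
    rw [ae_iff]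
    have h2 : {x : ℝ | ¬ α ≤ x} = Set.Iio α := by
      ext x
      simp
    rw [h2]
    exact h e
  exact (measurePreserving_eval_infinitePi κ e).quasiMeasurePreserving.ae h1

theorem integrable_eval {d : ℕ} (κ : Sym2 (V d) → Measure ℝ) [∀ e, IsProbabilityMeasure (κ e)]
    (e : Sym2 (V d)) (hi : Integrable (fun x : ℝ => x) (κ e)) :
    Integrable (fun ω : Sym2 (V d) → ℝ => ω e) (Measure.infinitePi κ) ∧
      ∫ ω, ω e ∂(Measure.infinitePi κ) = ∫ x, x ∂(κ e) := by
  have hmp := measurePreserving_eval_infinitePi κ e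
  constructor
  · exact (hmp.integrable_comp hi.aestronglyMeasurable).2 hi
  · have h1 := integral_map (μ := Measure.infinitePi κ) (φ := Function.eval e)
      hmp.measurable.aemeasurable (f := fun x : ℝ => x) aestronglyMeasurable_id
    rw [hmp.map_eq] at h1
    exact h1.symm

theorem integrable_pt {d : ℕ} (κ : Sym2 (V d) → Measure ℝ) [∀ e, IsProbabilityMeasure (κ e)]
    (h : ∀ e, κ e (Set.Iio 0) = 0) (hi : ∀ e, Integrable (fun x : ℝ => x) (κ e)) (x y : V d) :
    Integrable (fun ω => pt ω x y) (Measure.infinitePi κ) := by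
  obtain ⟨w⟩ := nonempty_walk x y
  have hsum : ∀ l : List (Sym2 (V d)),
      Integrable (fun ω : Sym2 (V d) → ℝ => (l.map ω).sum) (Measure.infinitePi κ) := by
    intro l
    induction l with
    | nil => simp
    | cons e l ih =>
      simp only [List.map_cons, List.sum_cons]
      exact (integrable_eval κ e (hi e)).1.add ih
  refine (hsum w.edges).mono' (measurable_pt x y).aestronglyMeasurable ?_
  filter_upwards [ae_ge κ h] with ω hω
  rw [Real.norm_of_nonneg (pt_nonneg hω x y)]
  exact pt_le hω w

end Pool.Agent.Work.MP_9a767b_pr.H
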