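import Pool.Agent.Work.MP_9a767b_pr.H.FStep
import Pool.Agent.Work.MP_9a767b_pr.H.Int

/-!
# FExp

The expectation over the fresh weights. For `Q d ν`-almost every `η` all `η e ≥ 0` (`ae_ge` for
`κ = fun _ => ν`), so `falong` holds. The list sum of `coE` is integrable in `η` (each term is a constant
or a coordinate of `η`, `integrable_eval`) with the integral the list sum of `coK` with `m = ∫ x dν`
(induction on the list). `integral_mono_of_nonneg` (the left side is nonnegative by `pt_nonneg`,
`fg_nonneg`). The measurability of `η ↦ pt (fg k K ω η) x y` is `measurable_pt` after a measurable map.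
-/

open MeasureTheory ProbabilityTheory Filter Topology

namespace Pool.Agent.Work.MP_9a767b_pr.H

theorem measurable_fg {d : ℕ} (k : ℤ) (K : ℕ) :
    Measurable (fun p : (Sym2 (V d) → ℝ) × (Sym2 (V d) → ℝ) => fg k K p.1 p.2) := by
  refine measurable_pi_lambda _ fun e => ?_
  unfold fg
  by_cases h1 : mg k e
  · simp only [if_pos h1]
    exact (measurable_pi_apply e).comp measurable_snd
  · simp only [if_neg h1]
    by_cases h2 : mc e < k
    · simp only [if_pos h2]
      exact (measurable_pi_apply e).comp measurable_fst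
    · simp only [if_neg h2]
      exact (measurable_pi_apply (shK K e)).comp measurable_fst

private theorem fx_term {d : ℕ} (ν : Measure ℝ) [IsProbabilityMeasure ν]
    (hi : Integrable (fun x : ℝ => x) ν) (k : ℤ) (K : ℕ) (ω : Sym2 (V d) → ℝ) (e : Sym2 (V d)) :
    Integrable (fun η => coE k K ω η e) (Q d ν) ∧
      ∫ η, coE k K ω η e ∂(Q d ν) = coK k K (∫ t, t ∂ν) ω e := by
  unfold coE coK
  by_cases h1 : hz e
  · simp only [if_pos h1]
    refine ⟨integrable_const _, ?_⟩
    rw [integral_const]
    simp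
  · simp only [if_neg h1]
    by_cases h2 : k ≤ mc e ∧ mc e ≤ k + K
    · simp only [if_pos h2]
      exact integrable_eval (fun _ => ν) (e.map (pj k)) hi
    · simp only [if_neg h2]
      refine ⟨integrable_const _, ?_⟩
      rw [integral_const]
      simp

private theorem fx_list {d : ℕ} (ν : Measure ℝ) [IsProbabilityMeasure ν]
    (hi : Integrable (fun x : ℝ => x) ν) (k : ℤ) (K : ℕ) (ω : Sym2 (V d) → ℝ)
    (l : List (Sym2 (V d))) :
    Integrable (fun η => (l.map (coE k K ω η)).sum) (Q d ν) ∧
      ∫ η, (l.map (coE k K ω η)).sum ∂(Q d ν) = (l.map (coK k K (∫ t, t ∂ν) ω)).sum := by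
  induction l with
  | nil => simp
  | cons e l ih =>
    simp only [List.map_cons, List.sum_cons]
    have h1 := fx_term ν hi k K ω e
    refine ⟨h1.1.add ih.1, ?_⟩
    rw [integral_add h1.1 ih.1, h1.2, ih.2]

theorem fexp {d : ℕ} (ν : Measure ℝ) [IsProbabilityMeasure ν] (h : ν (Set.Iio 0) = 0)
    (hi : Integrable (fun x : ℝ => x) ν) (k : ℤ) (K : ℕ) {ω : Sym2 (V d) → ℝ} (hω : ∀ e, 0 ≤ ω e)
    {x y : V d} (w : (lattice d).Walk x y) :
    ∫ η, pt (fg k K ω η) (cK k K x) (cK k K y) ∂(Q d ν) ≤
      (w.edges.map (coK k K (∫ t, t ∂ν) ω)).sum := by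
  have h1 := fx_list ν hi k K ω w.edges
  rw [← h1.2]
  have h2 : ∀ᵐ η ∂(Q d ν), ∀ e, 0 ≤ η e := ae_ge (fun _ => ν) (fun _ => h)
  refine integral_mono_of_nonneg ?_ h1.1 ?_
  · filter_upwards [h2] with η hη
    exact pt_nonneg (fg_nonneg k K hω hη) _ _
  · filter_upwards [h2] with η hη
    exact falong k K hω hη w

end Pool.Agent.Work.MP_9a767b_pr.H
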