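import Pool.Agent.Work.MP_9a767b_pr.H.Metric

/-!
# Meas

Measurability. See `Pool/Agent/Work/MP_9a767b_pr/Meas.lean` for the same proofs for the square lattice.

* `countable_walk`: the support map is injective (`SimpleGraph.Walk.ext_support`).
* `countable_sym2`: `Sym2` is a quotient of a countable type (`Quot.mk` is surjective).
* `measurable_pt`: countable infimum of finite sums of coordinates (`Measurable.iInf`).
* `measurable_gl`: coordinate by coordinate (`measurable_pi_lambda`), `split_ifs`, `Measurable.min`.
-/

open MeasureTheory ProbabilityTheory Filter Topology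

namespace Pool.Agent.Work.MP_9a767b_pr.H

instance countable_walk {d : ℕ} (x y : V d) : Countable ((lattice d).Walk x y) := by
  have hinj : Function.Injective (fun w : (lattice d).Walk x y => w.support) :=
    fun w w' h => SimpleGraph.Walk.ext_support h
  exact hinj.countable

instance countable_sym2 {d : ℕ} : Countable (Sym2 (V d)) := by
  have hs : Function.Surjective (fun p : V d × V d => s(p.1, p.2)) := by
    intro e
    induction e using Sym2.ind with
    | _ a b => exact ⟨(a, b), rfl⟩
  exact hs.countable

theorem measurable_pt {d : ℕ} (x y : V d) :
    Measurable (fun c : Sym2 (V d) → ℝ => pt c x y) := by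
  unfold pt
  refine Measurable.iInf fun w => ?_
  induction w.edges with
  | nil =>
    simp only [List.map_nil, List.sum_nil]
    exact measurable_const
  | cons e l ih =>
    simp only [List.map_cons, List.sum_cons]
    exact (measurable_pi_apply e).add ih

theorem measurable_gl {d : ℕ} (k : ℤ) (c₁ c₂ : ℝ) :
    Measurable (gl k c₁ c₂ : (Sym2 (V d) → ℝ) → (Sym2 (V d) → ℝ)) := by
  refine measurable_pi_lambda _ fun e => ?_
  unfold gl
  by_cases h1 : mg k e
  · simp only [if_pos h1]
    have a1 : Measurable fun ω : Sym2 (V d) → ℝ => ω e := measurable_pi_apply e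
    have a2 : Measurable fun ω : Sym2 (V d) → ℝ => ω (sh e) := measurable_pi_apply (sh e)
    exact (measurable_const.mul a1).min (measurable_const.mul a2)
  · simp only [if_neg h1]
    by_cases h2 : mc e < k
    · simp only [if_pos h2]
      exact measurable_pi_apply e
    · simp only [if_neg h2]
      exact measurable_pi_apply (sh e)

instance q_prob (d : ℕ) (ν : Measure ℝ) [IsProbabilityMeasure ν] : IsProbabilityMeasure (Q d ν) := by
  unfold Q
  infer_instance

end Pool.Agent.Work.MP_9a767b_pr.H
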