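import Pool.Agent.Work.MP_9a767b_pr.H.FDefs
import Pool.Agent.Work.MP_9a767b_pr.H.Meas

/-!
# FLaw

The glued weights have the law `Q d ν` again (compare `GlLaw.lean`, proved; this one is simpler).

Let `R = Measure.infinitePi` of `ν` over the index type `Bool × Sym2 (V d)`. By
`Measure.infinitePi_map_curry` and `Measure.infinitePi_map_eval_prod` (for `true ≠ false`) the map
`W ↦ (fun e => W (true, e), fun e => W (false, e))` sends `R` to `(Q d ν).prod (Q d ν)`. The composition
with `p ↦ fg k K p.1 p.2` is `W ↦ W ∘ f` with `f e = (false, e)` if `mg k e`, `f e = (true, e)` if not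
`mg k e` and `mc e < k`, `f e = (true, shK K e)` otherwise. `f` is injective: `mc (shK K e) = mc e + K ≥ k` in
the third case, `shK K` is injective. `Measure.map_infinitePi_infinitePi_of_inj`.
-/

open MeasureTheory ProbabilityTheory Filter Topology

namespace Pool.Agent.Work.MP_9a767b_pr.H

private theorem fLaw_mc {d : ℕ} (K : ℕ) (e : Sym2 (V d)) : mc (shK K e) = mc e + K := by
  induction e using Sym2.ind with
  | _ x y =>
    show min ((x + ax d K) 0) ((y + ax d K) 0) = min (x 0) (y 0) + K
    have h1 : ax d (K : ℤ) 0 = K := by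
      unfold ax
      rw [Pi.single_eq_same]
    rw [Pi.add_apply, Pi.add_apply, h1, min_add_add_right]

private theorem fLaw_inj {d : ℕ} (K : ℕ) :
    Function.Injective (shK K : Sym2 (V d) → Sym2 (V d)) :=
  Sym2.map.injective (add_left_injective (ax d K))

open Classical in
/-- the injection of the pairs -/
private noncomputable def fLawF {d : ℕ} (k : ℤ) (K : ℕ) (e : Sym2 (V d)) : Bool × Sym2 (V d) :=
  if mg k e then (false, e) else if mc e < k then (true, e) else (true, shK K e)

private theorem fLawF_inj {d : ℕ} (k : ℤ) (K : ℕ) :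
    Function.Injective (fLawF k K : Sym2 (V d) → _) := by
  classical
  intro e e' h
  unfold fLawF at h
  split_ifs at h with h1 h2 h3 h4 h5 h6 h7 h8
  all_goals rw [Prod.mk.injEq] at h
  all_goals first
    | exact h.2
    | (exfalso; exact absurd h.1 (by decide))
    | skip
  · exfalso
    have h9 := h.2
    rw [h9, fLaw_mc] at h4
    omega
  · exfalso
    have h9 := h.2
    rw [← h9, fLaw_mc] at h8
    omega
  · exact fLaw_inj K h.2

private theorem fLaw_eq {d : ℕ} (k : ℤ) (K : ℕ) (W : Bool × Sym2 (V d) → ℝ) :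
    fg k K (fun e => W (true, e)) (fun e => W (false, e)) = fun e => W (fLawF k K e) := by
  classical
  funext e
  unfold fg fLawF
  split_ifs <;> rfl

private theorem fLaw_meas {d : ℕ} (k : ℤ) (K : ℕ) :
    Measurable (fun p : (Sym2 (V d) → ℝ) × (Sym2 (V d) → ℝ) => fg k K p.1 p.2) := by
  classical
  refine measurable_pi_lambda _ fun e => ?_
  unfold fg
  split_ifs
  · exact (measurable_pi_apply e).comp measurable_snd
  · exact (measurable_pi_apply e).comp measurable_fst
  · exact (measurable_pi_apply _).comp measurable_fst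

theorem fg_law (d : ℕ) (ν : Measure ℝ) [IsProbabilityMeasure ν] (k : ℤ) (K : ℕ) :
    ((Q d ν).prod (Q d ν)).map
      (fun p : (Sym2 (V d) → ℝ) × (Sym2 (V d) → ℝ) => fg k K p.1 p.2) = Q d ν := by
  have h3 : Measurable (fun y : Bool → Sym2 (V d) → ℝ => (y true, y false)) :=
    (measurable_pi_apply true).prodMk (measurable_pi_apply false)
  have h1 : (Q d ν).prod (Q d ν) = (Measure.infinitePi (fun _ : Bool => Q d ν)).map
      (fun y : Bool → Sym2 (V d) → ℝ => (y true, y false)) :=
    (Measure.infinitePi_map_eval_prod (P := fun _ : Bool => Q d ν)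
      (by decide : true ≠ false)).symm
  have h2 : Measure.infinitePi (fun _ : Bool => Q d ν) =
      (Measure.infinitePi (fun _ : Bool × Sym2 (V d) => ν)).map
        (MeasurableEquiv.curry Bool (Sym2 (V d)) ℝ) :=
    (Measure.infinitePi_map_curry (fun (_ : Bool) (_ : Sym2 (V d)) => ν)).symm
  rw [h1, Measure.map_map (fLaw_meas k K) h3, h2,
    Measure.map_map ((fLaw_meas k K).comp h3) (MeasurableEquiv.measurable _)]
  have h4 : ((fun p : (Sym2 (V d) → ℝ) × (Sym2 (V d) → ℝ) => fg k K p.1 p.2) ∘
      (fun y : Bool → Sym2 (V d) → ℝ => (y true, y false))) ∘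
      (MeasurableEquiv.curry Bool (Sym2 (V d)) ℝ) =
      fun (W : Bool × Sym2 (V d) → ℝ) e => W (fLawF k K e) := by
    funext W
    exact fLaw_eq k K W
  rw [h4]
  exact Measure.map_infinitePi_infinitePi_of_inj (P := fun _ : Bool × Sym2 (V d) => ν)
    (fLawF_inj k K)

end Pool.Agent.Work.MP_9a767b_pr.H
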