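import Pool.Agent.Work.MP_9a767b_pr.H.FSum
import Pool.Agent.Work.MP_9a767b_pr.H.FLaw

/-!
# FKey

`g d ν n = ∫ ω, ∫ η, pt (fg k K ω η) 0 (ax d n)` for every `k` by `fg_law`, `integral_map`
(`measurable_fg`, `measurable_pt`) and `integral_prod` (integrable: `integrable_pt` for
`κ = fun _ => ν` and `integrable_map_measure`). Sum over `k ∈ range (n + 1)` (`integral_finset_sum`, the
inner integrals are integrable in `ω`: `Integrable.integral_prod_left`), and `integral_mono_ae` with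
`fsum` for almost every `ω` (`ae_ge`).
-/

open MeasureTheory ProbabilityTheory Filter Topology

namespace Pool.Agent.Work.MP_9a767b_pr.H

theorem fkey (d : ℕ) (ν : Measure ℝ) [IsProbabilityMeasure ν] {α : ℝ} (hα : 0 < α)
    (h : ν (Set.Iio α) = 0) (hi : Integrable (fun x : ℝ => x) ν) (n K : ℕ) (hK : 1 ≤ K) :
    ((n : ℝ) + 1) * g d ν n ≤
      ((n : ℝ) + 1 + ((K : ℝ) + 1) * ((∫ x, x ∂ν) - α) / α) * g d ν (n + K) -
        ((K : ℝ) + ((K : ℝ) + 1) * ((∫ x, x ∂ν) - α) / α) * α * ((n : ℝ) + 1) := by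
  have h0 : ∀ e : Sym2 (V d), (fun _ : Sym2 (V d) => ν) e (Set.Iio 0) = 0 := fun _ =>
    measure_mono_null (Set.Iio_subset_Iio hα.le) h
  have ip : ∀ x y : V d, Integrable (fun ω => pt ω x y) (Q d ν) := fun x y =>
    integrable_pt (fun _ : Sym2 (V d) => ν) h0 (fun _ => hi) x y
  have ig : ∀ k : ℤ, Integrable (fun p : (Sym2 (V d) → ℝ) × (Sym2 (V d) → ℝ) =>
      pt (fg k K p.1 p.2) 0 (ax d n)) ((Q d ν).prod (Q d ν)) := by
    intro k
    have h1 := ip 0 (ax d n)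
    rw [← fg_law d ν k K, integrable_map_measure
      (measurable_pt 0 (ax d n)).aestronglyMeasurable (measurable_fg k K).aemeasurable] at h1
    exact h1
  have e1 : ∀ k : ℤ, g d ν n = ∫ ω, ∫ η, pt (fg k K ω η) 0 (ax d n) ∂(Q d ν) ∂(Q d ν) := by
    intro k
    unfold g
    rw [← integral_prod _ (ig k)]
    conv_lhs => rw [← fg_law d ν k K]
    exact integral_map (measurable_fg k K).aemeasurable
      (measurable_pt 0 (ax d n)).aestronglyMeasurable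
  have i1 : ∀ k ∈ Finset.range (n + 1),
      Integrable (fun ω => ∫ η, pt (fg (k : ℤ) K ω η) 0 (ax d n) ∂(Q d ν)) (Q d ν) := fun k _ =>
    (ig k).integral_prod_left
  have s1 : ((n : ℝ) + 1) * g d ν n = ∑ k ∈ Finset.range (n + 1),
      ∫ ω, ∫ η, pt (fg (k : ℤ) K ω η) 0 (ax d n) ∂(Q d ν) ∂(Q d ν) := by
    have h1 : ∑ k ∈ Finset.range (n + 1), g d ν n = ∑ k ∈ Finset.range (n + 1),
        ∫ ω, ∫ η, pt (fg (k : ℤ) K ω η) 0 (ax d n) ∂(Q d ν) ∂(Q d ν) :=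
      Finset.sum_congr rfl fun k _ => e1 (k : ℤ)
    rw [← h1, Finset.sum_const, Finset.card_range, nsmul_eq_mul]
    push_cast
    ring
  rw [s1, ← integral_finsetSum _ i1]
  obtain ⟨a, ha⟩ : ∃ a : ℝ, a = (n : ℝ) + 1 + ((K : ℝ) + 1) * ((∫ x, x ∂ν) - α) / α := ⟨_, rfl⟩
  obtain ⟨b, hb⟩ : ∃ b : ℝ, b = ((K : ℝ) + ((K : ℝ) + 1) * ((∫ x, x ∂ν) - α) / α) * α *
    ((n : ℝ) + 1) := ⟨_, rfl⟩
  rw [← ha, ← hb]
  have i2 : Integrable (fun ω => a * pt ω 0 (ax d ((n + K : ℕ) : ℤ)) - b) (Q d ν) :=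
    ((ip _ _).const_mul _).sub (integrable_const _)
  have s2 : ∫ ω, ∑ k ∈ Finset.range (n + 1), ∫ η, pt (fg (k : ℤ) K ω η) 0 (ax d n) ∂(Q d ν)
      ∂(Q d ν) ≤ ∫ ω, (a * pt ω 0 (ax d ((n + K : ℕ) : ℤ)) - b) ∂(Q d ν) := by
    refine integral_mono_ae (integrable_finsetSum _ i1) i2 ?_
    have hae : ∀ᵐ ω ∂(Q d ν), ∀ e, α ≤ ω e := ae_ge (fun _ : Sym2 (V d) => ν) (fun _ => h)
    filter_upwards [hae] with ω hω
    rw [ha, hb]
    exact fsum ν hα h hi n K hK hω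
  have s3 : ∫ ω, (a * pt ω 0 (ax d ((n + K : ℕ) : ℤ)) - b) ∂(Q d ν) = a * g d ν (n + K) - b := by
    rw [integral_sub ((ip _ _).const_mul _) (integrable_const _), integral_const_mul,
      integral_const]
    simp only [probReal_univ, one_smul]
    rfl
  linarith

end Pool.Agent.Work.MP_9a767b_pr.H
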