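import Pool.Agent.Work.MP_9a767b_pr.H.Defs

/-!
# FSeq

PURE REAL SEQUENCES. Divide `H` by `n + 1`:
`f (n + K) - f n ≥ K α - lam K * (f (n + K) / (n + 1) - α)` where `lam K = (K + 1) D / α`.
As `f (n + K) / (n + 1) → μ` (write it as `f (n + K) / (n + K) * ((n + K) / (n + 1))`), the right side tends
to `K α - (K + 1) D (μ - α) / α`, which is positive for `K` with `(K + 1) D (μ - α) < K α ^ 2`; take `c` half of
it.
-/

open MeasureTheory ProbabilityTheory Filter Topology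

namespace Pool.Agent.Work.MP_9a767b_pr.H

theorem fseq {f : ℕ → ℝ} {α D μ : ℝ} (hα : 0 < α) (K : ℕ)
    (H : ∀ n : ℕ, ((n : ℝ) + 1) * f n ≤
      ((n : ℝ) + 1 + ((K : ℝ) + 1) * D / α) * f (n + K) -
        ((K : ℝ) + ((K : ℝ) + 1) * D / α) * α * ((n : ℝ) + 1))
    (hμ : Tendsto (fun n : ℕ => f n / n) atTop (𝓝 μ))
    (h : ((K : ℝ) + 1) * (D * (μ - α)) < K * α ^ 2) :
    ∃ c : ℝ, 0 < c ∧ ∀ᶠ n : ℕ in atTop, f n + c ≤ f (n + K) := by
  set L : ℝ := ((K : ℝ) + 1) * D / α with hL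
  have hlim1 : Tendsto (fun n : ℕ => f (n + K) / ((n + K : ℕ) : ℝ)) atTop (𝓝 μ) :=
    hμ.comp (tendsto_add_atTop_nat K)
  have hlim2 : Tendsto (fun n : ℕ => 1 + ((K : ℝ) - 1) / ((n + 1 : ℕ) : ℝ)) atTop (𝓝 (1 + 0)) :=
    tendsto_const_nhds.add
      ((tendsto_const_div_atTop_nhds_zero_nat ((K : ℝ) - 1)).comp (tendsto_add_atTop_nat 1))
  have hlim3 : Tendsto (fun n : ℕ => f (n + K) / ((n : ℝ) + 1)) atTop (𝓝 μ) := by
    have h1 := hlim1.mul hlim2
    rw [add_zero, mul_one] at h1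
    refine h1.congr' ?_
    filter_upwards [eventually_ge_atTop 1] with n hn
    have hn1 : (1 : ℝ) ≤ n := by exact_mod_cast hn
    have hK0 : (0 : ℝ) ≤ K := Nat.cast_nonneg K
    have h2 : (n : ℝ) + K ≠ 0 := by positivity
    have h3 : (n : ℝ) + 1 ≠ 0 := by positivity
    push_cast
    field_simp
    ring
  have hlim4 : Tendsto (fun n : ℕ => ((K : ℝ) + L) * α - L * (f (n + K) / ((n : ℝ) + 1))) atTop
      (𝓝 (((K : ℝ) + L) * α - L * μ)) :=
    tendsto_const_nhds.sub (hlim3.const_mul L)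
  have hpos : 0 < ((K : ℝ) + L) * α - L * μ := by
    have h1 : L * (μ - α) < K * α := by
      rw [hL, div_mul_eq_mul_div, div_lt_iff₀ hα]
      calc ((K : ℝ) + 1) * D * (μ - α) = ((K : ℝ) + 1) * (D * (μ - α)) := by ring
        _ < K * α ^ 2 := h
        _ = K * α * α := by ring
    linarith
  refine ⟨(((K : ℝ) + L) * α - L * μ) / 2, half_pos hpos, ?_⟩
  filter_upwards [hlim4.eventually (lt_mem_nhds (half_lt_self hpos))] with n hn
  have hn1 : (0 : ℝ) < (n : ℝ) + 1 := by positivity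
  have h1 := H n
  have h2 : f n ≤ f (n + K) + L * (f (n + K) / ((n : ℝ) + 1)) - ((K : ℝ) + L) * α := by
    refine le_of_mul_le_mul_left ?_ hn1
    calc ((n : ℝ) + 1) * f n ≤ _ := h1
      _ = ((n : ℝ) + 1) * (f (n + K) + L * (f (n + K) / ((n : ℝ) + 1)) - ((K : ℝ) + L) * α) := by
          field_simp
  linarith

end Pool.Agent.Work.MP_9a767b_pr.H
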