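import Pool.Agent.Work.MP_9a767b_pr.H.Defs

/-!
# Metric

Elementary properties of the passage time (deterministic). The file
`Pool/Agent/Work/MP_9a767b_pr/Metric.lean` has the same statements with proofs for the square lattice:
adapt it.

* `adj_iff`: `SimpleGraph.fromRel_adj`, the relation is symmetric (`abs_sub_comm`), and irreflexive.
* `adj_ax`, `adj_single`: all the terms of the sum vanish except one (`Finset.sum_eq_single`,
  `Pi.single_apply`). `ax d 1 = Pi.single 0 1`.
* `adj_add`: from `adj_iff`.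
* `adj_cases`: if `x 0 ≠ y 0` then `|x 0 - y 0| ≥ 1`, so the other terms of the sum vanish and
  `x 0 - y 0 = ± 1`.
* `nonempty_walk`: the lattice is connected: change the coordinates one after the other
  (for instance: the set of `v` with a walk from `0` to `v` contains `0` and is closed under adding
  and subtracting `Pi.single i 1`; every `v` is `∑ i, Pi.single i (v i)`; induct on `Fin` or use
  `Pi.induction` style arguments; translate with `adj_add` and `SimpleGraph.Walk.map`).
* `le_pt_of_le`: along a walk `|x 0 - y 0|` changes by at most `1` in each step, so a walk has at least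
  `|x 0 - y 0|` edges (induction on the walk; `adj_cases`), and each of them costs at least `α`.
* `pt_shift`: the translation by `v` is an automorphism, walks from `x` to `y` correspond to walks from
  `x + v` to `y + v` (`Equiv.iInf_congr` or two inequalities with `le_pt`, `pt_le` for nonnegative
  weights are NOT enough here, `c` is arbitrary: use a bijection of walks, for instance
  `SimpleGraph.Walk.map` with the graph isomorphism and `Function.Surjective.iInf_congr`).
-/

open MeasureTheory ProbabilityTheory Filter Topology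

namespace Pool.Agent.Work.MP_9a767b_pr.H

theorem adj_iff {d : ℕ} (x y : V d) : (lattice d).Adj x y ↔ ∑ i, |x i - y i| = 1 := by
  unfold lattice
  rw [SimpleGraph.fromRel_adj]
  constructor
  · rintro ⟨-, h | h⟩
    · exact h
    · rw [← h]
      exact Finset.sum_congr rfl fun i _ => abs_sub_comm _ _
  · intro h
    refine ⟨?_, Or.inl h⟩
    rintro rfl
    simp at h

private theorem single_adj {d : ℕ} (x : V d) (i : Fin (d + 2)) :
    (lattice d).Adj x (x + Pi.single i 1) := by
  rw [adj_iff, Finset.sum_eq_single i]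
  · rw [Pi.add_apply, Pi.single_eq_same]
    have h : x i - (x i + 1) = -1 := by ring
    rw [h]
    rfl
  · intro j _ hj
    rw [Pi.add_apply, Pi.single_eq_of_ne hj, add_zero, sub_self, abs_zero]
  · intro h
    exact absurd (Finset.mem_univ i) h

theorem adj_ax {d : ℕ} (x : V d) : (lattice d).Adj x (x + ax d 1) := by
  exact single_adj x 0

theorem adj_single {d : ℕ} (x : V d) (i : Fin (d + 2)) : (lattice d).Adj x (x + Pi.single i 1) := by
  exact single_adj x i

theorem adj_add {d : ℕ} (x y v : V d) : (lattice d).Adj (x + v) (y + v) ↔ (lattice d).Adj x y := by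
  rw [adj_iff, adj_iff]
  have h : ∀ i, |(x + v) i - (y + v) i| = |x i - y i| := by
    intro i
    rw [Pi.add_apply, Pi.add_apply, add_sub_add_right_eq_sub]
  rw [Finset.sum_congr rfl fun i _ => h i]

theorem adj_cases {d : ℕ} {x y : V d} (h : (lattice d).Adj x y) :
    y = x + ax d 1 ∨ x = y + ax d 1 ∨ x 0 = y 0 := by
  by_cases h0 : x 0 = y 0
  · exact Or.inr (Or.inr h0)
  rw [adj_iff, Fin.sum_univ_succ] at h
  have h1 : 0 ≤ ∑ i : Fin (d + 1), |x i.succ - y i.succ| :=
    Finset.sum_nonneg fun i _ => abs_nonneg _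
  have h2 : 1 ≤ |x 0 - y 0| := Int.one_le_abs (sub_ne_zero.2 h0)
  have h3 : ∑ i : Fin (d + 1), |x i.succ - y i.succ| = 0 := by omega
  have h4 : |x 0 - y 0| = 1 := by omega
  have h5 : ∀ i : Fin (d + 1), x i.succ = y i.succ := by
    intro i
    have h6 := (Finset.sum_eq_zero_iff_of_nonneg fun i _ => abs_nonneg _).1 h3 i
      (Finset.mem_univ i)
    have h7 := abs_eq_zero.1 h6
    omega
  rcases abs_eq (by norm_num : (0 : ℤ) ≤ 1) |>.1 h4 with h6 | h6
  · right; left
    funext i
    refine Fin.cases ?_ (fun j => ?_) i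
    · show x 0 = y 0 + (Pi.single 0 1 : V d) 0
      rw [Pi.single_eq_same]
      omega
    · show x j.succ = y j.succ + (Pi.single 0 1 : V d) j.succ
      rw [Pi.single_eq_of_ne (Fin.succ_ne_zero j), add_zero]
      exact h5 j
  · left
    funext i
    refine Fin.cases ?_ (fun j => ?_) i
    · show y 0 = x 0 + (Pi.single 0 1 : V d) 0
      rw [Pi.single_eq_same]
      omega
    · show y j.succ = x j.succ + (Pi.single 0 1 : V d) j.succ
      rw [Pi.single_eq_of_ne (Fin.succ_ne_zero j), add_zero]
      exact (h5 j).symm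

private def reach (d : ℕ) : AddSubgroup (V d) where
  carrier := {v | ∀ x, Nonempty ((lattice d).Walk x (x + v))}
  zero_mem' := fun x => ⟨SimpleGraph.Walk.nil.copy rfl (add_zero x).symm⟩
  add_mem' := by
    intro v w hv hw x
    obtain ⟨p⟩ := hv x
    obtain ⟨q⟩ := hw (x + v)
    exact ⟨(p.append q).copy rfl (add_assoc x v w)⟩
  neg_mem' := by
    intro v hv x
    obtain ⟨p⟩ := hv (x + -v)
    exact ⟨(p.copy rfl (neg_add_cancel_right x v)).reverse⟩

instance nonempty_walk {d : ℕ} (x y : V d) : Nonempty ((lattice d).Walk x y) := by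
  have h : y - x ∈ reach d := by
    have h1 : y - x = ∑ i, Pi.single i ((y - x) i) := (Finset.univ_sum_single (y - x)).symm
    rw [h1]
    refine AddSubgroup.sum_mem _ fun i _ => ?_
    have h2 : (Pi.single i ((y - x) i) : V d) = ((y - x) i) • (Pi.single i 1 : V d) := by
      rw [← Pi.single_smul, smul_eq_mul, mul_one]
    rw [h2]
    refine AddSubgroup.zsmul_mem _ ?_ _
    intro z
    exact ⟨SimpleGraph.Walk.cons (adj_single z i) SimpleGraph.Walk.nil⟩
  obtain ⟨w⟩ := h x
  exact ⟨w.copy rfl (add_sub_cancel x y)⟩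

private theorem len_nn {d : ℕ} {c : Sym2 (V d) → ℝ} (hc : ∀ e, 0 ≤ c e) {x y : V d}
    (w : (lattice d).Walk x y) : 0 ≤ (w.edges.map c).sum := by
  refine List.sum_nonneg ?_
  intro r hr
  obtain ⟨e, -, rfl⟩ := List.mem_map.1 hr
  exact hc e

private theorem len_bdd {d : ℕ} {c : Sym2 (V d) → ℝ} (hc : ∀ e, 0 ≤ c e) (x y : V d) :
    BddBelow (Set.range fun w : (lattice d).Walk x y => (w.edges.map c).sum) :=
  ⟨0, by rintro _ ⟨w, rfl⟩; exact len_nn hc w⟩

theorem pt_nonneg {d : ℕ} {c : Sym2 (V d) → ℝ} (hc : ∀ e, 0 ≤ c e) (x y : V d) : 0 ≤ pt c x y := by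
  exact le_ciInf fun w => len_nn hc w

theorem pt_le {d : ℕ} {c : Sym2 (V d) → ℝ} (hc : ∀ e, 0 ≤ c e) {x y : V d}
    (w : (lattice d).Walk x y) : pt c x y ≤ (w.edges.map c).sum := by
  exact ciInf_le (len_bdd hc x y) w

theorem le_pt {d : ℕ} {c : Sym2 (V d) → ℝ} {x y : V d} {t : ℝ}
    (h : ∀ w : (lattice d).Walk x y, t ≤ (w.edges.map c).sum) : t ≤ pt c x y := by
  exact le_ciInf h

theorem pt_self {d : ℕ} {c : Sym2 (V d) → ℝ} (hc : ∀ e, 0 ≤ c e) (x : V d) : pt c x x = 0 := by
  refine le_antisymm ?_ (pt_nonneg hc x x)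
  refine (pt_le hc (SimpleGraph.Walk.nil : (lattice d).Walk x x)).trans ?_
  simp

theorem pt_comm {d : ℕ} (c : Sym2 (V d) → ℝ) (x y : V d) : pt c x y = pt c y x := by
  unfold pt
  refine Equiv.iInf_congr ⟨fun w => w.reverse, fun w => w.reverse, fun w => by simp,
    fun w => by simp⟩ fun w => ?_
  simp [SimpleGraph.Walk.edges_reverse, List.map_reverse, List.sum_reverse]

theorem pt_triangle {d : ℕ} {c : Sym2 (V d) → ℝ} (hc : ∀ e, 0 ≤ c e) (x y z : V d) :
    pt c x z ≤ pt c x y + pt c y z := by
  refine le_of_forall_pos_lt_add fun δ hδ => ?_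
  obtain ⟨w, hw⟩ : ∃ w : (lattice d).Walk x y, (w.edges.map c).sum < pt c x y + δ / 2 :=
    exists_lt_of_ciInf_lt (lt_add_of_pos_right _ (half_pos hδ))
  obtain ⟨w', hw'⟩ : ∃ w : (lattice d).Walk y z, (w.edges.map c).sum < pt c y z + δ / 2 :=
    exists_lt_of_ciInf_lt (lt_add_of_pos_right _ (half_pos hδ))
  have h := pt_le hc (w.append w')
  rw [SimpleGraph.Walk.edges_append, List.map_append, List.sum_append] at h
  linarith

theorem pt_adj {d : ℕ} {c : Sym2 (V d) → ℝ} (hc : ∀ e, 0 ≤ c e) {x y : V d}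
    (h : (lattice d).Adj x y) : pt c x y ≤ c s(x, y) := by
  refine (pt_le hc (SimpleGraph.Walk.cons h SimpleGraph.Walk.nil)).trans ?_
  simp

theorem pt_mono {d : ℕ} {c c' : Sym2 (V d) → ℝ} (hc : ∀ e, 0 ≤ c e) (h : ∀ e, c e ≤ c' e)
    (x y : V d) : pt c x y ≤ pt c' x y := by
  exact ciInf_mono (len_bdd hc x y) fun w => List.sum_le_sum fun e _ => h e

theorem pt_congr {d : ℕ} {c c' : Sym2 (V d) → ℝ} (h : ∀ e ∈ (lattice d).edgeSet, c e = c' e)
    (x y : V d) : pt c x y = pt c' x y := by
  unfold pt
  refine iInf_congr fun w => ?_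
  rw [List.map_congr_left fun e he => h e (w.edges_subset_edgeSet he)]

/-- the translation -/
private def shHom {d : ℕ} (v : V d) : lattice d →g lattice d where
  toFun z := z + v
  map_rel' := fun {a b} h => (adj_add a b v).2 h

theorem pt_shift {d : ℕ} (c : Sym2 (V d) → ℝ) (v x y : V d) :
    pt c (x + v) (y + v) = pt (fun e => c (e.map (fun z => z + v))) x y := by
  have key : Set.range (fun w : (lattice d).Walk (x + v) (y + v) => (w.edges.map c).sum) =
      Set.range fun w : (lattice d).Walk x y =>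
        (w.edges.map fun e => c (e.map (fun z => z + v))).sum := by
    ext t
    constructor
    · rintro ⟨w, rfl⟩
      refine ⟨(w.map (shHom (-v))).copy (add_neg_cancel_right x v) (add_neg_cancel_right y v),
        ?_⟩
      show ((((w.map (shHom (-v))).copy (add_neg_cancel_right x v)
        (add_neg_cancel_right y v)).edges).map fun e => c (e.map (fun z => z + v))).sum = _
      rw [SimpleGraph.Walk.edges_copy, SimpleGraph.Walk.edges_map, List.map_map]
      congr 1
      refine List.map_congr_left fun e _ => ?_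
      show c (Sym2.map (fun z => z + v) (Sym2.map (fun z => z + -v) e)) = c e
      rw [Sym2.map_map]
      have h : ((fun z : V d => z + v) ∘ fun z => z + -v) = id := by
        funext z
        exact neg_add_cancel_right z v
      rw [h, Sym2.map_id]
      rfl
    · rintro ⟨w, rfl⟩
      refine ⟨w.map (shHom v), ?_⟩
      show (((w.map (shHom v)).edges).map c).sum = _
      rw [SimpleGraph.Walk.edges_map, List.map_map]
      rfl
  show sInf (Set.range _) = sInf (Set.range _)
  rw [key]

theorem le_pt_of_le {d : ℕ} {c : Sym2 (V d) → ℝ} {α : ℝ} (hα : 0 ≤ α) (hc : ∀ e, α ≤ c e)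
    (x y : V d) : α * |((x 0 - y 0 : ℤ) : ℝ)| ≤ pt c x y := by
  refine le_pt fun w => ?_
  induction w with
  | nil => simp
  | @cons u v z h p ih =>
    have h1 : |((u 0 - v 0 : ℤ) : ℝ)| ≤ 1 := by
      have h2 : |u 0 - v 0| ≤ 1 := by
        rcases adj_cases h with h3 | h3 | h3
        · rw [h3]
          show |u 0 - (u 0 + (Pi.single 0 1 : V d) 0)| ≤ 1
          rw [Pi.single_eq_same]
          have h4 : u 0 - (u 0 + 1) = -1 := by ring
          rw [h4]
          norm_num
        · rw [h3]
          show |v 0 + (Pi.single 0 1 : V d) 0 - v 0| ≤ 1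
          rw [Pi.single_eq_same]
          have h4 : v 0 + 1 - v 0 = 1 := by ring
          rw [h4]
          norm_num
        · rw [h3, sub_self]
          norm_num
      exact_mod_cast h2
    have h3 : |((u 0 - z 0 : ℤ) : ℝ)| ≤ |((u 0 - v 0 : ℤ) : ℝ)| + |((v 0 - z 0 : ℤ) : ℝ)| := by
      have h4 := abs_add_le ((u 0 - v 0 : ℤ) : ℝ) ((v 0 - z 0 : ℤ) : ℝ)
      have h5 : ((u 0 - v 0 : ℤ) : ℝ) + ((v 0 - z 0 : ℤ) : ℝ) = ((u 0 - z 0 : ℤ) : ℝ) := by
        push_cast
        ring
      rw [h5] at h4
      exact h4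
    rw [SimpleGraph.Walk.edges_cons, List.map_cons, List.sum_cons]
    calc α * |((u 0 - z 0 : ℤ) : ℝ)| ≤ α * (1 + |((v 0 - z 0 : ℤ) : ℝ)|) := by
          apply mul_le_mul_of_nonneg_left _ hα
          linarith
      _ = α + α * |((v 0 - z 0 : ℤ) : ℝ)| := by ring
      _ ≤ c s(u, v) + (p.edges.map c).sum := add_le_add (hc _) ih

end Pool.Agent.Work.MP_9a767b_pr.H
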