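import Pool.Agent.Work.MP_9a767b_pr.H.FDefs
import Pool.Agent.Work.MP_9a767b_pr.H.Metric

/-!
# FStep

One step of a path after the contraction of the columns `k, …, k + K` (compare `Step.lean`, proved, the
case `K = 1`: adapt it). Let `x`, `y` be adjacent, `ω, η ≥ 0`.

Case `y = x + ax d 1` (`hz s(x, y)`, `mc s(x, y) = x 0`, `y 0 = x 0 + 1`).
* `x 0 < k`: `cK x = x`, `cK y = y`, `s(x, y)` is not `mg` (it is `hz`), `mc < k`: `fg = ω s(x, y) = coE`.
* `k ≤ x 0 < k + K`: `cK x = pj k x` (for `x 0 = k` as `ax d 0 = 0`), `cK y = pj k y = pj k x`: `pt_self`,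
  `coE = 0`.
* `x 0 ≥ k + K`: `cK x = x - ax d K` (also for `x 0 = k + K`, where it is `pj k x`), `cK y = y - ax d K`,
  `e' = s(x - ax d K, y - ax d K)` is `hz`, `mc e' = x 0 - K ≥ k`, `fg e' = ω (shK K e') = ω s(x, y) = coE`.
Case `x = y + ax d 1`: by symmetry (`pt_comm`, `Sym2.eq_swap`).
Case `x 0 = y 0` (not `hz`, `mc = x 0`).
* `x 0 < k`: `fg = ω = coE`.
* `k ≤ x 0 ≤ k + K`: `cK x = pj k x`, `cK y = pj k y`, adjacent (same translation), the pair is `mg`, so
  `fg = η s(pj k x, pj k y) = coE`.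
* `x 0 > k + K`: `e' = s(x - ax d K, y - ax d K)`, `mc e' = x 0 - K > k`, not `mg`, `fg e' = ω s(x, y) = coE`.
`falong`: induction on the walk with `pt_triangle`.
-/

open MeasureTheory ProbabilityTheory Filter Topology

namespace Pool.Agent.Work.MP_9a767b_pr.H

private theorem fs_axz {d : ℕ} (n : ℤ) : (ax d n) 0 = n := by
  simp [ax]

private theorem fs_ax0 {d : ℕ} : ax d 0 = 0 := by
  unfold ax
  exact Pi.single_zero 0

private theorem fs_axadd {d : ℕ} (m n : ℤ) : ax d (m + n) = ax d m + ax d n := by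
  unfold ax
  exact Pi.single_add (f := fun _ : Fin (d + 2) => ℤ) 0 m n

private theorem fs_mc {d : ℕ} (x y : V d) : mc s(x, y) = min (x 0) (y 0) := rfl

private theorem fs_hz {d : ℕ} (x y : V d) : hz s(x, y) ↔ x 0 ≠ y 0 := Iff.rfl

private theorem fs_sh {d : ℕ} (K : ℕ) (x y : V d) :
    shK K s(x - ax d K, y - ax d K) = s(x, y) := by
  show s(x - ax d K + ax d K, y - ax d K + ax d K) = s(x, y)
  rw [sub_add_cancel, sub_add_cancel]

private theorem fs_hzs {d : ℕ} (K : ℕ) (x y : V d) :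
    hz s(x - ax d K, y - ax d K) ↔ hz s(x, y) := by
  rw [fs_hz, fs_hz, Pi.sub_apply, Pi.sub_apply, fs_axz]
  omega

private theorem fs_mcs {d : ℕ} (K : ℕ) (x y : V d) :
    mc s(x - ax d K, y - ax d K) = mc s(x, y) - K := by
  rw [fs_mc, fs_mc, Pi.sub_apply, Pi.sub_apply, fs_axz]
  omega

private theorem fs_low {d : ℕ} {k : ℤ} {K : ℕ} {x : V d} (h : x 0 ≤ k) : cK k K x = x := by
  unfold cK
  rw [if_pos h]

private theorem fs_pjk {d : ℕ} {k : ℤ} {x : V d} (h : x 0 = k) : pj k x = x := by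
  unfold pj
  rw [h, sub_self, fs_ax0, sub_zero]

private theorem fs_mid {d : ℕ} {k : ℤ} {K : ℕ} {x : V d} (h : k ≤ x 0) (h' : x 0 ≤ k + K) :
    cK k K x = pj k x := by
  unfold cK
  split_ifs with h1
  · exact (fs_pjk (le_antisymm h1 h)).symm
  · rfl

private theorem fs_high {d : ℕ} {k : ℤ} {K : ℕ} {x : V d} (h : k + K ≤ x 0) :
    cK k K x = x - ax d K := by
  by_cases h1 : x 0 ≤ k + K
  · rw [fs_mid (by omega) h1]
    unfold pj
    rw [show x 0 - k = (K : ℤ) by omega]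
  · unfold cK
    rw [if_neg (by omega), if_neg h1]

private theorem fs_pj0 {d : ℕ} (k : ℤ) (x : V d) : (pj k x) 0 = k := by
  unfold pj
  rw [Pi.sub_apply, fs_axz]
  omega

private theorem fs_map {d : ℕ} (k : ℤ) (x y : V d) :
    (s(x, y) : Sym2 (V d)).map (pj k) = s(pj k x, pj k y) := rfl

theorem fg_nonneg {d : ℕ} (k : ℤ) (K : ℕ) {ω η : Sym2 (V d) → ℝ} (hω : ∀ e, 0 ≤ ω e)
    (hη : ∀ e, 0 ≤ η e) : ∀ e, 0 ≤ fg k K ω η e := by
  intro e
  unfold fg
  split_ifs
  · exact hη _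
  · exact hω _
  · exact hω _

private theorem fs_stlow {d : ℕ} (k : ℤ) (K : ℕ) {ω η : Sym2 (V d) → ℝ} (hω : ∀ e, 0 ≤ ω e)
    (hη : ∀ e, 0 ≤ η e) {x y : V d} (h : (lattice d).Adj x y) (hx : x 0 ≤ k) (hy : y 0 ≤ k) :
    pt (fg k K ω η) (cK k K x) (cK k K y) ≤ fg k K ω η s(x, y) := by
  rw [fs_low hx, fs_low hy]
  exact pt_adj (fg_nonneg k K hω hη) h

private theorem fs_sthigh {d : ℕ} (k : ℤ) (K : ℕ) {ω η : Sym2 (V d) → ℝ} (hω : ∀ e, 0 ≤ ω e)
    (hη : ∀ e, 0 ≤ η e) {x y : V d} (h : (lattice d).Adj x y) (hx : k + K ≤ x 0)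
    (hy : k + K ≤ y 0) :
    pt (fg k K ω η) (cK k K x) (cK k K y) ≤ fg k K ω η s(x - ax d K, y - ax d K) := by
  rw [fs_high hx, fs_high hy]
  refine pt_adj (fg_nonneg k K hω hη) ((adj_add (x - ax d K) (y - ax d K) (ax d K)).1 ?_)
  rw [sub_add_cancel, sub_add_cancel]
  exact h

private theorem fs_right {d : ℕ} (k : ℤ) (K : ℕ) {ω η : Sym2 (V d) → ℝ} (hω : ∀ e, 0 ≤ ω e)
    (hη : ∀ e, 0 ≤ η e) (x : V d) :
    pt (fg k K ω η) (cK k K x) (cK k K (x + ax d 1)) ≤ coE k K ω η s(x, x + ax d 1) := by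
  have hy0 : (x + ax d 1) 0 = x 0 + 1 := by rw [Pi.add_apply, fs_axz]
  have hhz : hz s(x, x + ax d 1) := by
    rw [fs_hz, hy0]
    omega
  have hmc : mc s(x, x + ax d 1) = x 0 := by
    rw [fs_mc, hy0]
    omega
  by_cases h1 : x 0 < k
  · refine (fs_stlow k K hω hη (adj_ax x) h1.le (by rw [hy0]; omega)).trans (le_of_eq ?_)
    unfold fg coE
    rw [if_neg (fun hm : mg k _ => hm.2 hhz), if_pos (by rw [hmc]; exact h1), if_pos hhz,
      if_neg (by rw [hmc]; omega)]
  · by_cases h2 : x 0 < k + K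
    · have e1 : pj k (x + ax d 1) = pj k x := by
        unfold pj
        rw [hy0, show x 0 + 1 - k = (x 0 - k) + 1 by ring, fs_axadd]
        abel
      rw [fs_mid (by omega) h2.le, fs_mid (by rw [hy0]; omega) (by rw [hy0]; omega), e1,
        pt_self (fg_nonneg k K hω hη)]
      unfold coE
      rw [if_pos hhz, if_pos (by rw [hmc]; omega)]
    · refine (fs_sthigh k K hω hη (adj_ax x) (by omega) (by rw [hy0]; omega)).trans
        (le_of_eq ?_)
      unfold fg coE
      rw [if_neg (fun hm : mg k _ => hm.2 ((fs_hzs K _ _).2 hhz)),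
        if_neg (by rw [fs_mcs, hmc]; omega), fs_sh, if_pos hhz, if_neg (by rw [hmc]; omega)]

theorem fstep {d : ℕ} (k : ℤ) (K : ℕ) {ω η : Sym2 (V d) → ℝ} (hω : ∀ e, 0 ≤ ω e)
    (hη : ∀ e, 0 ≤ η e) {x y : V d} (h : (lattice d).Adj x y) :
    pt (fg k K ω η) (cK k K x) (cK k K y) ≤ coE k K ω η s(x, y) := by
  rcases adj_cases h with rfl | rfl | h0
  · exact fs_right k K hω hη x
  · rw [pt_comm, Sym2.eq_swap]
    exact fs_right k K hω hη y
  · have hhz : ¬ hz s(x, y) := by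
      rw [fs_hz]
      exact fun hf => hf h0
    have hmc : mc s(x, y) = x 0 := by
      rw [fs_mc, ← h0]
      exact min_self _
    by_cases h1 : x 0 < k
    · refine (fs_stlow k K hω hη h h1.le (by rw [← h0]; exact h1.le)).trans (le_of_eq ?_)
      unfold fg coE
      rw [if_neg (fun hm : mg k _ => by have := hm.1; rw [hmc] at this; omega),
        if_pos (by rw [hmc]; exact h1), if_neg hhz, if_neg (by rw [hmc]; omega)]
    · by_cases h2 : x 0 ≤ k + K
      · rw [fs_mid (by omega) h2, fs_mid (by rw [← h0]; omega) (by rw [← h0]; exact h2)]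
        have hadj : (lattice d).Adj (pj k x) (pj k y) := by
          refine (adj_add (pj k x) (pj k y) (ax d (x 0 - k))).1 ?_
          unfold pj
          rw [← h0, sub_add_cancel, sub_add_cancel]
          exact h
        refine (pt_adj (fg_nonneg k K hω hη) hadj).trans (le_of_eq ?_)
        unfold fg coE
        rw [if_pos (show mg k s(pj k x, pj k y) from
          ⟨by rw [fs_mc, fs_pj0, fs_pj0]; exact min_self _, by
            rw [fs_hz, fs_pj0, fs_pj0]; exact fun hf => hf rfl⟩), if_neg hhz,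
          if_pos (by rw [hmc]; omega), fs_map]
      · refine (fs_sthigh k K hω hη h (by omega) (by rw [← h0]; omega)).trans (le_of_eq ?_)
        unfold fg coE
        rw [if_neg (fun hm : mg k _ => by have := hm.1; rw [fs_mcs, hmc] at this; omega),
          if_neg (by rw [fs_mcs, hmc]; omega), fs_sh, if_neg hhz, if_neg (by rw [hmc]; omega)]

theorem falong {d : ℕ} (k : ℤ) (K : ℕ) {ω η : Sym2 (V d) → ℝ} (hω : ∀ e, 0 ≤ ω e)
    (hη : ∀ e, 0 ≤ η e) {x y : V d} (w : (lattice d).Walk x y) :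
    pt (fg k K ω η) (cK k K x) (cK k K y) ≤ (w.edges.map (coE k K ω η)).sum := by
  induction w with
  | nil =>
    rw [pt_self (fg_nonneg k K hω hη)]
    simp
  | @cons u v z h p ih =>
    rw [SimpleGraph.Walk.edges_cons, List.map_cons, List.sum_cons]
    exact (pt_triangle (fg_nonneg k K hω hη) _ (cK k K v) _).trans
      (add_le_add (fstep k K hω hη h) ih)

end Pool.Agent.Work.MP_9a767b_pr.H
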