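import Pool.Agent.Work.MP_9a767b_pr.H.FExp
import Pool.Agent.Work.MP_9a767b_pr.H.FCoSum
import Pool.Agent.Work.MP_9a767b_pr.H.FChi

/-!
# FSum

The main inequality for fixed `ω ≥ α` (compare `GlueSum.lean`, proved). Let `w` be a walk from `0` to
`(n + K) e_1`, `0 ≤ k ≤ n`. Then `cK k K 0 = 0` and `cK k K (ax d (n + K)) = ax d n` (for `k < n` the first
coordinate `n + K > k + K`; for `k = n` it is `k + K > k` and `pj k` gives `ax d k = ax d n`). So `fexp` gives
`∫ pt (fg k K ω η) 0 (ax d n) ≤ ∑ coK`. Sum over `k`, exchange the sums, `fco_sum` for each edge (with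
`m = ∫ x dν ≥ α`, as `ν (Iio α) = 0`), `fchi_walk` for each `k`; with `lam = (K + 1) (m - α) / α`:
`∑ k ≤ (n + 1 + lam) * len w - (1 + lam / K) α K (n + 1)`, and `(1 + lam / K) K = K + lam`.
This for all `w`, so `le_pt` (divide by `n + 1 + lam > 0`).
-/

open MeasureTheory ProbabilityTheory Filter Topology

namespace Pool.Agent.Work.MP_9a767b_pr.H

private theorem cK_zero {d : ℕ} (k K : ℕ) : cK (k : ℤ) K (0 : V d) = 0 := by
  unfold cK
  exact if_pos (by simp)

private theorem cK_end {d : ℕ} {n k K : ℕ} (hK : 1 ≤ K) (hk : k ≤ n) :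
    cK (k : ℤ) K (ax d ((n + K : ℕ) : ℤ)) = ax d n := by
  have h0 : ax d ((n + K : ℕ) : ℤ) 0 = ((n + K : ℕ) : ℤ) := by
    unfold ax
    exact Pi.single_eq_same 0 _
  have h1 : ¬ (ax d ((n + K : ℕ) : ℤ) 0 ≤ (k : ℤ)) := by
    rw [h0]
    push_cast
    omega
  unfold cK
  rw [if_neg h1]
  by_cases h2 : ax d ((n + K : ℕ) : ℤ) 0 ≤ (k : ℤ) + K
  · rw [if_pos h2]
    rw [h0] at h2
    have h3 : k = n := by
      push_cast at h2
      omega
    subst h3
    unfold pj
    rw [h0]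
    unfold ax
    rw [← Pi.single_sub]
    congr 1
    ring
  · rw [if_neg h2]
    unfold ax
    rw [← Pi.single_sub]
    push_cast
    congr 1
    ring

private theorem sum_list {A : Type} (l : List A) (f : ℕ → A → ℝ) (s : Finset ℕ) :
    ∑ k ∈ s, (l.map (f k)).sum = (l.map (fun e => ∑ k ∈ s, f k e)).sum := by
  induction l with
  | nil => simp
  | cons a l ih =>
    simp only [List.map_cons, List.sum_cons]
    rw [Finset.sum_add_distrib, ih]

private theorem list_le {A : Type} (l : List A) (f h : A → ℝ) (hfh : ∀ a, f a ≤ h a) :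
    (l.map f).sum ≤ (l.map h).sum := by
  induction l with
  | nil => simp
  | cons a l ih =>
    simp only [List.map_cons, List.sum_cons]
    exact add_le_add (hfh a) ih

private theorem list_lin {A : Type} (l : List A) (f h : A → ℝ) (a b : ℝ) :
    (l.map (fun e => a * f e - b * h e)).sum = a * (l.map f).sum - b * (l.map h).sum := by
  induction l with
  | nil => simp
  | cons x l ih =>
    simp only [List.map_cons, List.sum_cons]
    rw [ih]
    ring

theorem mean_ge (ν : Measure ℝ) [IsProbabilityMeasure ν] {α : ℝ} (h : ν (Set.Iio α) = 0)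
    (hi : Integrable (fun x : ℝ => x) ν) : α ≤ ∫ x, x ∂ν := by
  have h1 : ∀ᵐ x ∂ν, α ≤ x := by
    rw [ae_iff]
    have e : {x : ℝ | ¬ α ≤ x} = Set.Iio α := by
      ext x
      simp
    rw [e]
    exact h
  have h2 := integral_mono_ae (integrable_const α) hi h1
  rw [integral_const, smul_eq_mul, probReal_univ, one_mul] at h2
  exact h2

theorem fsum {d : ℕ} (ν : Measure ℝ) [IsProbabilityMeasure ν] {α : ℝ} (hα : 0 < α)
    (h : ν (Set.Iio α) = 0) (hi : Integrable (fun x : ℝ => x) ν) (n K : ℕ) (hK : 1 ≤ K)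
    {ω : Sym2 (V d) → ℝ} (hω : ∀ e, α ≤ ω e) :
    ∑ k ∈ Finset.range (n + 1), ∫ η, pt (fg (k : ℤ) K ω η) 0 (ax d n) ∂(Q d ν) ≤
      ((n : ℝ) + 1 + ((K : ℝ) + 1) * ((∫ x, x ∂ν) - α) / α) * pt ω 0 (ax d ((n + K : ℕ) : ℤ)) -
        ((K : ℝ) + ((K : ℝ) + 1) * ((∫ x, x ∂ν) - α) / α) * α * ((n : ℝ) + 1) := by
  have hm := mean_ge ν h hi
  obtain ⟨m, hmdef⟩ : ∃ m, m = ∫ x, x ∂ν := ⟨_, rfl⟩
  rw [← hmdef] at hm ⊢
  obtain ⟨lam, hlam⟩ : ∃ lam, lam = ((K : ℝ) + 1) * (m - α) / α := ⟨_, rfl⟩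
  rw [← hlam]
  have hlam0 : 0 ≤ lam := by
    rw [hlam]
    have : 0 ≤ m - α := by linarith
    positivity
  have hKr : (1 : ℝ) ≤ K := by exact_mod_cast hK
  have hω0 : ∀ e, 0 ≤ ω e := fun e => hα.le.trans (hω e)
  have hν0 : ν (Set.Iio 0) = 0 := measure_mono_null (Set.Iio_subset_Iio hα.le) h
  have hD : (0 : ℝ) < (n : ℝ) + 1 + lam := by
    have hn : (0 : ℝ) ≤ n := Nat.cast_nonneg n
    linarith
  have key : (∑ k ∈ Finset.range (n + 1), ∫ η, pt (fg (k : ℤ) K ω η) 0 (ax d n) ∂(Q d ν) +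
      ((K : ℝ) + lam) * α * ((n : ℝ) + 1)) / ((n : ℝ) + 1 + lam) ≤
      pt ω 0 (ax d ((n + K : ℕ) : ℤ)) := by
    refine le_pt fun w => ?_
    rw [div_le_iff₀ hD]
    have s1 : ∑ k ∈ Finset.range (n + 1), ∫ η, pt (fg (k : ℤ) K ω η) 0 (ax d n) ∂(Q d ν) ≤
        ∑ k ∈ Finset.range (n + 1), (w.edges.map (coK (k : ℤ) K m ω)).sum := by
      refine Finset.sum_le_sum fun k hk => ?_
      have hkn : k ≤ n := Nat.lt_succ_iff.1 (Finset.mem_range.1 hk)
      have h1 := fexp ν hν0 hi (k : ℤ) K hω0 w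
      rw [cK_zero, cK_end hK hkn, ← hmdef] at h1
      exact h1
    have s2 : ∑ k ∈ Finset.range (n + 1), (w.edges.map (coK (k : ℤ) K m ω)).sum ≤
        (w.edges.map (fun e => ((n : ℝ) + 1 + lam) * ω e -
          (1 + lam / K) * α * ∑ k ∈ Finset.range (n + 1), chK (k : ℤ) K e)).sum := by
      rw [sum_list w.edges (fun k => coK (k : ℤ) K m ω) (Finset.range (n + 1))]
      refine list_le _ _ _ fun e => ?_
      rw [hlam]
      exact fco_sum n K hK hα hm e (hω e)
    have s3 : (w.edges.map (fun e => ((n : ℝ) + 1 + lam) * ω e -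
          (1 + lam / K) * α * ∑ k ∈ Finset.range (n + 1), chK (k : ℤ) K e)).sum =
        ((n : ℝ) + 1 + lam) * (w.edges.map ω).sum -
          (1 + lam / K) * α * ∑ k ∈ Finset.range (n + 1), (w.edges.map (chK (k : ℤ) K)).sum := by
      rw [sum_list w.edges (fun k => chK (k : ℤ) K) (Finset.range (n + 1))]
      exact list_lin _ _ _ _ _
    have s4 : (K : ℝ) * ((n : ℝ) + 1) ≤
        ∑ k ∈ Finset.range (n + 1), (w.edges.map (chK (k : ℤ) K)).sum := by
      have h1 : ∑ k ∈ Finset.range (n + 1), (K : ℝ) ≤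
          ∑ k ∈ Finset.range (n + 1), (w.edges.map (chK (k : ℤ) K)).sum :=
        Finset.sum_le_sum fun k hk =>
          fchi_walk n K k hK (Nat.lt_succ_iff.1 (Finset.mem_range.1 hk)) w
      have h2 : ∑ k ∈ Finset.range (n + 1), (K : ℝ) = (K : ℝ) * ((n : ℝ) + 1) := by
        rw [Finset.sum_const, Finset.card_range, nsmul_eq_mul]
        push_cast
        ring
      rw [h2] at h1
      exact h1
    have hc : 0 ≤ (1 + lam / K) * α := by positivity
    have s5 := mul_le_mul_of_nonneg_left s4 hc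
    have s6 : (1 + lam / K) * α * ((K : ℝ) * ((n : ℝ) + 1)) =
        ((K : ℝ) + lam) * α * ((n : ℝ) + 1) := by
      have hK0 : (K : ℝ) ≠ 0 := by linarith
      field_simp
    linarith
  rw [div_le_iff₀ hD] at key
  linarith

end Pool.Agent.Work.MP_9a767b_pr.H
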