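import Pool.Agent.Work.MP_9a767b_pr.H.Int

/-!
# GSub

Elementary facts on `g`, for `ν (Iio 0) = 0` and `ν` integrable.

* `g_zero`: `ax d 0 = 0`, `pt_self` almost surely (`ae_ge`).
* `g_sub`: `pt ω 0 (ax d (m + n)) ≤ pt ω 0 (ax d m) + pt ω (ax d m) (ax d (m + n))` almost surely
  (`pt_triangle`, `ae_ge`), `ax d (m + n) = ax d n + ax d m`, `pt_shift` with `v = ax d m`, and the map
  `ω ↦ (e ↦ ω (e.map (· + ax d m)))` preserves `Q d ν` (`Measure.map_infinitePi_infinitePi_of_inj`: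
  `e ↦ e.map (· + v)` is injective).
* `g_ge`: `le_pt_of_le` almost surely.
* `g_le`: `g_sub` and induction, with `g 1 ≤ ∫ x dν` (`pt_adj`, `adj_ax`, `integrable_eval`).
-/

open MeasureTheory ProbabilityTheory Filter Topology

namespace Pool.Agent.Work.MP_9a767b_pr.H

private theorem ax_zero_aux (d : ℕ) : ax d 0 = 0 := by
  simp [ax]

private theorem ax_add_aux (d : ℕ) (m n : ℤ) : ax d (m + n) = ax d n + ax d m := by
  unfold ax
  rw [← Pi.single_add, add_comm n m]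

private theorem ae_nonneg_aux (d : ℕ) (ν : Measure ℝ) [IsProbabilityMeasure ν] {α : ℝ}
    (h : ν (Set.Iio α) = 0) : ∀ᵐ ω ∂(Q d ν), ∀ e, α ≤ ω e :=
  ae_ge (d := d) (fun _ => ν) (fun _ => h)

private theorem int_pt_aux (d : ℕ) (ν : Measure ℝ) [IsProbabilityMeasure ν] (h : ν (Set.Iio 0) = 0)
    (hi : Integrable (fun x : ℝ => x) ν) (x y : V d) :
    Integrable (fun ω => pt ω x y) (Q d ν) :=
  integrable_pt (d := d) (fun _ => ν) (fun _ => h) (fun _ => hi) x y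

private theorem shift_map_aux (d : ℕ) (ν : Measure ℝ) [IsProbabilityMeasure ν] (v : V d) :
    MeasurePreserving (fun (ω : Sym2 (V d) → ℝ) (e : Sym2 (V d)) => ω (e.map (fun z => z + v)))
      (Q d ν) (Q d ν) := by
  refine ⟨?_, ?_⟩
  · exact measurable_pi_lambda _ (fun e => measurable_pi_apply _)
  · have hinj : Function.Injective (fun e : Sym2 (V d) => e.map (fun z => z + v)) :=
      Sym2.map.injective (add_left_injective v)
    have := Measure.map_infinitePi_infinitePi_of_inj (P := fun _ : Sym2 (V d) => ν) hinj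
    exact this

private theorem int_shift_aux (d : ℕ) (ν : Measure ℝ) [IsProbabilityMeasure ν] (v x y : V d) :
    ∫ ω, pt ω (x + v) (y + v) ∂(Q d ν) = ∫ ω, pt ω x y ∂(Q d ν) := by
  have hmp := shift_map_aux d ν v
  calc ∫ ω, pt ω (x + v) (y + v) ∂(Q d ν)
      = ∫ ω, pt (fun e => ω (e.map (fun z => z + v))) x y ∂(Q d ν) := by
        refine integral_congr_ae (Filter.Eventually.of_forall (fun ω => ?_))
        exact pt_shift ω v x y
    _ = ∫ ω, pt ω x y ∂((Q d ν).map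
          (fun (ω : Sym2 (V d) → ℝ) (e : Sym2 (V d)) => ω (e.map (fun z => z + v)))) := by
        rw [integral_map hmp.measurable.aemeasurable]
        exact (measurable_pt x y).aestronglyMeasurable
    _ = ∫ ω, pt ω x y ∂(Q d ν) := by rw [hmp.map_eq]

theorem g_zero (d : ℕ) (ν : Measure ℝ) [IsProbabilityMeasure ν] (h : ν (Set.Iio 0) = 0) :
    g d ν 0 = 0 := by
  unfold g
  have : (fun ω : Sym2 (V d) → ℝ => pt ω 0 (ax d ((0 : ℕ) : ℤ))) =ᵐ[Q d ν] fun _ => (0 : ℝ) := by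
    filter_upwards [ae_nonneg_aux d ν h] with ω hω
    rw [Nat.cast_zero, ax_zero_aux]
    exact pt_self hω 0
  rw [integral_congr_ae this]
  simp

theorem g_sub (d : ℕ) (ν : Measure ℝ) [IsProbabilityMeasure ν] (h : ν (Set.Iio 0) = 0)
    (hi : Integrable (fun x : ℝ => x) ν) (m n : ℕ) : g d ν (m + n) ≤ g d ν m + g d ν n := by
  have hae : ∀ᵐ ω ∂(Q d ν), pt ω 0 (ax d ((m + n : ℕ) : ℤ)) ≤
      pt ω 0 (ax d (m : ℤ)) + pt ω (0 + ax d (m : ℤ)) (ax d (n : ℤ) + ax d (m : ℤ)) := by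
    filter_upwards [ae_nonneg_aux d ν h] with ω hω
    have h1 : ax d ((m + n : ℕ) : ℤ) = ax d (n : ℤ) + ax d (m : ℤ) := by
      rw [Nat.cast_add]
      exact ax_add_aux d _ _
    rw [h1, zero_add]
    exact pt_triangle hω _ _ _
  have h2 : g d ν n = ∫ ω, pt ω (0 + ax d (m : ℤ)) (ax d (n : ℤ) + ax d (m : ℤ)) ∂(Q d ν) :=
    (int_shift_aux d ν (ax d (m : ℤ)) 0 (ax d (n : ℤ))).symm
  rw [h2]
  unfold g
  rw [← integral_add (int_pt_aux d ν h hi _ _) (int_pt_aux d ν h hi _ _)]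
  exact integral_mono_ae (int_pt_aux d ν h hi _ _)
    ((int_pt_aux d ν h hi _ _).add (int_pt_aux d ν h hi _ _)) hae

theorem g_ge (d : ℕ) (ν : Measure ℝ) [IsProbabilityMeasure ν] {α : ℝ} (hα : 0 ≤ α)
    (h : ν (Set.Iio α) = 0) (hi : Integrable (fun x : ℝ => x) ν) (n : ℕ) :
    α * n ≤ g d ν n := by
  have h0 : ν (Set.Iio 0) = 0 := measure_mono_null (Set.Iio_subset_Iio hα) h
  have hae : ∀ᵐ ω ∂(Q d ν), α * n ≤ pt ω 0 (ax d (n : ℤ)) := by
    filter_upwards [ae_nonneg_aux d ν h] with ω hω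
    have h1 := le_pt_of_le (c := ω) hα hω 0 (ax d (n : ℤ))
    have h2 : |(((0 : V d) 0 - (ax d (n : ℤ)) 0 : ℤ) : ℝ)| = n := by
      simp [ax]
    rw [h2] at h1
    exact h1
  have hq : IsProbabilityMeasure (Q d ν) := q_prob d ν
  have h3 : ∫ _ω, (α * n : ℝ) ∂(Q d ν) = α * n := by simp
  rw [← h3]
  exact integral_mono_ae (integrable_const _) (int_pt_aux d ν h0 hi _ _) hae

private theorem g_one_aux (d : ℕ) (ν : Measure ℝ) [IsProbabilityMeasure ν] (h : ν (Set.Iio 0) = 0)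
    (hi : Integrable (fun x : ℝ => x) ν) : g d ν 1 ≤ ∫ x, x ∂ν := by
  have h1 := integrable_eval (d := d) (fun _ => ν) s((0 : V d), 0 + ax d 1) hi
  rw [← h1.2]
  have hae : ∀ᵐ ω ∂(Q d ν), pt ω 0 (ax d ((1 : ℕ) : ℤ)) ≤ ω s((0 : V d), 0 + ax d 1) := by
    filter_upwards [ae_nonneg_aux d ν h] with ω hω
    have h2 := pt_adj hω (adj_ax (0 : V d))
    rw [Nat.cast_one]
    rw [zero_add] at h2 ⊢
    exact h2
  exact integral_mono_ae (int_pt_aux d ν h hi _ _) h1.1 hae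

theorem g_le (d : ℕ) (ν : Measure ℝ) [IsProbabilityMeasure ν] (h : ν (Set.Iio 0) = 0)
    (hi : Integrable (fun x : ℝ => x) ν) (n : ℕ) : g d ν n ≤ n * ∫ x, x ∂ν := by
  induction n with
  | zero => rw [g_zero d ν h]; simp
  | succ n ih =>
    have h1 := g_sub d ν h hi n 1
    have h2 := g_one_aux d ν h hi
    push_cast
    linarith

end Pool.Agent.Work.MP_9a767b_pr.H
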