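import Pool.Agent.Work.MP_9a767b_pr.H.Defs

/-!
# Star

The law of `min (c₁ X) (c₂ Y)`, `X`, `Y` independent of law `ν`.

* `star_prob`: `isProbabilityMeasure_map`.
* `star_Ioi`: the preimage of `Ioi t` is `Ioi (t / c₁) ×ˢ Ioi (t / c₂)` (`lt_min_iff`, `div_lt_iff₀'`),
  `Measure.prod_prod`.
* `star_Iio`: `min (c₁ x) (c₂ y) < α` implies `x < α` or `y < α` (as `α ≤ x` gives `α ≤ c₁ x` for
  `α ≥ 0`, `c₁ ≥ 1`); the two sets `Iio α ×ˢ univ`, `univ ×ˢ Iio α` are null.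
* `star_int`: almost surely `0 ≤ min (c₁ x) (c₂ y) ≤ c₁ x`, and `c₁ x` is integrable for `ν.prod ν`
  (`Integrable.comp_fst` or `integrable_prod` style); `integrable_map_measure`, `Integrable.mono'`.
-/

open MeasureTheory ProbabilityTheory Filter Topology

namespace Pool.Agent.Work.MP_9a767b_pr.H

instance star_prob (ν : Measure ℝ) [IsProbabilityMeasure ν] (c₁ c₂ : ℝ) :
    IsProbabilityMeasure (star ν c₁ c₂) := by
  unfold star
  exact Measure.isProbabilityMeasure_map (by fun_prop)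

theorem star_Ioi (ν : Measure ℝ) [IsProbabilityMeasure ν] {c₁ c₂ : ℝ} (h₁ : 0 < c₁) (h₂ : 0 < c₂)
    (t : ℝ) : star ν c₁ c₂ (Set.Ioi t) = ν (Set.Ioi (t / c₁)) * ν (Set.Ioi (t / c₂)) := by
  unfold star
  rw [Measure.map_apply (by fun_prop) measurableSet_Ioi, ← Measure.prod_prod]
  congr 1
  ext p
  simp only [Set.mem_preimage, Set.mem_Ioi, Set.mem_prod, lt_min_iff, div_lt_iff₀' h₁,
    div_lt_iff₀' h₂]

theorem star_Iio (ν : Measure ℝ) [IsProbabilityMeasure ν] {α c₁ c₂ : ℝ} (hα : 0 ≤ α)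
    (h : ν (Set.Iio α) = 0) (h₁ : 1 ≤ c₁) (h₂ : 1 ≤ c₂) : star ν c₁ c₂ (Set.Iio α) = 0 := by
  unfold star
  rw [Measure.map_apply (by fun_prop) measurableSet_Iio]
  have hsub : (fun p : ℝ × ℝ => min (c₁ * p.1) (c₂ * p.2)) ⁻¹' Set.Iio α ⊆
      (Set.Iio α ×ˢ Set.univ) ∪ (Set.univ ×ˢ Set.Iio α) := by
    intro p hp
    simp only [Set.mem_preimage, Set.mem_Iio, min_lt_iff] at hp
    simp only [Set.mem_union, Set.mem_prod, Set.mem_Iio, Set.mem_univ, and_true, true_and]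
    rcases hp with hp | hp
    · left
      by_contra hc
      push Not at hc
      nlinarith
    · right
      by_contra hc
      push Not at hc
      nlinarith
  refine measure_mono_null hsub (measure_union_null ?_ ?_)
  · rw [Measure.prod_prod, h, zero_mul]
  · rw [Measure.prod_prod, h, mul_zero]

theorem star_int (ν : Measure ℝ) [IsProbabilityMeasure ν] {c₁ c₂ : ℝ} (h : ν (Set.Iio 0) = 0)
    (hi : Integrable (fun x : ℝ => x) ν) (h₁ : 0 ≤ c₁) (h₂ : 0 ≤ c₂) :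
    Integrable (fun x : ℝ => x) (star ν c₁ c₂) := by
  unfold star
  rw [integrable_map_measure (by fun_prop) (by fun_prop)]
  have hi1 : Integrable (fun p : ℝ × ℝ => c₁ * p.1) (ν.prod ν) :=
    (hi.comp_fst ν).const_mul c₁
  refine hi1.mono' (by fun_prop) ?_
  have hae : ∀ᵐ x ∂ν, 0 ≤ x := by
    rw [ae_iff]
    have : {a : ℝ | ¬ 0 ≤ a} = Set.Iio 0 := by
      ext a
      simp
    rw [this, h]
  have h1 : ∀ᵐ p ∂(ν.prod ν), 0 ≤ p.1 := Measure.quasiMeasurePreserving_fst.ae hae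
  have h2 : ∀ᵐ p ∂(ν.prod ν), 0 ≤ p.2 := Measure.quasiMeasurePreserving_snd.ae hae
  filter_upwards [h1, h2] with p hp1 hp2
  have e1 : 0 ≤ c₁ * p.1 := mul_nonneg h₁ hp1
  have e2 : 0 ≤ c₂ * p.2 := mul_nonneg h₂ hp2
  simp only [Function.comp]
  rw [Real.norm_eq_abs, abs_of_nonneg (le_min e1 e2)]
  exact min_le_left _ _

instance kap_prob {d : ℕ} (ν : Measure ℝ) [IsProbabilityMeasure ν] (k : ℤ) (c₁ c₂ : ℝ)
    (e : Sym2 (V d)) : IsProbabilityMeasure (kap ν k c₁ c₂ e) := by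
  unfold kap
  split_ifs
  · infer_instance
  · infer_instance

end Pool.Agent.Work.MP_9a767b_pr.H
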