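import Pool.Agent.Work.MP_9a767b_pr.H.Meas
import Pool.Agent.Work.MP_9a767b_pr.H.Star

/-!
# GlLaw

The law of the glued weights is the product of the laws `kap`.

Write `I = Sym2 (V d)` and let `R` be the product measure on `I × Bool → ℝ` of the laws `ν`
(`Measure.infinitePi`). For `W : I × Bool → ℝ` the configuration `e ↦ W (e, true)` has the law `Q d ν`
(`Measure.map_infinitePi_infinitePi_of_inj`, in Mathlib.Probability.Independence.InfinitePi).
Put `s₂ e = if mc e < k then e else sh e` and `f : I × Bool → I × Bool`,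
`f (e, true) = (s₂ e, true)`, `f (e, false) = if mg k e then (e, true) else (e, false)`.
`f` is injective: `mc (sh e) = mc e + 1`, `sh` is injective, so `s₂` is injective with values in
`mc < k` or `mc ≥ k + 1`, while `mg k e` gives `mc e = k`.
For `ω = fun e => W (e, true)` and `W' = W ∘ f`:
`gl k c₁ c₂ ω e = F e (W' (e, false)) (W' (e, true))` with
`F e x y = if mg k e then min (c₁ * x) (c₂ * y) else y` (if `mg k e` then `mc e = k` and `s₂ e = sh e`).
So the law of `gl` is the image of `R.map (fun W => W ∘ f)`, which is `R` again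
(`Measure.map_infinitePi_infinitePi_of_inj`), under `W' ↦ (e ↦ F e (W' (e, false)) (W' (e, true)))`. By
`Measure.infinitePi_map_curry` and `Measure.infinitePi_map_pi` this is the product over `e` of the images
of `Measure.infinitePi (fun _ : Bool => ν)` under `y ↦ F e (y false) (y true)`; if `mg k e` this is
`star ν c₁ c₂` (`Measure.infinitePi_map_eval_prod`), otherwise `ν` (`Measure.infinitePi_map_eval`).
-/

open MeasureTheory ProbabilityTheory Filter Topology

namespace Pool.Agent.Work.MP_9a767b_pr.H

private theorem glLaw_mc_sh {d : ℕ} (e : Sym2 (V d)) : mc (sh e) = mc e + 1 := by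
  induction e using Sym2.ind with
  | _ x y =>
    show min ((x + ax d 1) 0) ((y + ax d 1) 0) = min (x 0) (y 0) + 1
    have h1 : ax d 1 0 = 1 := by
      unfold ax
      rw [Pi.single_eq_same]
    rw [Pi.add_apply, Pi.add_apply, h1, min_add_add_right]

private theorem glLaw_sh_inj {d : ℕ} : Function.Injective (sh : Sym2 (V d) → Sym2 (V d)) :=
  Sym2.map.injective (add_left_injective (ax d 1))

open Classical in
/-- the pair which carries the weight of `e` after the shift -/
private noncomputable def glLawS {d : ℕ} (k : ℤ) (e : Sym2 (V d)) : Sym2 (V d) :=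
  if mc e < k then e else sh e

private theorem glLaw_s_inj {d : ℕ} (k : ℤ) : Function.Injective (glLawS k : Sym2 (V d) → _) := by
  intro e e' h
  unfold glLawS at h
  split_ifs at h with h1 h2 h2
  · exact h
  · exfalso
    rw [h, glLaw_mc_sh] at h1
    omega
  · exfalso
    rw [← h, glLaw_mc_sh] at h2
    omega
  · exact glLaw_sh_inj h

private theorem glLaw_s_mc {d : ℕ} (k : ℤ) (e : Sym2 (V d)) : mc (glLawS k e) ≠ k := by
  unfold glLawS
  split_ifs with h1
  · omega
  · rw [glLaw_mc_sh]
    omega

open Classical in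
/-- the injection of the pairs -/
private noncomputable def glLawF {d : ℕ} (k : ℤ) (p : Sym2 (V d) × Bool) : Sym2 (V d) × Bool :=
  if p.2 = true then (glLawS k p.1, true) else (p.1, decide (mg k p.1))

private theorem glLaw_f_inj {d : ℕ} (k : ℤ) :
    Function.Injective (glLawF k : Sym2 (V d) × Bool → _) := by
  classical
  rintro ⟨e, b⟩ ⟨e', b'⟩ h
  unfold glLawF at h
  cases b <;> cases b'
  · rw [if_neg (by simp), if_neg (by simp)] at h
    rw [Prod.mk.injEq] at h
    exact Prod.ext h.1 rfl
  · rw [if_neg (by simp), if_pos rfl] at h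
    rw [Prod.mk.injEq] at h
    exfalso
    have h1 : mg k e := of_decide_eq_true h.2
    apply glLaw_s_mc k e'
    rw [← h.1]
    exact h1.1
  · rw [if_pos rfl, if_neg (by simp)] at h
    rw [Prod.mk.injEq] at h
    exfalso
    have h1 : mg k e' := of_decide_eq_true h.2.symm
    apply glLaw_s_mc k e
    rw [h.1]
    exact h1.1
  · rw [if_pos rfl, if_pos rfl] at h
    rw [Prod.mk.injEq] at h
    exact Prod.ext (glLaw_s_inj k h.1) rfl

open Classical in
/-- the local function -/
private noncomputable def glLawG {d : ℕ} (k : ℤ) (c₁ c₂ : ℝ) (e : Sym2 (V d)) (y : Bool → ℝ) : ℝ :=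
  if mg k e then min (c₁ * y false) (c₂ * y true) else y true

private theorem glLaw_g_meas {d : ℕ} (k : ℤ) (c₁ c₂ : ℝ) (e : Sym2 (V d)) :
    Measurable (glLawG k c₁ c₂ e) := by
  unfold glLawG
  by_cases h : mg k e
  · simp only [if_pos h]
    fun_prop
  · simp only [if_neg h]
    exact measurable_pi_apply true

private theorem glLaw_eq {d : ℕ} (k : ℤ) (c₁ c₂ : ℝ) (W : Sym2 (V d) × Bool → ℝ)
    (e : Sym2 (V d)) : gl k c₁ c₂ (fun e => W (e, true)) e =
      glLawG k c₁ c₂ e (fun b => W (glLawF k (e, b))) := by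
  classical
  unfold gl glLawG glLawF
  by_cases h : mg k e
  · rw [if_pos h, if_pos h]
    have h1 : ¬ mc e < k := by
      have := h.1
      omega
    simp only [Bool.false_eq_true, if_false, if_true, glLawS, if_neg h1, decide_eq_true h]
  · rw [if_neg h, if_neg h]
    simp only [if_true, glLawS]
    split_ifs <;> rfl

private theorem glLaw_loc {d : ℕ} (ν : Measure ℝ) [IsProbabilityMeasure ν] (k : ℤ) (c₁ c₂ : ℝ)
    (e : Sym2 (V d)) : (Measure.infinitePi (fun _ : Bool => ν)).map (glLawG k c₁ c₂ e) =
      kap ν k c₁ c₂ e := by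
  unfold kap
  by_cases h : mg k e
  · rw [if_pos h]
    have h1 : glLawG k c₁ c₂ e = (fun p : ℝ × ℝ => min (c₁ * p.1) (c₂ * p.2)) ∘
        (fun y : Bool → ℝ => (y false, y true)) := by
      funext y
      unfold glLawG
      rw [if_pos h]
      rfl
    have h2 : Measurable (fun p : ℝ × ℝ => min (c₁ * p.1) (c₂ * p.2)) :=
      (measurable_fst.const_mul c₁).min (measurable_snd.const_mul c₂)
    have h3 : Measurable (fun y : Bool → ℝ => (y false, y true)) :=
      (measurable_pi_apply false).prodMk (measurable_pi_apply true)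
    rw [h1, ← Measure.map_map h2 h3,
      Measure.infinitePi_map_eval_prod (P := fun _ : Bool => ν) (by decide : false ≠ true)]
    rfl
  · rw [if_neg h]
    have h1 : glLawG k c₁ c₂ e = fun y : Bool → ℝ => y true := by
      funext y
      unfold glLawG
      rw [if_neg h]
    rw [h1]
    exact Measure.infinitePi_map_eval (fun _ : Bool => ν) true

theorem gl_law (d : ℕ) (ν : Measure ℝ) [IsProbabilityMeasure ν] (k : ℤ) (c₁ c₂ : ℝ) :
    (Q d ν).map (gl k c₁ c₂) =
      Measure.infinitePi (fun e : Sym2 (V d) => kap ν k c₁ c₂ e) := by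
  have hm1 : Measurable (fun (W : Sym2 (V d) × Bool → ℝ) (e : Sym2 (V d)) => W (e, true)) :=
    measurable_pi_lambda _ fun e => measurable_pi_apply _
  have hm2 : Measurable (fun (W : Sym2 (V d) × Bool → ℝ) (p : Sym2 (V d) × Bool) =>
      W (glLawF k p)) := measurable_pi_lambda _ fun e => measurable_pi_apply _
  have hm3 : Measurable (fun (x : Sym2 (V d) → Bool → ℝ) (e : Sym2 (V d)) =>
      glLawG k c₁ c₂ e (x e)) :=
    measurable_pi_lambda _ fun e => (glLaw_g_meas k c₁ c₂ e).comp (measurable_pi_apply e)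
  have h1 : Q d ν = (Measure.infinitePi (fun _ : Sym2 (V d) × Bool => ν)).map
      (fun W e => W (e, true)) :=
    (Measure.map_infinitePi_infinitePi_of_inj (P := fun _ : Sym2 (V d) × Bool => ν)
      (f := fun e : Sym2 (V d) => (e, true)) fun a b h => (Prod.mk.inj h).1).symm
  have h2 : (gl k c₁ c₂) ∘ (fun (W : Sym2 (V d) × Bool → ℝ) (e : Sym2 (V d)) => W (e, true)) =
      (fun (x : Sym2 (V d) → Bool → ℝ) (e : Sym2 (V d)) => glLawG k c₁ c₂ e (x e)) ∘
      (MeasurableEquiv.curry (Sym2 (V d)) Bool ℝ) ∘
      (fun (W : Sym2 (V d) × Bool → ℝ) (p : Sym2 (V d) × Bool) => W (glLawF k p)) := by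
    funext W e
    exact glLaw_eq k c₁ c₂ W e
  rw [h1, Measure.map_map (measurable_gl k c₁ c₂) hm1, h2,
    ← Measure.map_map hm3 ((MeasurableEquiv.measurable _).comp hm2),
    ← Measure.map_map (MeasurableEquiv.measurable _) hm2,
    Measure.map_infinitePi_infinitePi_of_inj (P := fun _ : Sym2 (V d) × Bool => ν)
      (glLaw_f_inj k),
    Measure.infinitePi_map_curry (fun (_ : Sym2 (V d)) (_ : Bool) => ν),
    Measure.infinitePi_map_pi (fun _ : Sym2 (V d) => Measure.infinitePi (fun _ : Bool => ν))
      (fun e => glLaw_g_meas k c₁ c₂ e)]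
  congr 1
  funext e
  exact glLaw_loc ν k c₁ c₂ e

end Pool.Agent.Work.MP_9a767b_pr.H
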