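import Pool.Agent.Work.MP_9a767b_pr.H.Dom
import Pool.Agent.Work.MP_9a767b_pr.H.GlLaw

/-!
# GlueG

`g d ν n` is at most the expectation of the passage time for the glued weights.

`kap ν k c₁ c₂ e` is `star ν c₁ c₂` or `ν`; both are probability measures without mass on `Iio 0` (even
on `Iio α`, `star_Iio`; `Iio 0 ⊆ Iio α`), integrable (`star_int`), and
`ν (Ioi t) ≤ kap e (Ioi t)` (`star_Ioi` and `Adm.tail`). So `dom` for `κ = fun _ => ν`, `κ' = kap` gives
`g d ν n ≤ ∫ pt ω 0 (ax d n) ∂(infinitePi kap)`, which is `∫ pt (gl k ω) 0 (ax d n) ∂(Q d ν)` by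
`gl_law`, `integral_map` (`measurable_gl`, `measurable_pt`). The integrability: `integrable_pt` for `kap`
and `integrable_map_measure`.
-/

open MeasureTheory ProbabilityTheory Filter Topology

namespace Pool.Agent.Work.MP_9a767b_pr.H

theorem g_le_glue {ν : Measure ℝ} {α c₁ c₂ : ℝ} (h : Adm ν α c₁ c₂) (d n k : ℕ) :
    Integrable (fun ω => pt (gl (k : ℤ) c₁ c₂ ω) 0 (ax d n)) (Q d ν) ∧
      g d ν n ≤ ∫ ω, pt (gl (k : ℤ) c₁ c₂ ω) 0 (ax d n) ∂(Q d ν) := by
  haveI := h.prob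
  have h0 : ν (Set.Iio 0) = 0 := measure_mono_null (Set.Iio_subset_Iio h.pos.le) h.inf
  have hc1 : 0 < c₁ := lt_of_lt_of_le one_pos h.one₁
  have hc2 : 0 < c₂ := lt_of_lt_of_le one_pos h.one₂
  have hk0 : ∀ e : Sym2 (V d), kap ν (k : ℤ) c₁ c₂ e (Set.Iio 0) = 0 := by
    intro e
    unfold kap
    split_ifs
    · exact star_Iio ν le_rfl h0 h.one₁ h.one₂
    · exact h0
  have hki : ∀ e : Sym2 (V d), Integrable (fun x : ℝ => x) (kap ν (k : ℤ) c₁ c₂ e) := by
    intro e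
    unfold kap
    split_ifs
    · exact star_int ν h0 h.mean hc1.le hc2.le
    · exact h.mean
  have hkt : ∀ e : Sym2 (V d), ∀ t : ℝ, ν (Set.Ioi t) ≤ kap ν (k : ℤ) c₁ c₂ e (Set.Ioi t) := by
    intro e t
    unfold kap
    split_ifs
    · rw [star_Ioi ν hc1 hc2]
      exact h.tail t
    · exact le_rfl
  have key := dom (fun _ : Sym2 (V d) => ν) (fun e => kap ν (k : ℤ) c₁ c₂ e) (fun _ => h0) hk0
    (fun _ => h.mean) hki hkt 0 (ax d n)
  have hlaw := gl_law d ν (k : ℤ) c₁ c₂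
  have hint := integrable_pt (fun e => kap ν (k : ℤ) c₁ c₂ e) hk0 hki (0 : V d) (ax d n)
  rw [← hlaw] at key hint
  constructor
  · exact (integrable_map_measure (measurable_pt 0 (ax d n)).aestronglyMeasurable
      (measurable_gl (k : ℤ) c₁ c₂).aemeasurable).1 hint
  · rw [integral_map (measurable_gl (k : ℤ) c₁ c₂).aemeasurable
      (measurable_pt 0 (ax d n)).aestronglyMeasurable] at key
    exact key

end Pool.Agent.Work.MP_9a767b_pr.H
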