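import Pool.Agent.Work.MP_9a767b_pr.H.Along
import Pool.Agent.Work.MP_9a767b_pr.H.CoSum
import Pool.Agent.Work.MP_9a767b_pr.H.ChiWalk

/-!
# GlueSum

THE MAIN DETERMINISTIC INEQUALITY. Let `w` be any walk from `0` to `(n + 1) e_1` and `0 ≤ k ≤ n`. Then
`ct k 0 = 0` and `ct k (ax d (n + 1)) = ax d n`, so `along` gives
`pt (gl k ω) 0 (ax d n) ≤ (w.edges.map (co k ω)).sum`. Sum over `k`, exchange the sum over `k` with the
list sum (an induction on the list, or `List.sum_map_finset_sum`), use `co_sum` for each edge and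
`chi_walk` for each `k`:
`∑ k, pt (gl k ω) 0 (ax d n) ≤ (n + 1 + c₁ + c₂ - 2) * len w - (c₁ + c₂ - 1) * α * (n + 1)`.
So `(S + (c₁ + c₂ - 1) α (n + 1)) / (n + 1 + c₁ + c₂ - 2) ≤ len w` for every `w`; `le_pt`, and multiply back
(the denominator is positive).
-/

open MeasureTheory ProbabilityTheory Filter Topology

namespace Pool.Agent.Work.MP_9a767b_pr.H

private theorem ct_zero {d : ℕ} (k : ℕ) : ct (k : ℤ) (0 : V d) = 0 := by
  unfold ct
  exact if_pos (by simp)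

private theorem ct_end {d : ℕ} {n k : ℕ} (hk : k ≤ n) :
    ct (k : ℤ) (ax d ((n + 1 : ℕ) : ℤ)) = ax d n := by
  have h0 : ax d ((n + 1 : ℕ) : ℤ) 0 = ((n + 1 : ℕ) : ℤ) := by
    unfold ax
    exact Pi.single_eq_same 0 _
  have h1 : ¬ (ax d ((n + 1 : ℕ) : ℤ) 0 ≤ (k : ℤ)) := by
    rw [h0]
    push_cast
    omega
  unfold ct
  rw [if_neg h1]
  unfold ax
  rw [← Pi.single_sub]
  push_cast
  congr 1
  ring

private theorem sum_list {A : Type} (l : List A) (f : ℕ → A → ℝ) (s : Finset ℕ) :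
    ∑ k ∈ s, (l.map (f k)).sum = (l.map (fun e => ∑ k ∈ s, f k e)).sum := by
  induction l with
  | nil => simp
  | cons a l ih =>
    simp only [List.map_cons, List.sum_cons]
    rw [Finset.sum_add_distrib, ih]

private theorem list_le {A : Type} (l : List A) (f h : A → ℝ) (hfh : ∀ a, f a ≤ h a) :
    (l.map f).sum ≤ (l.map h).sum := by
  induction l with
  | nil => simp
  | cons a l ih =>
    simp only [List.map_cons, List.sum_cons]
    exact add_le_add (hfh a) ih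

private theorem list_lin {A : Type} (l : List A) (f h : A → ℝ) (a b : ℝ) :
    (l.map (fun e => a * f e - b * h e)).sum = a * (l.map f).sum - b * (l.map h).sum := by
  induction l with
  | nil => simp
  | cons x l ih =>
    simp only [List.map_cons, List.sum_cons]
    rw [ih]
    ring

private theorem glue_walk {d : ℕ} (n : ℕ) {α c₁ c₂ : ℝ} (hα : 0 ≤ α) (h₁ : 1 ≤ c₁) (h₂ : 1 ≤ c₂)
    {ω : Sym2 (V d) → ℝ} (hω : ∀ e, α ≤ ω e) (w : (lattice d).Walk 0 (ax d ((n + 1 : ℕ) : ℤ))) :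
    ∑ k ∈ Finset.range (n + 1), pt (gl (k : ℤ) c₁ c₂ ω) 0 (ax d n) ≤
      ((n : ℝ) + 1 + (c₁ + c₂ - 2)) * (w.edges.map ω).sum -
        (c₁ + c₂ - 1) * α * ((n : ℝ) + 1) := by
  have hω0 : ∀ e, 0 ≤ ω e := fun e => hα.trans (hω e)
  have s1 : ∑ k ∈ Finset.range (n + 1), pt (gl (k : ℤ) c₁ c₂ ω) 0 (ax d n) ≤
      ∑ k ∈ Finset.range (n + 1), (w.edges.map (co (k : ℤ) c₁ c₂ ω)).sum := by
    refine Finset.sum_le_sum fun k hk => ?_
    have hkn : k ≤ n := Nat.lt_succ_iff.1 (Finset.mem_range.1 hk)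
    have h := along (k : ℤ) (by linarith : (0 : ℝ) ≤ c₁) (by linarith : (0 : ℝ) ≤ c₂) hω0 w
    rw [ct_zero, ct_end hkn] at h
    exact h
  have s2 : ∑ k ∈ Finset.range (n + 1), (w.edges.map (co (k : ℤ) c₁ c₂ ω)).sum ≤
      (w.edges.map (fun e => ((n : ℝ) + 1 + (c₁ + c₂ - 2)) * ω e -
        (c₁ + c₂ - 1) * α * ∑ k ∈ Finset.range (n + 1), chi (k : ℤ) e)).sum := by
    rw [sum_list w.edges (fun k => co (k : ℤ) c₁ c₂ ω) (Finset.range (n + 1))]
    exact list_le _ _ _ fun e => co_sum n hα h₁ h₂ e (hω e)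
  have s3 : (w.edges.map (fun e => ((n : ℝ) + 1 + (c₁ + c₂ - 2)) * ω e -
        (c₁ + c₂ - 1) * α * ∑ k ∈ Finset.range (n + 1), chi (k : ℤ) e)).sum =
      ((n : ℝ) + 1 + (c₁ + c₂ - 2)) * (w.edges.map ω).sum -
        (c₁ + c₂ - 1) * α * ∑ k ∈ Finset.range (n + 1), (w.edges.map (chi (k : ℤ))).sum := by
    rw [sum_list w.edges (fun k => chi (k : ℤ)) (Finset.range (n + 1))]
    exact list_lin _ _ _ _ _
  have s4 : (n : ℝ) + 1 ≤ ∑ k ∈ Finset.range (n + 1), (w.edges.map (chi (k : ℤ))).sum := by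
    have h : ∑ k ∈ Finset.range (n + 1), (1 : ℝ) ≤
        ∑ k ∈ Finset.range (n + 1), (w.edges.map (chi (k : ℤ))).sum :=
      Finset.sum_le_sum fun k hk =>
        chi_walk n k (Nat.lt_succ_iff.1 (Finset.mem_range.1 hk)) w
    have h' : ∑ k ∈ Finset.range (n + 1), (1 : ℝ) = (n : ℝ) + 1 := by
      rw [Finset.sum_const, Finset.card_range]
      simp
    rw [h'] at h
    exact h
  have hc : 0 ≤ (c₁ + c₂ - 1) * α := mul_nonneg (by linarith) hα
  have s5 := mul_le_mul_of_nonneg_left s4 hc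
  linarith

theorem glue_sum {d : ℕ} (n : ℕ) {α c₁ c₂ : ℝ} (hα : 0 ≤ α) (h₁ : 1 ≤ c₁) (h₂ : 1 ≤ c₂)
    {ω : Sym2 (V d) → ℝ} (hω : ∀ e, α ≤ ω e) :
    ∑ k ∈ Finset.range (n + 1), pt (gl (k : ℤ) c₁ c₂ ω) 0 (ax d n) ≤
      ((n : ℝ) + 1 + (c₁ + c₂ - 2)) * pt ω 0 (ax d ((n + 1 : ℕ) : ℤ)) -
        (c₁ + c₂ - 1) * α * ((n : ℝ) + 1) := by
  have hD : (0 : ℝ) < (n : ℝ) + 1 + (c₁ + c₂ - 2) := by
    have hn : (0 : ℝ) ≤ n := Nat.cast_nonneg n
    linarith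
  have h : (∑ k ∈ Finset.range (n + 1), pt (gl (k : ℤ) c₁ c₂ ω) 0 (ax d n) +
      (c₁ + c₂ - 1) * α * ((n : ℝ) + 1)) / ((n : ℝ) + 1 + (c₁ + c₂ - 2)) ≤
      pt ω 0 (ax d ((n + 1 : ℕ) : ℤ)) := by
    refine le_pt fun w => ?_
    rw [div_le_iff₀ hD]
    have h1 := glue_walk n hα h₁ h₂ hω w
    linarith
  rw [div_le_iff₀ hD] at h
  linarith

end Pool.Agent.Work.MP_9a767b_pr.H
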