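import Pool.Agent.Work.MP_9a767b_pr.H.Prob
import Pool.Agent.Work.MP_9a767b_pr.H.DetG
import Pool.Agent.Work.MP_9a767b_pr.H.GSub

/-!
# High

High dimensions: `g d ν l ≤ (α + η) l` for a suitable `l` and all large `d`.

`prob_bound` with `A = axs d l`, `B = det d l` (`N = d + 1`, `M = l + 2`), `F ω = pt ω 0 (ax d l)`
(`integrable_pt`, and `ae_ge` with `pt_axis`, `pt_detour`), `s = α + ε`, gives
`g d ν l ≤ (l + 2) (α + ε) + (1 - p ^ (l + 2)) ^ (d + 1) * (l * m)` with `p = ν (Iic (α + ε)) > 0`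
(`hess`), `m = ∫ x dν ≥ 0`. Choose `ε = η / 4`, then `l ≥ 1` with `2 (α + ε) ≤ (η / 4) l`, then `d₀` with
`(1 - p ^ (l + 2)) ^ (d + 1) * (l * m) ≤ η / 2 ≤ (η / 2) l` for `d ≥ d₀`
(`tendsto_pow_atTop_nhds_zero_of_lt_one`; `0 ≤ 1 - p ^ (l + 2) < 1`). Sum:
`(α + ε) l + (η / 4) l + (η / 2) l = (α + η) l`.
-/

open MeasureTheory ProbabilityTheory Filter Topology

namespace Pool.Agent.Work.MP_9a767b_pr.H

theorem high (ν : Measure ℝ) [IsProbabilityMeasure ν] {α : ℝ} (hα : 0 ≤ α)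
    (h : ν (Set.Iio α) = 0) (hess : ∀ ε : ℝ, 0 < ε → ν (Set.Iio (α + ε)) ≠ 0)
    (hi : Integrable (fun x : ℝ => x) ν) {η : ℝ} (hη : 0 < η) :
    ∃ l d₀ : ℕ, 1 ≤ l ∧ ∀ d, d₀ ≤ d → g d ν l ≤ (α + η) * l := by
  have h0 : ν (Set.Iio 0) = 0 :=
    measure_mono_null (fun x (hx : x < 0) => lt_of_lt_of_le hx hα) h
  obtain ⟨ε, hε⟩ : ∃ ε : ℝ, ε = η / 4 := ⟨_, rfl⟩
  have hε0 : 0 < ε := by
    rw [hε]
    positivity
  have hαε : 0 ≤ α + ε := by positivity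
  obtain ⟨l, hl⟩ := exists_nat_gt ((2 * (α + ε)) / (η / 4))
  have hη4 : 0 < η / 4 := by positivity
  have hl2 : 2 * (α + ε) ≤ (η / 4) * l := by
    have h1 := (div_lt_iff₀ hη4).1 hl
    linarith
  have hlpos : (0 : ℝ) < l := lt_of_le_of_lt (by positivity) hl
  have hl1 : 1 ≤ l := by
    have : 0 < l := by exact_mod_cast hlpos
    omega
  have hl1' : (1 : ℝ) ≤ l := by exact_mod_cast hl1
  obtain ⟨m, hm⟩ : ∃ m : ℝ, m = ∫ x, x ∂ν := ⟨_, rfl⟩
  have hae : ∀ᵐ x ∂ν, (0 : ℝ) ≤ x := by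
    rw [ae_iff]
    have h1 : {x : ℝ | ¬ 0 ≤ x} = Set.Iio 0 := by
      ext x
      exact not_le
    rw [h1]
    exact h0
  have hm0 : 0 ≤ m := by
    rw [hm]
    exact integral_nonneg_of_ae hae
  obtain ⟨p, hp⟩ : ∃ p : ℝ, p = ν.real (Set.Iic (α + ε)) := ⟨_, rfl⟩
  have hp0 : 0 < p := by
    rw [hp]
    have h1 : ν (Set.Iic (α + ε)) ≠ 0 := fun h2 =>
      hess ε hε0 (measure_mono_null Set.Iio_subset_Iic_self h2)
    exact ENNReal.toReal_pos h1 (measure_ne_top ν _)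
  have hp1 : p ≤ 1 := by
    rw [hp]
    exact measureReal_le_one
  have hpp0 : 0 < p ^ (l + 2) := pow_pos hp0 _
  have hpp1 : p ^ (l + 2) ≤ 1 := pow_le_one₀ hp0.le hp1
  have ht : Tendsto (fun d : ℕ => (1 - p ^ (l + 2)) ^ (d + 1) * (l * m)) atTop (𝓝 0) := by
    have h1 := tendsto_pow_atTop_nhds_zero_of_lt_one (r := 1 - p ^ (l + 2))
      (by linarith) (by linarith)
    have h2 := ((tendsto_add_atTop_iff_nat 1).2 h1).mul_const ((l : ℝ) * m)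
    rw [zero_mul] at h2
    exact h2
  have hev := ht.eventually (gt_mem_nhds (show (0 : ℝ) < η / 2 by positivity))
  obtain ⟨d₀, hd₀⟩ := eventually_atTop.1 hev
  refine ⟨l, d₀, hl1, fun d hd => ?_⟩
  have hd1 := hd₀ d hd
  have hge := ae_ge (d := d) (fun _ => ν) (α := 0) (fun _ => h0)
  have key := prob_bound ν h0 hi (axs d l) (N := d + 1) (M := l + 2) (det d l) (disj_axs d l)
    (disj_det d l) (card_det d l hl1) hαε (fun ω => pt ω 0 (ax d l))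
    (integrable_pt (fun _ => ν) (fun _ => h0) (fun _ => hi) 0 (ax d l))
    (hge.mono fun ω hω => pt_axis l hω) (hge.mono fun ω hω j => pt_detour l hl1 hω j)
  rw [card_axs, ← hm, ← hp] at key
  have hg : g d ν l = ∫ ω, pt ω 0 (ax d l) ∂(Measure.infinitePi (fun _ : Sym2 (V d) => ν)) := rfl
  rw [hg]
  refine key.trans ?_
  push_cast
  have h5 : η / 2 ≤ η / 2 * l := by nlinarith
  have h6 : ((l : ℝ) + 2) * (α + ε) = l * α + l * ε + 2 * (α + ε) := by ring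
  have h7 : (l : ℝ) * ε = l * η / 4 := by
    rw [hε]
    ring
  have h8 : (α + η) * (l : ℝ) = l * α + l * η / 4 + (η / 4) * l + η / 2 * l := by ring
  rw [h6, h7, h8]
  linarith

end Pool.Agent.Work.MP_9a767b_pr.H
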