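import Pool.Agent.Work.MP_9a767b_pr.H.GlueG
import Pool.Agent.Work.MP_9a767b_pr.H.GlueSum

/-!
# Key

Sum `g_le_glue` over `k ∈ range (n + 1)` (`Finset.card_nsmul_le_sum` or `Finset.sum_le_sum`),
`integral_finsetSum`, and `integral_mono_ae` with `glue_sum` for almost every `ω` (`ae_ge` for
`κ = fun _ => ν`), where the right side is integrable (`integrable_pt`) with the integral
`(n + 1 + c₁ + c₂ - 2) * g d ν (n + 1) - (c₁ + c₂ - 1) * α * (n + 1)`.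
-/

open MeasureTheory ProbabilityTheory Filter Topology

namespace Pool.Agent.Work.MP_9a767b_pr.H

theorem key {ν : Measure ℝ} {α c₁ c₂ : ℝ} (h : Adm ν α c₁ c₂) (d n : ℕ) :
    ((n : ℝ) + 1) * g d ν n ≤
      ((n : ℝ) + 1 + (c₁ + c₂ - 2)) * g d ν (n + 1) - (c₁ + c₂ - 1) * α * ((n : ℝ) + 1) := by
  have := h.prob
  have h0 : ∀ e : Sym2 (V d), (fun _ : Sym2 (V d) => ν) e (Set.Iio 0) = 0 := fun _ =>
    measure_mono_null (Set.Iio_subset_Iio h.pos.le) h.inf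
  have i0 : Integrable (fun ω => pt ω 0 (ax d ((n + 1 : ℕ) : ℤ))) (Q d ν) :=
    integrable_pt (fun _ : Sym2 (V d) => ν) h0 (fun _ => h.mean) 0 (ax d ((n + 1 : ℕ) : ℤ))
  have i1 : ∀ k ∈ Finset.range (n + 1),
      Integrable (fun ω => pt (gl (k : ℤ) c₁ c₂ ω) 0 (ax d n)) (Q d ν) := fun k _ =>
    (g_le_glue h d n k).1
  have s1 : ((n : ℝ) + 1) * g d ν n ≤
      ∑ k ∈ Finset.range (n + 1), ∫ ω, pt (gl (k : ℤ) c₁ c₂ ω) 0 (ax d n) ∂(Q d ν) := by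
    have hs : ∑ _k ∈ Finset.range (n + 1), g d ν n ≤
        ∑ k ∈ Finset.range (n + 1), ∫ ω, pt (gl (k : ℤ) c₁ c₂ ω) 0 (ax d n) ∂(Q d ν) :=
      Finset.sum_le_sum fun k _ => (g_le_glue h d n k).2
    rw [Finset.sum_const, Finset.card_range, nsmul_eq_mul] at hs
    push_cast at hs
    exact hs
  rw [← integral_finsetSum _ i1] at s1
  have i2 : Integrable (fun ω => ((n : ℝ) + 1 + (c₁ + c₂ - 2)) * pt ω 0 (ax d ((n + 1 : ℕ) : ℤ)) -
      (c₁ + c₂ - 1) * α * ((n : ℝ) + 1)) (Q d ν) :=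
    (i0.const_mul _).sub (integrable_const _)
  have s2 : ∫ ω, ∑ k ∈ Finset.range (n + 1), pt (gl (k : ℤ) c₁ c₂ ω) 0 (ax d n) ∂(Q d ν) ≤
      ∫ ω, (((n : ℝ) + 1 + (c₁ + c₂ - 2)) * pt ω 0 (ax d ((n + 1 : ℕ) : ℤ)) -
        (c₁ + c₂ - 1) * α * ((n : ℝ) + 1)) ∂(Q d ν) := by
    refine integral_mono_ae (integrable_finsetSum _ i1) i2 ?_
    have ha : ∀ᵐ ω ∂(Q d ν), ∀ e, α ≤ ω e :=
      ae_ge (fun _ : Sym2 (V d) => ν) (fun _ => h.inf)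
    filter_upwards [ha] with ω hω
    exact glue_sum n h.pos.le h.one₁ h.one₂ hω
  have s3 : ∫ ω, (((n : ℝ) + 1 + (c₁ + c₂ - 2)) * pt ω 0 (ax d ((n + 1 : ℕ) : ℤ)) -
        (c₁ + c₂ - 1) * α * ((n : ℝ) + 1)) ∂(Q d ν) =
      ((n : ℝ) + 1 + (c₁ + c₂ - 2)) * g d ν (n + 1) - (c₁ + c₂ - 1) * α * ((n : ℝ) + 1) := by
    rw [integral_sub (i0.const_mul _) (integrable_const _), integral_const_mul, integral_const]
    simp only [probReal_univ, one_smul]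
    rfl
  linarith

end Pool.Agent.Work.MP_9a767b_pr.H
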