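import Pool.Agent.Work.MP_9a767b_pr.H.GSub

/-!
# Lim

Fekete: `Subadditive (g d ν)` (`g_sub`), `Subadditive.tendsto_lim` with the lower bound `0 ≤ g n / n`
(`g_ge` for `α`, `α ≥ 0`), `Subadditive.lim_le_div`. The limit is `≥ α` as `α ≤ g n / n` for `n ≥ 1`
(`ge_of_tendsto'`).
-/

open MeasureTheory ProbabilityTheory Filter Topology

namespace Pool.Agent.Work.MP_9a767b_pr.H

theorem exists_lim (d : ℕ) (ν : Measure ℝ) [IsProbabilityMeasure ν] {α : ℝ} (hα : 0 ≤ α)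
    (h : ν (Set.Iio α) = 0) (hi : Integrable (fun x : ℝ => x) ν) :
    ∃ μ : ℝ, Tendsto (fun n : ℕ => g d ν n / n) atTop (𝓝 μ) ∧ α ≤ μ ∧
      ∀ n : ℕ, 1 ≤ n → μ ≤ g d ν n / n := by
  have h0 : ν (Set.Iio 0) = 0 := measure_mono_null (Set.Iio_subset_Iio hα) h
  have hsub : Subadditive (g d ν) := fun m n => g_sub d ν h0 hi m n
  have hge : ∀ n : ℕ, α * n ≤ g d ν n := fun n => g_ge d ν hα h hi n
  have hbdd : BddBelow (Set.range fun n : ℕ => g d ν n / n) := by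
    refine ⟨0, ?_⟩
    rintro _ ⟨n, rfl⟩
    exact div_nonneg ((mul_nonneg hα (Nat.cast_nonneg n)).trans (hge n)) (Nat.cast_nonneg n)
  refine ⟨hsub.lim, hsub.tendsto_lim hbdd, ?_, fun n hn => hsub.lim_le_div hbdd (by omega)⟩
  refine ge_of_tendsto (hsub.tendsto_lim hbdd) ?_
  filter_upwards [eventually_ge_atTop 1] with n hn
  have hn0 : (0 : ℝ) < n := by exact_mod_cast hn
  rw [le_div_iff₀ hn0]
  exact hge n

end Pool.Agent.Work.MP_9a767b_pr.H
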