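import Pool.Agent.Work.MP_9a767b_pr.H.Defs

/-!
# SeqMono

PURE REAL SEQUENCES, `lam = c₁ + c₂ - 2 ≥ 0`. The hypothesis `H` divided by `n + 1` reads
`f n ≤ f (n + 1) + lam * f (n + 1) / (n + 1) - (1 + lam) α`, i.e.
`f (n + 1) - f n ≥ α - lam * (f (n + 1) / (n + 1) - α)`.

* `seq_mono`: `f (n + 1) / (n + 1) ≤ m`, so the difference is `≥ α - lam (m - α) > 0`;
  `strictMono_nat_of_lt_succ`.
* `seq_event`: `f (n + 1) / (n + 1) → μ` and `lam (μ - α) < α`: take `c = (α - lam (μ - α)) / 2`;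
  eventually `lam * f (n + 1) / (n + 1) ≤ lam μ + c`.
-/

open MeasureTheory ProbabilityTheory Filter Topology

namespace Pool.Agent.Work.MP_9a767b_pr.H

theorem seq_mono {f : ℕ → ℝ} {α lam m : ℝ} (hl : 0 ≤ lam)
    (H : ∀ n : ℕ, ((n : ℝ) + 1) * f n ≤
      ((n : ℝ) + 1 + lam) * f (n + 1) - (lam + 1) * α * ((n : ℝ) + 1))
    (hm : ∀ n : ℕ, f n ≤ n * m) (h : lam * (m - α) < α) : StrictMono f := by
  refine strictMono_nat_of_lt_succ fun n => ?_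
  have hN : (0 : ℝ) < (n : ℝ) + 1 := by positivity
  have h1 : f (n + 1) ≤ ((n : ℝ) + 1) * m := by
    have h2 := hm (n + 1)
    push_cast at h2
    exact h2
  have h2 : lam * f (n + 1) ≤ lam * (((n : ℝ) + 1) * m) := mul_le_mul_of_nonneg_left h1 hl
  have h3 : ((n : ℝ) + 1) * (α - lam * (m - α)) ≤ ((n : ℝ) + 1) * (f (n + 1) - f n) := by
    have h4 := H n
    nlinarith
  have h4 : α - lam * (m - α) ≤ f (n + 1) - f n := le_of_mul_le_mul_left h3 hN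
  linarith

theorem seq_event {f : ℕ → ℝ} {α lam μ : ℝ} (hl : 0 ≤ lam)
    (H : ∀ n : ℕ, ((n : ℝ) + 1) * f n ≤
      ((n : ℝ) + 1 + lam) * f (n + 1) - (lam + 1) * α * ((n : ℝ) + 1))
    (hμ : Tendsto (fun n : ℕ => f n / n) atTop (𝓝 μ)) (h : lam * (μ - α) < α) :
    ∃ c : ℝ, 0 < c ∧ ∀ᶠ n : ℕ in atTop, f n + c ≤ f (n + 1) := by
  refine ⟨(α - lam * (μ - α)) / 2, by linarith, ?_⟩
  have h1 : Tendsto (fun n : ℕ => lam * (f (n + 1) / ((n + 1 : ℕ) : ℝ))) atTop (𝓝 (lam * μ)) :=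
    (hμ.comp (tendsto_add_atTop_nat 1)).const_mul lam
  have h2 : lam * μ < lam * μ + (α - lam * (μ - α)) / 2 := by linarith
  filter_upwards [h1.eventually (gt_mem_nhds h2)] with n hn
  have hN : (0 : ℝ) < (n : ℝ) + 1 := by positivity
  have h3 : ((n + 1 : ℕ) : ℝ) = (n : ℝ) + 1 := by push_cast; ring
  rw [h3] at hn
  obtain ⟨x, hx⟩ : ∃ x, x = f (n + 1) / ((n : ℝ) + 1) := ⟨_, rfl⟩
  rw [← hx] at hn
  have h4 : f (n + 1) = x * ((n : ℝ) + 1) := by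
    rw [hx]
    exact (div_mul_cancel₀ _ hN.ne').symm
  have h5 : ((n : ℝ) + 1) * (α - lam * (x - α)) ≤ ((n : ℝ) + 1) * (f (n + 1) - f n) := by
    have h6 := H n
    have h7 : lam * f (n + 1) = lam * x * ((n : ℝ) + 1) := by
      rw [h4]
      ring
    nlinarith
  have h6 : α - lam * (x - α) ≤ f (n + 1) - f n := le_of_mul_le_mul_left h5 hN
  nlinarith

end Pool.Agent.Work.MP_9a767b_pr.H
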