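import Pool.Agent.Work.MP_9a767b_pr.H.Int

/-!
# Transfer

From the canonical space to an arbitrary one. `Pool/Agent/Work/MP_9a767b_pr/Transfer.lean` has the same
proof for the square lattice (there with `|ω e|`): adapt it.

The restrictions to the edge set: `X : Ω → (edgeSet → ℝ)`, `X ω e = τ e ω`, has the law
`infinitePi (fun _ : edgeSet => ν)` (`iIndepFun.map_fun_eq_infinitePi_map`, `FPP.law`); the restriction
of `ω` under `Q d ν` has the same law (`Measure.infinitePi_map_restrict'`). Both passage times are
`H ∘ X` for `H x = pt (extension of x by 0) 0 (ax d n)` (`pt_congr`; `FPP.eq` and the definition of `pt`,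
`ax d n = Pi.single 0 n` by definition), `H` measurable (`measurable_pt`). `integral_map`,
`integrable_map_measure`, `integrable_pt`.
-/

open MeasureTheory ProbabilityTheory Filter Topology

namespace Pool.Agent.Work.MP_9a767b_pr.H

open Classical in
private noncomputable def extz {d : ℕ} (x : (lattice d).edgeSet → ℝ) : Sym2 (V d) → ℝ :=
  fun e => if h : e ∈ (lattice d).edgeSet then x ⟨e, h⟩ else 0

private theorem extz_apply {d : ℕ} (x : (lattice d).edgeSet → ℝ) {e : Sym2 (V d)}
    (h : e ∈ (lattice d).edgeSet) : extz x e = x ⟨e, h⟩ := by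
  unfold extz
  exact dif_pos h

private theorem measurable_extz {d : ℕ} :
    Measurable (extz : ((lattice d).edgeSet → ℝ) → Sym2 (V d) → ℝ) := by
  refine measurable_pi_lambda _ fun e => ?_
  by_cases h : e ∈ (lattice d).edgeSet
  · have h1 : (fun x : (lattice d).edgeSet → ℝ => extz x e) = fun x => x ⟨e, h⟩ := by
      funext x
      exact extz_apply x h
    rw [h1]
    exact measurable_pi_apply _
  · have h1 : (fun x : (lattice d).edgeSet → ℝ => extz x e) = fun _ => 0 := by
      funext x
      exact dif_neg h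
    rw [h1]
    exact measurable_const

theorem transfer {d : ℕ} {Ω : Type} [MeasurableSpace Ω] (P : Measure Ω) [IsProbabilityMeasure P]
    (ν : Measure ℝ) [IsProbabilityMeasure ν] (h : ν (Set.Iio 0) = 0)
    (hi : Integrable (fun x : ℝ => x) ν) {τ : Sym2 (Fin (d + 2) → ℤ) → Ω → ℝ} {a : ℕ → Ω → ℝ}
    (H : FPP d P ν τ a) (n : ℕ) : Integrable (a n) P ∧ ∫ ω, a n ω ∂P = g d ν n := by
  set X : Ω → ((lattice d).edgeSet → ℝ) := fun ω e => τ e.1 ω with hX
  have hXm : Measurable X := measurable_pi_lambda _ fun e => H.meas e.1 e.2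
  have hXl : P.map X = Measure.infinitePi (fun _ : (lattice d).edgeSet => ν) := by
    have h1 := H.indep.map_fun_eq_infinitePi_map₀ hXm.aemeasurable
    rw [hX, h1]
    congr 1
    funext e
    exact H.law e.1 e.2
  set R : (Sym2 (V d) → ℝ) → ((lattice d).edgeSet → ℝ) := (lattice d).edgeSet.domRestrict with hR
  have hRm : Measurable R := measurable_pi_lambda _ fun e => measurable_pi_apply _
  have hRl : (Q d ν).map R = Measure.infinitePi (fun _ : (lattice d).edgeSet => ν) := by
    unfold Q
    exact Measure.infinitePi_map_restrict' (μ := fun _ : Sym2 (V d) => ν)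
      (I := (lattice d).edgeSet)
  set F : ((lattice d).edgeSet → ℝ) → ℝ := fun x => pt (extz x) 0 (ax d n) with hF
  have hFm : Measurable F := (measurable_pt 0 (ax d n)).comp measurable_extz
  have e1 : ∀ ω, a n ω = F (X ω) := by
    intro ω
    rw [H.eq n ω]
    change pt (fun e => τ e ω) 0 (ax d n) = pt (extz (X ω)) 0 (ax d n)
    refine pt_congr (fun e he => ?_) _ _
    rw [extz_apply _ he]
  have e2 : ∀ ω : Sym2 (V d) → ℝ, pt ω 0 (ax d n) = F (R ω) := by
    intro ω
    change pt ω 0 (ax d n) = pt (extz (R ω)) 0 (ax d n)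
    refine pt_congr (fun e he => ?_) _ _
    rw [extz_apply _ he]
    rfl
  have e1' : a n = F ∘ X := funext e1
  have e2' : (fun ω : Sym2 (V d) → ℝ => pt ω 0 (ax d n)) = F ∘ R := funext e2
  have hFX : AEStronglyMeasurable F (P.map X) := hFm.aestronglyMeasurable
  have hFR : AEStronglyMeasurable F ((Q d ν).map R) := hFm.aestronglyMeasurable
  have hI : Integrable (fun ω : Sym2 (V d) → ℝ => pt ω 0 (ax d n)) (Q d ν) :=
    integrable_pt (fun _ : Sym2 (V d) => ν) (fun _ => h) (fun _ => hi) 0 (ax d n)
  constructor
  · have i1 := integrable_map_measure hFX hXm.aemeasurable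
    have i2 := integrable_map_measure hFR hRm.aemeasurable
    rw [hXl] at i1
    rw [hRl] at i2
    rw [e1', ← i1, i2, ← e2']
    exact hI
  · have i1 := integral_map hXm.aemeasurable hFX
    have i2 := integral_map hRm.aemeasurable hFR
    rw [hXl] at i1
    rw [hRl] at i2
    unfold g
    simp only [e1, e2]
    rw [← i1, ← i2]

end Pool.Agent.Work.MP_9a767b_pr.H
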