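import Pool.Agent.Work.MP_9a767b_pr.H.Key
import Pool.Agent.Work.MP_9a767b_pr.H.FKey
import Pool.Agent.Work.MP_9a767b_pr.H.Lim
import Pool.Agent.Work.MP_9a767b_pr.H.High
import Pool.Agent.Work.MP_9a767b_pr.H.SeqMono
import Pool.Agent.Work.MP_9a767b_pr.H.FSeq
import Pool.Agent.Work.MP_9a767b_pr.H.Dens
import Pool.Agent.Work.MP_9a767b_pr.H.Transfer
import Pool.Agent.Work.MP_9a767b_pr.H.Examples

/-!
# Main: the theorems, from the modules
-/

open MeasureTheory ProbabilityTheory Filter Topology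

namespace Pool.Agent.Work.MP_9a767b_pr.H

/-- `H` divided by `n + 1`. -/
private theorem divide {x y α lam kap : ℝ} {n : ℕ}
    (h : ((n : ℝ) + 1) * x ≤ ((n : ℝ) + 1 + lam) * y - (kap + lam) * α * ((n : ℝ) + 1)) :
    kap * α - lam * (y / ((n : ℝ) + 1) - α) ≤ y - x := by
  have hn : (0 : ℝ) < (n : ℝ) + 1 := by positivity
  have h4 : ((n : ℝ) + 1) * (y / ((n : ℝ) + 1)) = y := by field_simp
  have h3 : ((n : ℝ) + 1) * x ≤
      ((n : ℝ) + 1) * (y + lam * (y / ((n : ℝ) + 1)) - (kap + lam) * α) := by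
    calc _ ≤ _ := h
      _ = ((n : ℝ) + 1) * y + lam * y - (kap + lam) * α * ((n : ℝ) + 1) := by ring
      _ = ((n : ℝ) + 1) * y + lam * (((n : ℝ) + 1) * (y / ((n : ℝ) + 1))) -
          (kap + lam) * α * ((n : ℝ) + 1) := by rw [h4]
      _ = _ := by ring
  have := le_of_mul_le_mul_left h3 hn
  linarith

/-- All dimensions, laws with finite mean. -/
theorem main_all {ν : Measure ℝ} [IsProbabilityMeasure ν] {α : ℝ} (hα : 0 < α)
    (h : ν (Set.Iio α) = 0) (hi : Integrable (fun x : ℝ => x) ν) (d : ℕ) {Ω : Type}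
    [MeasurableSpace Ω] (P : Measure Ω) [IsProbabilityMeasure P]
    {τ : Sym2 (Fin (d + 2) → ℤ) → Ω → ℝ} {a : ℕ → Ω → ℝ} (H : FPP d P ν τ a) :
    (∀ n, Integrable (a n) P) ∧
      (∀ K n : ℕ, 1 ≤ K → K * α - ((K : ℝ) + 1) * ((∫ x, x ∂ν) - α) / α *
          ((∫ ω, a (n + K) ω ∂P) / ((n : ℝ) + 1) - α) ≤
        (∫ ω, a (n + K) ω ∂P) - ∫ ω, a n ω ∂P) ∧
      (2 * ((∫ x, x ∂ν) - α) ^ 2 < α ^ 2 → StrictMono (fun n => ∫ ω, a n ω ∂P)) ∧
      ∃ μ : ℝ, Tendsto (fun n : ℕ => (∫ ω, a n ω ∂P) / n) atTop (𝓝 μ) ∧ α ≤ μ ∧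
        ∀ K : ℕ, 1 ≤ K → ((K : ℝ) + 1) * (((∫ x, x ∂ν) - α) * (μ - α)) < K * α ^ 2 →
          ∃ c : ℝ, 0 < c ∧ ∀ᶠ n : ℕ in atTop,
            (∫ ω, a n ω ∂P) + c ≤ ∫ ω, a (n + K) ω ∂P := by
  have h0 : ν (Set.Iio 0) = 0 := measure_mono_null (Set.Iio_subset_Iio hα.le) h
  have hT := fun n => transfer P ν h0 hi H n
  have hg : (fun n : ℕ => ∫ ω, a n ω ∂P) = g d ν := funext fun n => (hT n).2
  have hm := mean_ge ν h hi
  obtain ⟨μ, hμ, hαμ, -⟩ := exists_lim d ν hα.le h hi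
  refine ⟨fun n => (hT n).1, fun K n hK => ?_, fun hs => ?_, μ, ?_, hαμ, fun K hK hs => ?_⟩
  · rw [(hT n).2, (hT (n + K)).2]
    exact divide (fkey d ν hα h hi n K hK)
  · rw [hg]
    refine seq_mono (α := α) (lam := 2 * ((∫ x, x ∂ν) - α) / α) (m := ∫ x, x ∂ν) (by
      have : 0 ≤ (∫ x, x ∂ν) - α := by linarith
      positivity) (fun n => ?_) (fun n => g_le d ν h0 hi n) ?_
    · have := fkey d ν hα h hi n 1 le_rfl
      push_cast at this
      calc _ ≤ _ := this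
        _ = _ := by ring
    · rw [div_mul_eq_mul_div, div_lt_iff₀ hα]
      nlinarith
  · rw [show (fun n : ℕ => (∫ ω, a n ω ∂P) / (n : ℝ)) = fun n : ℕ => g d ν n / n from
      funext fun n => by rw [(hT n).2]]
    exact hμ
  · have := fseq hα K (fun n => fkey d ν hα h hi n K hK) hμ hs
    simpa only [(hT _).2] using this

/-- All dimensions, bounded laws. -/
theorem main_bdd {ν : Measure ℝ} [IsProbabilityMeasure ν] {α β : ℝ} (hα : 0 < α)
    (h : ν (Set.Iio α) = 0) (h' : ν (Set.Ioi β) = 0) (d : ℕ) {Ω : Type}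
    [MeasurableSpace Ω] (P : Measure Ω) [IsProbabilityMeasure P]
    {τ : Sym2 (Fin (d + 2) → ℤ) → Ω → ℝ} {a : ℕ → Ω → ℝ} (H : FPP d P ν τ a) :
    (∀ n : ℕ, α - (β - α) / α * ((∫ ω, a (n + 1) ω ∂P) / ((n : ℝ) + 1) - α) ≤
        (∫ ω, a (n + 1) ω ∂P) - ∫ ω, a n ω ∂P) ∧
      (β < 2 * α ∨ (β - α) * ((∫ x, x ∂ν) - α) < α ^ 2 →
        StrictMono (fun n => ∫ ω, a n ω ∂P)) ∧
      ∀ μ : ℝ, Tendsto (fun n : ℕ => (∫ ω, a n ω ∂P) / n) atTop (𝓝 μ) →
        (β - α) * (μ - α) < α ^ 2 → ∃ c : ℝ, 0 < c ∧ ∀ᶠ n : ℕ in atTop,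
          (∫ ω, a n ω ∂P) + c ≤ ∫ ω, a (n + 1) ω ∂P := by
  have hαβ : α ≤ β := by
    by_contra hc
    push Not at hc
    have h1 : (Set.univ : Set ℝ) ⊆ Set.Iio α ∪ Set.Ioi β := by
      intro x _
      rcases lt_or_ge x α with hx | hx
      · exact Or.inl hx
      · exact Or.inr (lt_of_lt_of_le hc hx)
    have h2 : ν Set.univ = 0 := measure_mono_null h1 (measure_union_null h h')
    rw [measure_univ] at h2
    exact one_ne_zero h2
  have hA := adm_bounded ν hα hαβ h h'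
  have h0 : ν (Set.Iio 0) = 0 := measure_mono_null (Set.Iio_subset_Iio hα.le) h
  have hT := fun n => transfer P ν h0 hA.mean H n
  have hg : (fun n : ℕ => ∫ ω, a n ω ∂P) = g d ν := funext fun n => (hT n).2
  have hl : 0 ≤ (β - α) / α := div_nonneg (by linarith) hα.le
  have hlam : β / α + 1 - 2 = (β - α) / α := by field_simp; ring
  have hkey : ∀ n : ℕ, ((n : ℝ) + 1) * g d ν n ≤
      ((n : ℝ) + 1 + (β - α) / α) * g d ν (n + 1) -
        ((β - α) / α + 1) * α * ((n : ℝ) + 1) := by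
    intro n
    have := key hA d n
    rw [hlam, show β / α + 1 - 1 = (β - α) / α + 1 by field_simp; ring] at this
    exact this
  have hle : (∫ x, x ∂ν) ≤ β := by
    have h3 : ∀ᵐ x ∂ν, x ≤ β := by
      rw [ae_iff]
      simp only [not_le]
      exact h'
    calc (∫ x, x ∂ν) ≤ ∫ _, β ∂ν := integral_mono_ae hA.mean (integrable_const _) h3
      _ = β := by simp
  have hm := mean_ge ν h hA.mean
  refine ⟨fun n => ?_, fun hs => ?_, fun μ hμ hs => ?_⟩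
  · rw [(hT n).2, (hT (n + 1)).2]
    have := divide (kap := 1) (α := α) (lam := (β - α) / α) (n := n) (x := g d ν n)
      (y := g d ν (n + 1)) (by
        calc _ ≤ _ := hkey n
          _ = _ := by ring)
    simpa using this
  · rw [hg]
    refine seq_mono hl hkey (fun n => g_le d ν h0 hA.mean n) ?_
    rw [div_mul_eq_mul_div, div_lt_iff₀ hα]
    rcases hs with hs | hs
    · nlinarith
    · nlinarith
  · have hμ' : Tendsto (fun n : ℕ => g d ν n / n) atTop (𝓝 μ) := by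
      rw [show (fun n : ℕ => g d ν n / n) = fun n : ℕ => (∫ ω, a n ω ∂P) / (n : ℝ) from
        funext fun n => by rw [(hT n).2]]
      exact hμ
    have := seq_event hl hkey hμ' (by
      rw [div_mul_eq_mul_div, div_lt_iff₀ hα]
      nlinarith)
    simpa only [(hT _).2] using this

/-- High dimensions. -/
theorem main_high {ν : Measure ℝ} [IsProbabilityMeasure ν] {α : ℝ} (hα : 0 < α)
    (h : ν (Set.Iio α) = 0) (hess : ∀ ε : ℝ, 0 < ε → ν (Set.Iio (α + ε)) ≠ 0)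
    (hi : Integrable (fun x : ℝ => x) ν) {η : ℝ} (hη : 0 < η) :
    ∃ d₀ : ℕ, ∀ d : ℕ, d₀ ≤ d → ∀ (Ω : Type) [MeasurableSpace Ω] (P : Measure Ω)
      [IsProbabilityMeasure P] (τ : Sym2 (Fin (d + 2) → ℤ) → Ω → ℝ) (a : ℕ → Ω → ℝ),
      FPP d P ν τ a → ∃ μ : ℝ, Tendsto (fun n : ℕ => (∫ ω, a n ω ∂P) / n) atTop (𝓝 μ) ∧
        α ≤ μ ∧ μ ≤ α + η ∧
        (∀ᶠ n : ℕ in atTop, μ - η ≤ (∫ ω, a (n + 1) ω ∂P) - ∫ ω, a n ω ∂P) ∧
        (∃ c : ℝ, 0 < c ∧ ∀ᶠ n : ℕ in atTop, (∫ ω, a n ω ∂P) + c ≤ ∫ ω, a (n + 1) ω ∂P) ∧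
        ∃ N : ℕ, ∀ K n : ℕ, N ≤ K → N ≤ n →
          (((Finset.range K).filter (fun j =>
            μ + η < (∫ ω, a (n + j + 1) ω ∂P) - ∫ ω, a (n + j) ω ∂P)).card : ℝ) ≤ η * K := by
  have h0 : ν (Set.Iio 0) = 0 := measure_mono_null (Set.Iio_subset_Iio hα.le) h
  have hm := mean_ge ν h hi
  set lam := 2 * ((∫ x, x ∂ν) - α) / α with hlam
  have hl : 0 ≤ lam := by
    have : 0 ≤ (∫ x, x ∂ν) - α := by linarith
    rw [hlam]; positivity
  set η₁ := min η 1 with hη₁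
  have hη₁0 : 0 < η₁ := lt_min hη one_pos
  have hη₁1 : η₁ ≤ 1 := min_le_right _ _
  have hη₁η : η₁ ≤ η := min_le_left _ _
  have hlam1 : 0 < lam + 1 := by linarith
  set η₂ := min (min η (η₁ ^ 2 / (3 * (lam + 1)))) (α / (2 * (lam + 1))) with hη₂
  have hη₂0 : 0 < η₂ := lt_min (lt_min hη (by positivity)) (by positivity)
  obtain ⟨l, d₀, hl1, hd⟩ := high ν hα.le h hess hi hη₂0
  refine ⟨d₀, fun d hdd Ω _ P _ τ a H => ?_⟩
  have hT := fun n => transfer P ν h0 hi H n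
  have hkey : ∀ n : ℕ, ((n : ℝ) + 1) * g d ν n ≤
      ((n : ℝ) + 1 + lam) * g d ν (n + 1) - (lam + 1) * α * ((n : ℝ) + 1) := by
    intro n
    have := fkey d ν hα h hi n 1 le_rfl
    push_cast at this
    calc _ ≤ _ := this
      _ = _ := by rw [hlam]; ring
  obtain ⟨μ, hμ, hαμ, hle⟩ := exists_lim d ν hα.le h hi
  have hlpos : (0 : ℝ) < l := by exact_mod_cast hl1
  have hμ2 : μ ≤ α + η₂ := by
    refine (hle l hl1).trans ?_
    rw [div_le_iff₀ hlpos]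
    exact hd d hdd
  have e1 : η₂ ≤ η := (min_le_left _ _).trans (min_le_left _ _)
  have e2 : η₂ ≤ η₁ ^ 2 / (3 * (lam + 1)) := (min_le_left _ _).trans (min_le_right _ _)
  have e3 : η₂ ≤ α / (2 * (lam + 1)) := min_le_right _ _
  obtain ⟨k1, N, k2⟩ := dens (α := α) hl hη₁0 hη₁1 hkey (g_sub d ν h0 hi) hμ
    (hμ2.trans (by linarith))
  simp only [(hT _).2]
  refine ⟨μ, hμ, hαμ, hμ2.trans (by linarith), k1.mono fun n hn => by linarith, ?_, N,
    fun K n hK hn => ?_⟩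
  · refine seq_event hl hkey hμ ?_
    have e4 : lam * (μ - α) ≤ lam * (α / (2 * (lam + 1))) :=
      mul_le_mul_of_nonneg_left (by linarith) hl
    have e5 : lam * (α / (2 * (lam + 1))) ≤ α / 2 := by
      rw [← mul_div_assoc, div_le_div_iff₀ (by positivity) two_pos]
      nlinarith
    linarith
  · have := k2 K n hK hn
    refine le_trans ?_ (this.trans (mul_le_mul_of_nonneg_right hη₁η (Nat.cast_nonneg _)))
    exact_mod_cast Finset.card_le_card (fun j hj => by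
      rw [Finset.mem_filter] at hj ⊢
      exact ⟨hj.1, lt_of_le_of_lt (by linarith) hj.2⟩)

end Pool.Agent.Work.MP_9a767b_pr.H
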