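import Pool.Agent.Work.MP_9a767b_pr.H.Blocks

/-!
# Prob

The expectation bound. Let `E = {ω | ∀ j, ∃ e ∈ B j, s < ω e}` (measurable: a finite intersection of
finite unions) and `S ω = ∑ e ∈ A, ω e`. Almost surely all coordinates in `A` are `≥ 0` (finitely many;
`measurePreserving_eval_infinitePi`). Off `E` some block has all coordinates `≤ s`, so
`F ω ≤ ∑ e ∈ B j, ω e ≤ M s ≤ M s + 1_E S`; on `E`: `F ω ≤ S ω ≤ M s + S ω`. So
`∫ F ≤ M s + ∫ (indicator E 1) * S`. The coordinates in `A` are independent of those in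
`U = ⋃ j, B j` (`iIndepFun_infinitePi` with `X i = id`, `iIndepFun.indepFun_finset`, `IndepFun.comp`), so
`∫ (indicator E 1) * S = P(E) * ∫ S` (`IndepFun.integral_mul_eq_mul_integral` or the variant of the name
in this Mathlib), `∫ S = A.card * ∫ x dν`, `P(E)` by `blocks`.
-/

open MeasureTheory ProbabilityTheory Filter Topology

namespace Pool.Agent.Work.MP_9a767b_pr.H

theorem prob_bound {ι : Type} (ν : Measure ℝ) [IsProbabilityMeasure ν] (h0 : ν (Set.Iio 0) = 0)
    (hi : Integrable (fun x : ℝ => x) ν) (A : Finset ι) {N M : ℕ} (B : Fin N → Finset ι)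
    (hA : ∀ j, Disjoint A (B j)) (hB : Pairwise (fun i j => Disjoint (B i) (B j)))
    (hc : ∀ j, (B j).card = M) {s : ℝ} (hs : 0 ≤ s) (F : (ι → ℝ) → ℝ)
    (hF : Integrable F (Measure.infinitePi (fun _ : ι => ν)))
    (h1 : ∀ᵐ ω ∂(Measure.infinitePi (fun _ : ι => ν)), F ω ≤ ∑ e ∈ A, ω e)
    (h2 : ∀ᵐ ω ∂(Measure.infinitePi (fun _ : ι => ν)), ∀ j, F ω ≤ ∑ e ∈ B j, ω e) :
    ∫ ω, F ω ∂(Measure.infinitePi (fun _ : ι => ν)) ≤
      M * s + (1 - (ν.real (Set.Iic s)) ^ M) ^ N * (A.card * ∫ x, x ∂ν) := by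
  classical
  set μ : Measure (ι → ℝ) := Measure.infinitePi (fun _ : ι => ν) with hμ
  set E : Set (ι → ℝ) := {ω | ∀ j, ∃ e ∈ B j, s < ω e} with hE
  -- the event is measurable
  have hEm : MeasurableSet E := by
    have h3 : E = ⋂ j, ⋃ e ∈ B j, {ω : ι → ℝ | s < ω e} := by
      ext ω
      simp [hE]
    rw [h3]
    refine MeasurableSet.iInter fun j => Finset.measurableSet_biUnion _ fun e _ => ?_
    exact measurableSet_lt measurable_const (measurable_pi_apply e)
  -- the coordinates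
  have hev : ∀ e : ι, MeasurePreserving (Function.eval e) μ ν := fun e =>
    measurePreserving_eval_infinitePi (fun _ : ι => ν) e
  have hint : ∀ e : ι, Integrable (fun ω : ι → ℝ => ω e) μ := fun e =>
    (hev e).integrable_comp_of_integrable hi
  have hmean : ∀ e : ι, ∫ ω, ω e ∂μ = ∫ x, x ∂ν := by
    intro e
    have h3 := integral_map (μ := μ) (φ := fun ω : ι → ℝ => ω e)
      (measurable_pi_apply e).aemeasurable (f := fun x : ℝ => x)
      (measurable_id.aestronglyMeasurable)
    have h4 : Measure.map (fun ω : ι → ℝ => ω e) μ = ν := (hev e).map_eq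
    rw [h4] at h3
    exact h3.symm
  have hpos : ∀ᵐ ω ∂μ, ∀ e ∈ A, 0 ≤ ω e := by
    rw [Finset.eventually_all]
    intro e _
    rw [ae_iff]
    have h3 : {ω : ι → ℝ | ¬ 0 ≤ ω e} = Function.eval e ⁻¹' Set.Iio 0 := by
      ext ω
      simp
    rw [h3, (hev e).measure_preimage measurableSet_Iio.nullMeasurableSet, h0]
  -- the sum
  have hSint : Integrable (fun ω : ι → ℝ => ∑ e ∈ A, ω e) μ := integrable_finset_sum _ fun e _ => hint e
  have hSmean : ∫ ω, (∑ e ∈ A, ω e) ∂μ = A.card * ∫ x, x ∂ν := by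
    rw [integral_finset_sum _ fun e _ => hint e, Finset.sum_congr rfl fun e _ => hmean e,
      Finset.sum_const, nsmul_eq_mul]
  -- independence
  obtain ⟨U, hU⟩ : ∃ U : Finset ι, U = Finset.univ.biUnion B := ⟨_, rfl⟩
  have hAU : Disjoint U A := by
    rw [hU, Finset.disjoint_biUnion_left]
    intro j _
    exact (hA j).symm
  have hBU : ∀ j, ∀ e ∈ B j, e ∈ U := by
    intro j e he
    rw [hU]
    exact Finset.mem_biUnion.2 ⟨j, Finset.mem_univ _, he⟩
  have hind : IndepFun (E.indicator (fun _ => (1 : ℝ))) (fun ω : ι → ℝ => ∑ e ∈ A, ω e) μ := by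
    have h3 : iIndepFun (fun (i : ι) (ω : ι → ℝ) => ω i) μ :=
      iIndepFun_infinitePi (P := fun _ : ι => ν) (X := fun _ x => x) (fun _ => measurable_id)
    have h4 := h3.indepFun_finset U A hAU (fun i => measurable_pi_apply i)
    have hD : MeasurableSet {y : U → ℝ |
        ∀ j, ∃ e : U, e.1 ∈ B j ∧ s < y e} := by
      have h5 : {y : U → ℝ |
          ∀ j, ∃ e : U, e.1 ∈ B j ∧ s < y e} =
          ⋂ j, ⋃ e : U, ⋃ _ : e.1 ∈ B j, {y | s < y e} := by
        ext y
        simp
      rw [h5]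
      refine MeasurableSet.iInter fun j => MeasurableSet.iUnion fun e =>
        MeasurableSet.iUnion fun _ => ?_
      exact measurableSet_lt measurable_const (measurable_pi_apply e)
    have hφ : Measurable (Set.indicator {y : U → ℝ | ∀ j, ∃ e : U, e.1 ∈ B j ∧ s < y e}
        (fun _ => (1 : ℝ))) := measurable_const.indicator hD
    have hψ : Measurable (fun y : A → ℝ => ∑ e, y e) :=
      Finset.measurable_sum _ fun e _ => measurable_pi_apply e
    have h5 := h4.comp hφ hψ
    have h6 : (Set.indicator {y : U → ℝ |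
        ∀ j, ∃ e : U, e.1 ∈ B j ∧ s < y e} (fun _ => (1 : ℝ))) ∘
          (fun (ω : ι → ℝ) (i : U) => ω i) =
        E.indicator (fun _ => (1 : ℝ)) := by
      funext ω
      rw [Function.comp_apply]
      by_cases h7 : ω ∈ E
      · rw [Set.indicator_of_mem h7, Set.indicator_of_mem]
        intro j
        obtain ⟨e, he, h8⟩ := h7 j
        exact ⟨⟨e, hBU j e he⟩, he, h8⟩
      · rw [Set.indicator_of_notMem h7, Set.indicator_of_notMem]
        intro h8
        apply h7
        intro j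
        obtain ⟨e, he, h9⟩ := h8 j
        exact ⟨e.1, he, h9⟩
    have h7 : (fun y : A → ℝ => ∑ e, y e) ∘ (fun (ω : ι → ℝ) (i : A) => ω i) =
        fun ω : ι → ℝ => ∑ e ∈ A, ω e := by
      funext ω
      rw [Function.comp_apply]
      exact Finset.sum_coe_sort A ω
    rw [h6, h7] at h5
    exact h5
  -- the bound
  have hle : ∀ᵐ ω ∂μ, F ω ≤ M * s + E.indicator (fun _ => (1 : ℝ)) ω * ∑ e ∈ A, ω e := by
    filter_upwards [h1, h2, hpos] with ω g1 g2 g3
    have hS0 : 0 ≤ ∑ e ∈ A, ω e := Finset.sum_nonneg g3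
    have hMs : (0 : ℝ) ≤ M * s := mul_nonneg (Nat.cast_nonneg _) hs
    by_cases h7 : ω ∈ E
    · rw [Set.indicator_of_mem h7, one_mul]
      linarith
    · rw [Set.indicator_of_notMem h7, zero_mul, add_zero]
      have h8 : ∃ j, ∀ e ∈ B j, ω e ≤ s := by
        by_contra h9
        push Not at h9
        exact h7 h9
      obtain ⟨j, hj⟩ := h8
      refine (g2 j).trans ?_
      refine (Finset.sum_le_card_nsmul _ _ s hj).trans ?_
      rw [hc j, nsmul_eq_mul]
  have hmul : (fun ω : ι → ℝ => E.indicator (fun _ => (1 : ℝ)) ω * ∑ e ∈ A, ω e) =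
      E.indicator (fun ω : ι → ℝ => ∑ e ∈ A, ω e) := by
    funext ω
    by_cases h7 : ω ∈ E
    · rw [Set.indicator_of_mem h7, Set.indicator_of_mem h7, one_mul]
    · rw [Set.indicator_of_notMem h7, Set.indicator_of_notMem h7, zero_mul]
  have hGint : Integrable (fun ω : ι → ℝ => E.indicator (fun _ => (1 : ℝ)) ω * ∑ e ∈ A, ω e) μ := by
    rw [hmul]
    exact hSint.indicator hEm
  have hprod : ∫ ω, E.indicator (fun _ => (1 : ℝ)) ω * (∑ e ∈ A, ω e) ∂μ =
      (1 - (ν.real (Set.Iic s)) ^ M) ^ N * (A.card * ∫ x, x ∂ν) := by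
    rw [hind.integral_fun_mul_eq_mul_integral
      (measurable_const.indicator hEm).aestronglyMeasurable hSint.aestronglyMeasurable, hSmean]
    have h8 : ∫ ω, E.indicator (fun _ => (1 : ℝ)) ω ∂μ = μ.real E := by
      have h9 := integral_indicator_one (μ := μ) hEm
      exact h9
    have h9 := blocks ν B hB hc s
    rw [h8, hE, hμ, h9]
  calc ∫ ω, F ω ∂μ ≤ ∫ ω, (M * s + E.indicator (fun _ => (1 : ℝ)) ω * ∑ e ∈ A, ω e) ∂μ :=
        integral_mono_ae hF ((integrable_const _).add hGint) hle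
    _ = M * s + (1 - (ν.real (Set.Iic s)) ^ M) ^ N * (A.card * ∫ x, x ∂ν) := by
        rw [integral_add (integrable_const _) hGint, hprod, integral_const, probReal_univ,
          one_smul]

end Pool.Agent.Work.MP_9a767b_pr.H
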