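import Pool.Agent.Work.MP_9a767b_pr.H.Metric

/-!
# Step

One step of a path after the contraction of the columns `k` and `k + 1`. Let `x`, `y` be adjacent.

Case `y = x + ax d 1` (then `hz s(x, y)` and `mc s(x, y) = x 0`, `y 0 = x 0 + 1`).
* `x 0 = k`: `ct k x = x`, `ct k y = y - ax d 1 = x`; `pt_self`, and `co = 0`.
* `x 0 < k`: `ct k x = x`, `ct k y = y`, the pair `s(x, y)` is not `mg` (it is `hz`) and `mc < k`, so
  `gl` is `ω s(x, y)`; `pt_adj`; `co = ω s(x, y)`.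
* `x 0 > k`: `ct k x = x - ax d 1`, `ct k y = y - ax d 1`, adjacent (`adj_add`), `e' = s(x - ax, y - ax)` is
  `hz`, `mc e' = x 0 - 1 ≥ k`, so `gl e' = ω (sh e') = ω s(x, y)`; `co = ω s(x, y)`.
Case `x = y + ax d 1`: the previous case with `pt_comm` and `Sym2.eq_swap`.
Case `x 0 = y 0` (not `hz`, `mc = x 0`).
* `x 0 < k`: `gl = ω`, `co = ω`. * `x 0 = k`: `s(x, y)` is `mg`, `gl = min (c₁ * ω e) _ ≤ c₁ * ω e = co`.
* `x 0 = k + 1`: `e' = s(x - ax, y - ax)` is `mg`, `sh e' = s(x, y)`, `gl e' ≤ c₂ * ω s(x, y) = co`.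
* `x 0 > k + 1`: `e'` is not `mg`, `mc e' = x 0 - 1 > k`, `gl e' = ω s(x, y) = co`.
(`adj_cases` gives the three cases.)
-/

open MeasureTheory ProbabilityTheory Filter Topology

namespace Pool.Agent.Work.MP_9a767b_pr.H

private theorem ax_z {d : ℕ} (n : ℤ) : (ax d n) 0 = n := by
  simp [ax]

private theorem mc_mk {d : ℕ} (x y : V d) : mc s(x, y) = min (x 0) (y 0) := rfl

private theorem hz_mk {d : ℕ} (x y : V d) : hz s(x, y) ↔ x 0 ≠ y 0 := Iff.rfl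

private theorem sh_mk {d : ℕ} (x y : V d) : sh s(x - ax d 1, y - ax d 1) = s(x, y) := by
  show s(x - ax d 1 + ax d 1, y - ax d 1 + ax d 1) = s(x, y)
  rw [sub_add_cancel, sub_add_cancel]

private theorem hz_sub {d : ℕ} (x y : V d) : hz s(x - ax d 1, y - ax d 1) ↔ hz s(x, y) := by
  rw [hz_mk, hz_mk, Pi.sub_apply, Pi.sub_apply, ax_z]
  omega

private theorem mc_sub {d : ℕ} (x y : V d) :
    mc s(x - ax d 1, y - ax d 1) = mc s(x, y) - 1 := by
  rw [mc_mk, mc_mk, Pi.sub_apply, Pi.sub_apply, ax_z]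
  omega

theorem gl_nonneg {d : ℕ} (k : ℤ) {c₁ c₂ : ℝ} (h₁ : 0 ≤ c₁) (h₂ : 0 ≤ c₂) {ω : Sym2 (V d) → ℝ}
    (hω : ∀ e, 0 ≤ ω e) : ∀ e, 0 ≤ gl k c₁ c₂ ω e := by
  intro e
  unfold gl
  split_ifs
  · exact le_min (mul_nonneg h₁ (hω _)) (mul_nonneg h₂ (hω _))
  · exact hω _
  · exact hω _

private theorem step_low {d : ℕ} {k : ℤ} {c₁ c₂ : ℝ} (h₁ : 0 ≤ c₁) (h₂ : 0 ≤ c₂)
    {ω : Sym2 (V d) → ℝ} (hω : ∀ e, 0 ≤ ω e) {x y : V d} (h : (lattice d).Adj x y)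
    (hx : x 0 ≤ k) (hy : y 0 ≤ k) :
    pt (gl k c₁ c₂ ω) (ct k x) (ct k y) ≤ gl k c₁ c₂ ω s(x, y) := by
  unfold ct
  rw [if_pos hx, if_pos hy]
  exact pt_adj (gl_nonneg k h₁ h₂ hω) h

private theorem step_high {d : ℕ} {k : ℤ} {c₁ c₂ : ℝ} (h₁ : 0 ≤ c₁) (h₂ : 0 ≤ c₂)
    {ω : Sym2 (V d) → ℝ} (hω : ∀ e, 0 ≤ ω e) {x y : V d} (h : (lattice d).Adj x y)
    (hx : k < x 0) (hy : k < y 0) :
    pt (gl k c₁ c₂ ω) (ct k x) (ct k y) ≤ gl k c₁ c₂ ω s(x - ax d 1, y - ax d 1) := by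
  unfold ct
  rw [if_neg (not_le.2 hx), if_neg (not_le.2 hy)]
  refine pt_adj (gl_nonneg k h₁ h₂ hω) ((adj_add (x - ax d 1) (y - ax d 1) (ax d 1)).1 ?_)
  rw [sub_add_cancel, sub_add_cancel]
  exact h

private theorem step_right {d : ℕ} (k : ℤ) {c₁ c₂ : ℝ} (h₁ : 0 ≤ c₁) (h₂ : 0 ≤ c₂)
    {ω : Sym2 (V d) → ℝ} (hω : ∀ e, 0 ≤ ω e) (x : V d) :
    pt (gl k c₁ c₂ ω) (ct k x) (ct k (x + ax d 1)) ≤ co k c₁ c₂ ω s(x, x + ax d 1) := by
  have hy0 : (x + ax d 1) 0 = x 0 + 1 := by rw [Pi.add_apply, ax_z]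
  have hhz : hz s(x, x + ax d 1) := by
    rw [hz_mk, hy0]
    omega
  have hmc : mc s(x, x + ax d 1) = x 0 := by
    rw [mc_mk, hy0]
    omega
  rcases lt_trichotomy (x 0) k with hk | hk | hk
  · refine (step_low h₁ h₂ hω (adj_ax x) hk.le (by rw [hy0]; omega)).trans (le_of_eq ?_)
    unfold gl co
    rw [if_neg (fun hm : mg k _ => hm.2 hhz), if_pos (by rw [hmc]; exact hk), if_pos hhz,
      if_neg (by rw [hmc]; omega)]
  · have e1 : ct k x = x := by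
      unfold ct
      rw [if_pos hk.le]
    have e2 : ct k (x + ax d 1) = x := by
      unfold ct
      rw [if_neg (by rw [hy0]; omega), add_sub_cancel_right]
    rw [e1, e2, pt_self (gl_nonneg k h₁ h₂ hω)]
    unfold co
    rw [if_pos hhz, if_pos (by rw [hmc]; exact hk)]
  · refine (step_high h₁ h₂ hω (adj_ax x) hk (by rw [hy0]; omega)).trans (le_of_eq ?_)
    unfold gl co
    rw [if_neg (fun hm : mg k _ => hm.2 ((hz_sub _ _).2 hhz)),
      if_neg (by rw [mc_sub, hmc]; omega), sh_mk, if_pos hhz, if_neg (by rw [hmc]; omega)]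

theorem step {d : ℕ} (k : ℤ) {c₁ c₂ : ℝ} (h₁ : 0 ≤ c₁) (h₂ : 0 ≤ c₂) {ω : Sym2 (V d) → ℝ}
    (hω : ∀ e, 0 ≤ ω e) {x y : V d} (h : (lattice d).Adj x y) :
    pt (gl k c₁ c₂ ω) (ct k x) (ct k y) ≤ co k c₁ c₂ ω s(x, y) := by
  rcases adj_cases h with rfl | rfl | h0
  · exact step_right k h₁ h₂ hω x
  · rw [pt_comm, Sym2.eq_swap]
    exact step_right k h₁ h₂ hω y
  · have hhz : ¬ hz s(x, y) := by
      rw [hz_mk]
      exact fun hf => hf h0
    have hmc : mc s(x, y) = x 0 := by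
      rw [mc_mk, ← h0]
      exact min_self _
    by_cases hk : x 0 ≤ k
    · refine (step_low h₁ h₂ hω h hk (by rw [← h0]; exact hk)).trans ?_
      unfold gl co
      rw [if_neg hhz]
      rcases lt_or_eq_of_le hk with hk' | hk'
      · rw [if_neg (fun hm : mg k _ => by have := hm.1; rw [hmc] at this; omega),
          if_pos (by rw [hmc]; exact hk'), if_neg (by rw [hmc]; omega),
          if_neg (by rw [hmc]; omega)]
      · rw [if_pos (show mg k s(x, y) from ⟨by rw [hmc]; exact hk', hhz⟩),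
          if_pos (by rw [hmc]; exact hk')]
        exact min_le_left _ _
    · push Not at hk
      refine (step_high h₁ h₂ hω h hk (by rw [← h0]; exact hk)).trans ?_
      have hhz' : ¬ hz s(x - ax d 1, y - ax d 1) := fun hf => hhz ((hz_sub _ _).1 hf)
      unfold gl co
      rw [if_neg hhz, sh_mk, if_neg (show ¬ mc s(x, y) = k by rw [hmc]; omega)]
      by_cases hk' : x 0 = k + 1
      · rw [if_pos (show mg k s(x - ax d 1, y - ax d 1) from
          ⟨by rw [mc_sub, hmc]; omega, hhz'⟩), if_pos (by rw [hmc]; exact hk')]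
        exact min_le_right _ _
      · rw [if_neg (fun hm : mg k _ => by have := hm.1; rw [mc_sub, hmc] at this; omega),
          if_neg (by rw [mc_sub, hmc]; omega), if_neg (by rw [hmc]; exact hk')]

end Pool.Agent.Work.MP_9a767b_pr.H
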